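import Pool.Agent.Lib.MP_2f3286_ag.Top.Tors

/-!
# Sections, places and Kummer classes along points of an elliptic curve
-/

open WeierstrassCurve WeierstrassCurve.Affine WeierstrassCurve.Affine.Point

namespace Pool.Agent.Lib.MP_2f3286_ag.Top

theorem some_ext {F : Type*} [Field F] {W : Affine F} {x y x' y' : F} (h : W.Nonsingular x y)
    (h' : W.Nonsingular x' y') (hx : x = x') (hy : y = y') : some x y h = some x' y' h' := by
  subst hx hy; rfl

section galois

variable {k : Type*} [Field k] {W : Affine k} {F Fb : Type*} [Field F] [Field Fb] [Algebra k F]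
  [Algebra F Fb] [Algebra k Fb] [IsScalarTower k F Fb] [DecidableEq F] [DecidableEq Fb]

/-- action of an automorphism on points -/
noncomputable abbrev act (W : Affine k) (τ : Gal(Fb/F)) : (W⁄Fb).Point →+ (W⁄Fb).Point :=
  map (τ : Fb →ₐ[F] Fb)

theorem act_baseChange (τ : Gal(Fb/F)) (P : (W⁄F).Point) :
    act W τ (baseChange F Fb P) = baseChange F Fb P :=
  map_baseChange (τ : Fb →ₐ[F] Fb) P

theorem act_mul (σ τ : Gal(Fb/F)) (P : (W⁄Fb).Point) : act W (σ * τ) P = act W σ (act W τ P) := by
  rcases P with _ | ⟨x, y, h⟩ <;> rfl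

/-- a point fixed by the Galois group is rational -/
theorem exists_of_fixed [IsGalois F Fb] (P : (W⁄Fb).Point) (h : ∀ τ : Gal(Fb/F), act W τ P = P) :
    ∃ Q : (W⁄F).Point, baseChange F Fb Q = P := by
  rcases P with _ | ⟨x, y, hxy⟩
  · exact ⟨0, rfl⟩
  have hfix : ∀ z : Fb, (∀ τ : Gal(Fb/F), τ z = z) → ∃ w : F, algebraMap F Fb w = z := by
    intro z hz
    have : z ∈ (⊥ : IntermediateField F Fb) := by
      rw [InfiniteGalois.mem_bot_iff_fixed]; exact hz
    exact IntermediateField.mem_bot.mp this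
  have h1 : ∀ τ : Gal(Fb/F), τ x = x ∧ τ y = y := by
    intro τ
    have h2 := h τ
    rw [act, map_some, some.injEq] at h2
    exact h2
  obtain ⟨a, rfl⟩ := hfix x (fun τ => (h1 τ).1)
  obtain ⟨b, rfl⟩ := hfix y (fun τ => (h1 τ).2)
  exact ⟨some a b ((W.baseChange_nonsingular (Algebra.ofId F Fb).injective a b).mp hxy), rfl⟩

end galois

section section_

variable {k : Type*} [Field k] {W : Affine k}
  {kb : Type*} [Field kb] [Algebra k kb]
  {K M : Type*} [Field K] [Field M] [Algebra k K] [Algebra K M] [Algebra k M] [IsScalarTower k K M]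
  [Algebra kb M] [IsScalarTower k kb M]
  [DecidableEq k] [DecidableEq kb] [DecidableEq K] [DecidableEq M]
  (s : Gal(kb/k) →* Gal(M/K))

theorem act_const (hsec : ∀ σ a, s σ (algebraMap kb M a) = algebraMap kb M (σ a)) (σ : Gal(kb/k))
    (P : (W⁄kb).Point) : act W (s σ) (baseChange kb M P) = baseChange kb M (act W σ P) := by
  rcases P with _ | ⟨x, y, hxy⟩
  · rfl
  · exact some_ext _ _ (hsec σ x) (hsec σ y)

/-- fixed points of the section among constant points come from `k` -/
theorem exists_of_fixed_const [IsGalois k kb]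
    (hsec : ∀ σ a, s σ (algebraMap kb M a) = algebraMap kb M (σ a))
    (P : (W⁄kb).Point) (h : ∀ σ, act W (s σ) (baseChange kb M P) = baseChange kb M P) :
    ∃ Q : (W⁄k).Point, baseChange k kb Q = P := by
  apply exists_of_fixed (F := k)
  intro σ
  apply map_injective (Algebra.ofId kb M)
  show baseChange kb M _ = baseChange kb M _
  rw [← act_const s hsec, h]

/-- The stabiliser of a point with algebraic coordinates is open. -/
theorem act_eq_nhds [TopologicalSpace Gal(kb/k)] [Algebra.IsAlgebraic K M] (hs : Continuous s) (ξ : (W⁄M).Point) :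
    {σ : Gal(kb/k) | act W (s σ) ξ = ξ} ∈ nhds 1 := by
  rcases ξ with _ | ⟨x, y, hxy⟩
  · exact Filter.univ_mem' fun σ => rfl
  have hfin : FiniteDimensional K (IntermediateField.adjoin K ({x, y} : Set M)) :=
    IntermediateField.finiteDimensional_adjoin fun z _ => (Algebra.IsAlgebraic.isAlgebraic z).isIntegral
  have ho := IntermediateField.fixingSubgroup_isOpen (IntermediateField.adjoin K ({x, y} : Set M))
  have hmem : ((IntermediateField.adjoin K ({x, y} : Set M)).fixingSubgroup : Set Gal(M/K)) ∈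
      nhds (s 1) := by
    rw [map_one]
    exact ho.mem_nhds (one_mem _)
  refine Filter.mem_of_superset (hs.continuousAt hmem) ?_
  intro σ hσ
  have h4 : s σ ∈ (IntermediateField.adjoin K ({x, y} : Set M)).fixingSubgroup := hσ
  rw [IntermediateField.mem_fixingSubgroup_iff] at h4
  exact some_ext _ _ (h4 x (IntermediateField.subset_adjoin K _ (by simp)))
    (h4 y (IntermediateField.subset_adjoin K _ (by simp)))


/-- the Kummer cocycle of a division point -/
theorem exists_cocycle [TopologicalSpace Gal(kb/k)] [IsTopologicalGroup Gal(kb/k)]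
    [Algebra.IsAlgebraic K M] [W.IsElliptic] [IsAlgClosed kb] (hs : Continuous s)
    (hsec : ∀ σ a, s σ (algebraMap kb M a) = algebraMap kb M (σ a))
    (P : (W⁄kb).Point) (hP : ∀ n : ℕ, n ≠ 0 → n • P ≠ 0) {n : ℕ} (hn : n ≠ 0)
    (η : (W⁄K).Point) (T : (W⁄M).Point) (hT : n • T = baseChange K M η) :
    ∃ c : Gal(kb/k) → (W⁄kb).Point, (∀ σ, baseChange kb M (c σ) = act W (s σ) T - T) ∧
      (∀ σ τ, c (σ * τ) = c σ + act W σ (c τ)) ∧ IsLocallyConstant c := by
  have h1 : ∀ σ, ∃ c : (W⁄kb).Point, baseChange kb M c = act W (s σ) T - T := by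
    intro σ
    apply descend P hP hn _ 0
    rw [smul_sub, ← map_nsmul, hT, _root_.map_zero, sub_eq_zero]
    exact act_baseChange (s σ) η
  choose c hc using h1
  have hinj : Function.Injective (baseChange kb M (W' := W)) := map_injective _
  have hcoc : ∀ σ τ, c (σ * τ) = c σ + act W σ (c τ) := by
    intro σ τ
    apply hinj
    rw [map_add, ← act_const s hsec, hc, hc, hc, map_mul, act_mul, map_sub]
    abel
  refine ⟨c, hc, hcoc, ?_⟩
  have h2 : {σ : Gal(kb/k) | c σ = 0} ∈ nhds 1 := by
    refine Filter.mem_of_superset (act_eq_nhds s hs T) ?_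
    intro σ hσ
    apply hinj
    rw [hc, _root_.map_zero, sub_eq_zero]
    exact hσ
  rw [IsLocallyConstant.iff_eventually_eq]
  intro σ
  have h3 : Filter.Tendsto (fun τ : Gal(kb/k) => σ⁻¹ * τ) (nhds σ) (nhds 1) := by
    have : Continuous fun τ : Gal(kb/k) => σ⁻¹ * τ := continuous_const.mul continuous_id
    have h4 := this.tendsto σ
    rwa [inv_mul_cancel] at h4
  filter_upwards [h3 h2] with τ hτ
  have h5 := hcoc σ (σ⁻¹ * τ)
  rw [mul_inv_cancel_left] at h5
  rw [h5, show c (σ⁻¹ * τ) = 0 from hτ, _root_.map_zero, add_zero]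

/-- `O, φ` is a place of `M` fixed by the section `s` over the embedding `ι`: the section `s`,
restricted to the Galois group of `F`, is the section of an `F`-rational point. -/
structure IsPlaceOf {F Fb : Type*} [Field F] [Field Fb] [Algebra F Fb] [Algebra k Fb]
    (ι : kb →ₐ[k] Fb) (O : ValuationSubring M) (φ : O →+* Fb) : Prop where
  isLocal : IsLocalHom φ
  const : ∀ a : kb, Sp O φ (algebraMap kb M a) (ι a)
  equiv : ∀ (σ : Gal(kb/k)) (τ : Gal(Fb/F)), (∀ a, ι (σ a) = τ (ι a)) →
    ∀ m a, Sp O φ m a → Sp O φ (s σ m) (τ a)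

section place

variable {F Fb : Type*} [Field F] [Field Fb] [Algebra k F] [Algebra F Fb] [Algebra k Fb]
  [IsScalarTower k F Fb] {ι : kb →ₐ[k] Fb} {O : ValuationSubring M} {φ : O →+* Fb}
  (hpl : IsPlaceOf (F := F) s ι O φ) [DecidableEq F] [DecidableEq Fb]

include hpl

theorem IsPlaceOf.curveSp : CurveSp O φ (W⁄M) (W⁄Fb) := by
  apply Top.curveSp
  intro a
  have := hpl.const (algebraMap k kb a)
  rwa [← IsScalarTower.algebraMap_apply, ι.commutes] at this

variable [W.IsElliptic]

/-- the value of points at the place -/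
noncomputable def IsPlaceOf.val : (W⁄M).Point →+ (W⁄Fb).Point :=
  have := hpl.isLocal
  redHom (hpl.curveSp s)

theorem IsPlaceOf.val_const (T : (W⁄kb).Point) :
    hpl.val s (baseChange kb M T) = map ι T := by
  have := hpl.isLocal
  rcases T with _ | ⟨a', b', h'⟩
  · rfl
  · exact red_some (hpl.curveSp s)
      ((W.baseChange_nonsingular (Algebra.ofId kb M).injective a' b').mpr h')
      (hpl.const a') (hpl.const b') _

theorem IsPlaceOf.val_act (σ : Gal(kb/k)) (τ : Gal(Fb/F)) (h : ∀ a, ι (σ a) = τ (ι a))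
    (T : (W⁄M).Point) : hpl.val s (act W (s σ) T) = act W τ (hpl.val s T) := by
  have := hpl.isLocal
  rcases T with _ | ⟨x, y, hxy⟩
  · rfl
  have hns : (W⁄M).Nonsingular (s σ x) (s σ y) :=
    (W.baseChange_nonsingular (s σ : M →ₐ[K] M).injective x y).mpr hxy
  by_cases hx : x ∈ O
  · have h1 := sp_of_mem (φ := φ) hx
    have h2 := sp_of_mem (φ := φ) (mem_y (hpl.curveSp s) hx hxy.1)
    have h3 := equation_iff_nonsingular.mp (h1.equation (hpl.curveSp s) h2 hxy.1)
    have h1' := hpl.equiv σ τ h _ _ h1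
    have h2' := hpl.equiv σ τ h _ _ h2
    have h3' := equation_iff_nonsingular.mp (h1'.equation (hpl.curveSp s) h2' hns.1)
    have e1 : hpl.val s (some x y hxy) = some _ _ h3 := red_some (hpl.curveSp s) hxy h1 h2 h3
    have e2 : hpl.val s (some (s σ x) (s σ y) hns) = some _ _ h3' :=
      red_some (hpl.curveSp s) hns h1' h2' h3'
    rw [e1]
    exact e2
  · have hx' : s σ x ∉ O := by
      intro hx2
      have h4 : ∀ a, ι (σ⁻¹ a) = τ⁻¹ (ι a) := by
        intro a
        apply τ.injective
        rw [← h, ← AlgEquiv.mul_apply, ← AlgEquiv.mul_apply, mul_inv_cancel, mul_inv_cancel]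
        rfl
      have h5 := (hpl.equiv σ⁻¹ τ⁻¹ h4 _ _ (sp_of_mem hx2)).mem
      rw [map_inv, ← AlgEquiv.mul_apply, inv_mul_cancel] at h5
      exact hx h5
    have e1 : hpl.val s (some x y hxy) = 0 := red_some_of_notMem (hpl.curveSp s) hxy hx
    have e2 : hpl.val s (some (s σ x) (s σ y) hns) = 0 :=
      red_some_of_notMem (hpl.curveSp s) hns hx'
    rw [e1, _root_.map_zero]
    exact e2

end place

end section_

end Pool.Agent.Lib.MP_2f3286_ag.Top
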