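import Mathlib
import Pool.Agent.Lib.MP_2f3286_ag.E.Defs

/-!
# Sections along points of an elliptic curve: the definitions used in the statement
-/

open WeierstrassCurve WeierstrassCurve.Affine
open IsDedekindDomain NumberField

namespace Pool.Agent.Lib.MP_2f3286_ag.Sel

/-- The section `s : Gal(kb/k) → Gal(M/K)` is, over the field `F`, the section of the place `(A, φ)`
of `M`: `A` is a valuation ring of `M` containing `kb`, `φ : A → Fb` is a homomorphism to an
algebraic closure `Fb` of `F` which extends the embedding `ι : kb → Fb` and whose kernel is the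
maximal ideal of `A` (elements of `A` outside the kernel are units of `A`), and `Gal(Fb/F)`, acting
on `M` through its restriction to `kb` and `s`, preserves `A` and commutes with `φ`. -/
def IsPlaceOf {k kb K M : Type*} [Field k] [Field kb] [Algebra k kb] [Field K] [Field M]
    [Algebra K M] [Algebra kb M] (s : Gal(kb/k) →* Gal(M/K)) (F : Type*) {Fb : Type*} [Field F]
    [Field Fb] [Algebra F Fb] (ι : kb →+* Fb) (A : ValuationSubring M) (φ : A →+* Fb) : Prop :=
  (∀ a : kb, ∃ h : algebraMap kb M a ∈ A, φ ⟨algebraMap kb M a, h⟩ = ι a) ∧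
  (∀ x : A, φ x ≠ 0 → (x : M)⁻¹ ∈ A) ∧
  ∀ (σ : Gal(kb/k)) (τ : Gal(Fb/F)), (∀ a, ι (σ a) = τ (ι a)) →
    ∀ x : A, ∃ h : s σ x ∈ A, φ ⟨s σ x, h⟩ = τ (φ x)

/-- The point `η` of the elliptic curve `W` over `K` takes the value `y`, a point of `W` over `F`,
at the place `(A, φ)` of `M ⊇ K`. -/
def HasValue {k K M F Fb : Type*} [Field k] [Field K] [Field M] [Field F] [Field Fb] [Algebra k K]
    [Algebra K M] [Algebra k F] [Algebra F Fb] (A : ValuationSubring M) (φ : A →+* Fb)
    {W : WeierstrassCurve k} : (W⁄K).Point → (W⁄F).Point → Prop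
  | .zero, y => y = .zero
  | .some a b _, y => (algebraMap K M a ∉ A ∧ y = .zero) ∨
      ∃ a' b' h', y = .some a' b' h' ∧
        (∃ h : algebraMap K M a ∈ A, φ ⟨_, h⟩ = algebraMap F Fb a') ∧
        (∃ h : algebraMap K M b ∈ A, φ ⟨_, h⟩ = algebraMap F Fb b')

open scoped Classical in
/-- The Kummer class modulo `n` of the section `s` along `η` is that of the rational point `R`:
`η - R` is `n` times a point of `W` over `M` fixed by `s`. -/
def SameClass {k kb K M : Type*} [Field k] [Field kb] [Algebra k kb] [Field K] [Field M]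
    [Algebra k K] [Algebra K M] [Algebra k M] [IsScalarTower k K M] (s : Gal(kb/k) →* Gal(M/K))
    {W : WeierstrassCurve k} (n : ℕ) (η : (W⁄K).Point) (R : (W⁄k).Point) : Prop :=
  ∃ ζ : (W⁄M).Point, (∀ σ, Point.map (s σ : M →ₐ[K] M) ζ = ζ) ∧
    n • ζ = Point.baseChange K M η - Point.baseChange k M R

open scoped Classical in
/-- Every continuous 1-cocycle of the Galois group of `k` with values in the geometric points of
the elliptic curve `W` whose class is trivial at every finite place outside `S` becomes a coboundary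
after multiplication by `m`. -/
def ShaKilledBy {k : Type*} [Field k] [NumberField k] (W : WeierstrassCurve k)
    (S : Finset (HeightOneSpectrum (𝓞 k))) (m : ℕ) : Prop :=
  ∀ c : Gal(AlgebraicClosure k/k) → (W⁄(AlgebraicClosure k)).Point, IsLocallyConstant c →
    (∀ σ τ, c (σ * τ) = c σ + Point.map (σ : AlgebraicClosure k →ₐ[k] AlgebraicClosure k) (c τ)) →
    (∀ v : HeightOneSpectrum (𝓞 k), v ∉ S →
      ∃ (ι : AlgebraicClosure k →ₐ[k] AlgebraicClosure (v.adicCompletion k))
        (b : (W⁄(AlgebraicClosure (v.adicCompletion k))).Point),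
        ∀ (σ : Gal(AlgebraicClosure k/k))
          (τ : Gal(AlgebraicClosure (v.adicCompletion k)/(v.adicCompletion k))),
          (∀ a, ι (σ a) = τ (ι a)) → Point.map ι (c σ) =
            Point.map (τ : AlgebraicClosure (v.adicCompletion k) →ₐ[v.adicCompletion k]
              AlgebraicClosure (v.adicCompletion k)) b - b) →
    ∃ e : (W⁄(AlgebraicClosure k)).Point, ∀ σ : Gal(AlgebraicClosure k/k),
      m • c σ = Point.map (σ : AlgebraicClosure k →ₐ[k] AlgebraicClosure k) e - e

/-- The rational point `R` of `W^I` lies on the closure of the image of `η ∈ W(K)^I`: all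
multihomogeneous equations over `k` satisfied by the coordinates of the `η i` hold for `R`. -/
def OnClosure {k K I : Type*} [Field k] [Field K] [Algebra k K] {W : WeierstrassCurve k}
    (η : I → (W⁄K).Point) (R : I → (W⁄k).Point) : Prop :=
  ∀ (G : MvPolynomial (I × Fin 3) k) (d : I → ℕ), E.MultiHom G d →
    MvPolynomial.aeval (E.crds η) G = 0 → MvPolynomial.aeval (E.crds R) G = 0

end Pool.Agent.Lib.MP_2f3286_ag.Sel
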