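import Pool.Agent.Lib.MP_2f3286_ag.Top.Bir
import Pool.Agent.Lib.MP_2f3286_ag.Top.Defs

/-!
# Sections of curves with two independent maps to an elliptic curve of rank one: assembly
-/

open WeierstrassCurve WeierstrassCurve.Affine WeierstrassCurve.Affine.Point
open IsDedekindDomain NumberField

namespace Pool.Agent.Lib.MP_2f3286_ag.Top

section

variable {k : Type*} [Field k] [NumberField k] {K M : Type*} [Field K] [Field M] [Algebra K M]
  [Algebra (AlgebraicClosure k) M] {s : Gal(AlgebraicClosure k/k) →* Gal(M/K)}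
  [Algebra k K] [Algebra k M] [IsScalarTower k K M] [IsScalarTower k (AlgebraicClosure k) M]

open scoped Classical in
/-- the classes of a Selmer section along a point are those of rational points -/
theorem exists_classes_S (W : WeierstrassCurve k) [W.IsElliptic] [Algebra.IsAlgebraic K M]
    (hs : Continuous s)
    (hsec : ∀ σ a, s σ (algebraMap (AlgebraicClosure k) M a) =
      algebraMap (AlgebraicClosure k) M (σ a))
    (S : Finset (HeightOneSpectrum (𝓞 k)))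
    (x : ∀ v : HeightOneSpectrum (𝓞 k), v ∉ S → LocalPoint s v)
    (P : (W⁄k).Point) (hP : ∀ n : ℕ, n ≠ 0 → n • P ≠ 0)
    (hrk : ∀ Q : (W⁄k).Point, ∃ a : ℤ, IsOfFinAddOrder (Q - a • P))
    {m : ℕ} (hm : 1 ≤ m) (hsha : Sel.ShaKilledBy W S m) (η : (W⁄K).Point) {n : ℕ} (hn : 1 ≤ n)
    (hdiv : ∃ T : (W⁄M).Point, (n * m) • T = baseChange K M η) :
    ∃ a : ℤ, ∃ t ∈ {t : (W⁄k).Point | IsOfFinAddOrder t}, SameClass s n η (a • P + t) := by
  obtain ⟨T, hT⟩ := hdiv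
  have hPb : ∀ n : ℕ, n ≠ 0 → n • baseChange k (AlgebraicClosure k) P ≠ 0 := by
    intro n hn h
    rw [← map_nsmul] at h
    exact hP n hn ((bc_injective k (AlgebraicClosure k)) (by rw [h, _root_.map_zero]))
  obtain ⟨c, hc1, hc2, hc3⟩ := exists_cocycle s hs hsec _ hPb (Nat.mul_pos hn hm).ne' η T hT
  obtain ⟨e, he⟩ := hsha c hc3 hc2 (by
    intro v hv
    refine ⟨(x v hv).ι, (x v hv).isPlaceOf.val s T, fun σ τ h => ?_⟩
    rw [← (x v hv).isPlaceOf.val_const s, hc1, map_sub, (x v hv).isPlaceOf.val_act s σ τ h])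
  obtain ⟨R, hR⟩ := kummer_class s hsec η T hT c hc1 e he
  obtain ⟨a, ha⟩ := hrk R
  exact ⟨a, R - a • P, ha, by rw [add_sub_cancel]; exact hR⟩

/-- local points from places -/
def LocalPoint.ofPlace {v : HeightOneSpectrum (𝓞 k)}
    (ι : AlgebraicClosure k →ₐ[k] AlgebraicClosure (v.adicCompletion k))
    (A : ValuationSubring M) (φ : A →+* AlgebraicClosure (v.adicCompletion k))
    (h : Sel.IsPlaceOf s (v.adicCompletion k)
      (ι : _ →+* AlgebraicClosure (v.adicCompletion k)) A φ) : LocalPoint s v where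
  ι := ι
  O := A
  φ := φ
  isLocal := ⟨fun a ha => by
    have h1 := h.2.1 a ha.ne_zero
    have h2 : a ≠ 0 := by
      rintro rfl
      rw [_root_.map_zero] at ha
      exact ha.ne_zero rfl
    refine IsUnit.of_mul_eq_one ⟨_, h1⟩ (Subtype.ext ?_)
    exact mul_inv_cancel₀ (fun h3 => h2 (Subtype.ext h3))⟩
  const := h.1
  equiv := fun σ τ hστ m hm => h.2.2 σ τ hστ ⟨m, hm⟩

theorem hasValue_ofPlace {v : HeightOneSpectrum (𝓞 k)}
    {ι : AlgebraicClosure k →ₐ[k] AlgebraicClosure (v.adicCompletion k)}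
    {A : ValuationSubring M} {φ : A →+* AlgebraicClosure (v.adicCompletion k)}
    (h : Sel.IsPlaceOf s (v.adicCompletion k)
      (ι : _ →+* AlgebraicClosure (v.adicCompletion k)) A φ) {W : WeierstrassCurve k}
    {η : (W⁄K).Point} {y : (W⁄(v.adicCompletion k)).Point}
    (hη : HasValue (LocalPoint.ofPlace ι A φ h) η y) : Sel.HasValue A φ η y := by
  rcases η with _ | ⟨a, b, hab⟩
  · exact hη
  · exact hη

end

open scoped Classical in
universe u in
theorem assembly {k : Type u} [Field k] [NumberField k]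
    (W : WeierstrassCurve k) [W.IsShortNF] [W.IsElliptic]
    {K M : Type*} [Field K] [Field M] [Algebra k K] [Algebra K M] [Algebra.IsAlgebraic K M]
    [Algebra (AlgebraicClosure k) M] [Algebra k M] [IsScalarTower k K M]
    [IsScalarTower k (AlgebraicClosure k) M] (htr : Algebra.trdeg k K = 1)
    (η₁ η₂ : (W⁄K).Point)
    (hind : ∀ a b : ℤ, (∃ Q : (W⁄k).Point, a • η₁ + b • η₂ = baseChange k K Q) → a = 0 ∧ b = 0)
    (s : Gal(AlgebraicClosure k/k) →* Gal(M/K)) (hs : Continuous s)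
    (hsec : ∀ σ a, s σ (algebraMap (AlgebraicClosure k) M a) =
      algebraMap (AlgebraicClosure k) M (σ a))
    (S : Finset (HeightOneSpectrum (𝓞 k)))
    (ι : ∀ v : {v : HeightOneSpectrum (𝓞 k) // v ∉ S},
      AlgebraicClosure k →ₐ[k] AlgebraicClosure (v.1.adicCompletion k))
    (A : {v : HeightOneSpectrum (𝓞 k) // v ∉ S} → ValuationSubring M)
    (φ : ∀ v : {v : HeightOneSpectrum (𝓞 k) // v ∉ S},
      A v →+* AlgebraicClosure (v.1.adicCompletion k))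
    (hφ : ∀ v, Sel.IsPlaceOf s (v.1.adicCompletion k)
      (ι v : _ →+* AlgebraicClosure (v.1.adicCompletion k)) (A v) (φ v))
    (P : (W⁄k).Point) (hP : ∀ n : ℕ, n ≠ 0 → n • P ≠ 0)
    (hrk : ∀ Q : (W⁄k).Point, ∃ a : ℤ, IsOfFinAddOrder (Q - a • P))
    (m : ℕ) (hm : 1 ≤ m) (hsha : Sel.ShaKilledBy W S m)
    (hdiv : ∀ (η : (W⁄K).Point) (n : ℕ), 1 ≤ n → ∃ T : (W⁄M).Point, n • T = baseChange K M η) :
    ∃ Ψ : (W⁄K).Point →+ (W⁄k).Point,
      (∀ v η, Sel.HasValue (A v) (φ v) η (baseChange k (v.1.adicCompletion k) (Ψ η))) ∧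
      (∀ η (n : ℕ), 1 ≤ n → Sel.SameClass s n η (Ψ η)) ∧
      (∀ η R, (∀ n : ℕ, 1 ≤ n → Sel.SameClass s n η R) → R = Ψ η) ∧
      (∀ (I : Type) [Fintype I] (ξ : I → (W⁄K).Point), Sel.OnClosure ξ (fun i => Ψ (ξ i))) ∧
      (IsAlgClosed M → ∃ (A₀ : ValuationSubring M) (ψ₀ : A₀ →+* AlgebraicClosure k),
        Sel.IsPlaceOf s k (RingHom.id _) A₀ ψ₀ ∧
        (∀ v, A v = A₀ ∧ ∀ (a : A v) (b : A₀), (a : M) = b → φ v a = ι v (ψ₀ b)) ∧
        (∀ (f : K) (h : algebraMap K M f ∈ A₀),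
          ∃ a : k, ψ₀ ⟨algebraMap K M f, h⟩ = algebraMap k (AlgebraicClosure k) a) ∧
        ∀ (A₁ : ValuationSubring M) (ψ₁ : A₁ →+* AlgebraicClosure k),
          Sel.IsPlaceOf s k (RingHom.id _) A₁ ψ₁ →
          A₁ = A₀ ∧ ∀ (a : A₁) (b : A₀), (a : M) = b → ψ₁ a = ψ₀ b) := by
  have hcl : ∀ (η : (W⁄K).Point) (n : ℕ), 1 ≤ n →
      ∃ a : ℤ, ∃ t ∈ {t : (W⁄k).Point | IsOfFinAddOrder t}, SameClass s n η (a • P + t) := by
    intro η n hn
    exact exists_classes_S W hs hsec S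
      (fun v hv => LocalPoint.ofPlace (ι ⟨v, hv⟩) (A ⟨v, hv⟩) (φ ⟨v, hv⟩) (hφ ⟨v, hv⟩)) P hP hrk hm
      hsha η hn (hdiv η (n * m) (Nat.mul_pos hn hm))
  obtain ⟨Ψ, h1, h2, h3, h4⟩ := curve_final W htr η₁ η₂ hind hs hsec S
    (fun v hv => LocalPoint.ofPlace (ι ⟨v, hv⟩) (A ⟨v, hv⟩) (φ ⟨v, hv⟩) (hφ ⟨v, hv⟩)) P hP
    (Or.inr ⟨_, torsion_finite (W := (W⁄k)), hcl⟩)
  have hval : ∀ v η, Sel.HasValue (A v) (φ v) η (baseChange k (v.1.adicCompletion k) (Ψ η)) :=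
    fun v η => hasValue_ofPlace (hφ v) (h1 v.1 v.2 η)
  refine ⟨Ψ, hval, h2, h3, fun I _ ξ => h4 I ξ, ?_⟩
  intro hM
  -- a point with non-zero value
  have hk : ∀ c : K, IsAlgebraic k c → ∃ c₀ : k, algebraMap k K c₀ = c :=
    fun c hc => const_of_algebraic s hsec hc
  have hη₁ : ¬ ∃ Q : (W⁄k).Point, η₁ = baseChange k K Q := by
    rintro ⟨Q, hQ⟩
    have := (hind 1 0 ⟨Q, by rw [one_smul, zero_smul, add_zero]; exact hQ⟩).1
    exact one_ne_zero this
  have hconst : Ψ (baseChange k K P) = P :=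
    (h3 _ P fun n _ => isClass_const s n P).symm
  obtain ⟨η, hη, hηΨ⟩ : ∃ η : (W⁄K).Point, (¬ ∃ Q : (W⁄k).Point, η = baseChange k K Q) ∧
      Ψ η ≠ 0 := by
    by_cases h0 : Ψ η₁ = 0
    · refine ⟨η₁ + baseChange k K P, ?_, ?_⟩
      · rintro ⟨Q, hQ⟩
        exact hη₁ ⟨Q - P, by rw [map_sub, ← hQ, add_sub_cancel_right]⟩
      · rw [map_add, h0, zero_add, hconst]
        have := hP 1 one_ne_zero
        rwa [one_smul] at this
    · exact ⟨η₁, hη₁, h0⟩
  obtain ⟨f, g, hfg, hηe, -, hf⟩ := const_point hk η hη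
  rcases hΨ : Ψ η with _ | ⟨a, b, hab⟩
  · exact absurd hΨ hηΨ
  exact place_of_value htr S s hs hsec ι A φ hφ f (fun c hc => hf c hc.symm) a (by
    intro v
    have h5 := hval v η
    rw [hΨ, hηe] at h5
    rcases h5 with ⟨-, h6⟩ | ⟨a', b', h', h6, ⟨h7, h8⟩, -⟩
    · exact absurd h6 (some_ne_zero _)
    · refine ⟨h7, ?_⟩
      rw [h8, AlgHom.commutes, ← (some_inj' h6).1]
      exact (IsScalarTower.algebraMap_apply k (v.1.adicCompletion k) _ a).symm)

end Pool.Agent.Lib.MP_2f3286_ag.Top
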