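import Pool.Agent.Lib.MP_2f3286_ag.Top.Kum

/-!
# Algebraic relations between two functions with bounded degree
-/

open Polynomial

namespace Pool.Agent.Lib.MP_2f3286_ag.Top

/-- evaluation of `F ∈ k[X][Y]` at `X = f`, `Y = g` -/
noncomputable def ev2 {k K : Type*} [Field k] [Field K] [Algebra k K] (f g : K)
    (F : Polynomial (Polynomial k)) : K :=
  F.eval₂ (aeval f : k[X] →ₐ[k] K).toRingHom g

variable {k K : Type*} [Field k] [Field K] [Algebra k K]

theorem ev2_C_sub (f g : K) (y : k) : ev2 f g (X - C (C y)) = g - algebraMap k K y := by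
  simp [ev2]

theorem ev2_mul (f g : K) (F G : Polynomial (Polynomial k)) :
    ev2 f g (F * G) = ev2 f g F * ev2 f g G := by
  simp [ev2, eval₂_mul]

/-- minimal relations have no vertical component -/
theorem exists_good {f g : K} (hg : ∀ y : k, algebraMap k K y ≠ g) {d : ℕ}
    (h : ∃ F : Polynomial (Polynomial k), F ≠ 0 ∧ F.natDegree ≤ d ∧ ev2 f g F = 0) :
    ∃ F : Polynomial (Polynomial k), F.natDegree ≤ d ∧ (∀ y : k, F.eval (C y) ≠ 0) ∧
      ev2 f g F = 0 := by
  classical
  have hex : ∃ n : ℕ, ∃ F : Polynomial (Polynomial k), F ≠ 0 ∧ F.natDegree = n ∧ ev2 f g F = 0 := by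
    obtain ⟨F, h1, h2, h3⟩ := h
    exact ⟨_, F, h1, rfl, h3⟩
  obtain ⟨F, h1, h2, h3⟩ := Nat.find_spec hex
  refine ⟨F, ?_, ?_, h3⟩
  · obtain ⟨F', h1', h2', h3'⟩ := h
    rw [h2]
    exact (Nat.find_min' hex ⟨F', h1', rfl, h3'⟩).trans h2'
  · intro y hy
    have hdvd : X - C (C y) ∣ F := dvd_iff_isRoot.mpr hy
    obtain ⟨F', hF'⟩ := hdvd
    have hF'0 : F' ≠ 0 := by
      rintro rfl
      rw [mul_zero] at hF'
      exact h1 hF'
    have hev : ev2 f g F' = 0 := by
      have h4 := h3
      rw [hF', ev2_mul, ev2_C_sub, mul_eq_zero] at h4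
      exact h4.resolve_left (sub_ne_zero.mpr (hg y).symm)
    have hdeg : F.natDegree = F'.natDegree + 1 := by
      rw [hF', (monic_X_sub_C (C y)).natDegree_mul' hF'0, natDegree_X_sub_C, add_comm]
    have := Nat.find_min' hex ⟨F', hF'0, rfl, hev⟩
    omega

open IntermediateField in
theorem exists_rel {f : K} (K₀ : IntermediateField k⟮f⟯ K) [FiniteDimensional k⟮f⟯ K₀] {g : K}
    (hg : g ∈ K₀) : ∃ F : Polynomial (Polynomial k), F ≠ 0 ∧
      F.natDegree ≤ Module.finrank k⟮f⟯ K₀ ∧ ev2 f g F = 0 := by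
  classical
  let g' : K₀ := ⟨g, hg⟩
  have hint : IsIntegral k⟮f⟯ g' := Algebra.IsIntegral.isIntegral g'
  let p := minpoly k⟮f⟯ g'
  have hpn : p.natDegree ≤ Module.finrank k⟮f⟯ K₀ := minpoly.natDegree_le g'
  have hp0 : p ≠ 0 := minpoly.ne_zero hint
  have hpg : ∑ j ∈ Finset.range (p.natDegree + 1), (p.coeff j : K) * g ^ j = 0 := by
    have h1 : aeval g' p = 0 := minpoly.aeval _ _
    have h2 := congrArg (algebraMap K₀ K) h1
    rw [← aeval_algebraMap_apply, map_zero, aeval_eq_sum_range] at h2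
    rw [← h2]
    refine Finset.sum_congr rfl fun j _ => ?_
    rw [Algebra.smul_def]
    rfl
  have hcoef : ∀ j, ∃ r s : k[X], aeval f s ≠ 0 ∧ (p.coeff j : K) * aeval f s = aeval f r := by
    intro j
    obtain ⟨r, s, hrs⟩ := (IntermediateField.mem_adjoin_simple_iff k (α := f) (p.coeff j : K)).mp
      (p.coeff j).2
    by_cases hs : aeval f s = 0
    · refine ⟨0, 1, by simp, ?_⟩
      rw [hrs, hs, div_zero, zero_mul, map_zero]
    · exact ⟨r, s, hs, by rw [hrs, div_mul_cancel₀ _ hs]⟩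
  choose r s hs hrs using hcoef
  let T := Finset.range (p.natDegree + 1)
  let F : Polynomial (Polynomial k) := ∑ j ∈ T, C (r j * ∏ i ∈ T.erase j, s i) * X ^ j
  have hFc : ∀ j ∈ T, F.coeff j = r j * ∏ i ∈ T.erase j, s i := by
    intro j hj
    simp only [F, finsetSum_coeff, coeff_C_mul_X_pow]
    rw [Finset.sum_eq_single j]
    · simp
    · intro b _ hb
      rw [if_neg (Ne.symm hb)]
    · intro h; exact absurd hj h
  refine ⟨F, ?_, ?_, ?_⟩
  · intro hF
    have hT : p.natDegree ∈ T := Finset.self_mem_range_succ _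
    have h1 := hFc _ hT
    rw [hF, coeff_zero] at h1
    have h2 := congrArg (aeval f) h1
    rw [map_zero, map_mul, map_prod, ← hrs] at h2
    have h3 : (p.coeff p.natDegree : K) ≠ 0 := by
      have : p.coeff p.natDegree ≠ 0 := by
        rw [coeff_natDegree]; exact leadingCoeff_ne_zero.mpr hp0
      exact_mod_cast this
    exact mul_ne_zero (mul_ne_zero h3 (hs _)) (Finset.prod_ne_zero_iff.mpr fun i _ => hs i) h2.symm
  · refine le_trans ?_ hpn
    refine natDegree_sum_le_of_forall_le _ _ fun j hj => ?_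
    refine (natDegree_C_mul_X_pow_le _ _).trans ?_
    exact Nat.lt_succ_iff.mp (Finset.mem_range.mp hj)
  · have h1 : ev2 f g F = ∑ j ∈ T, aeval f (r j * ∏ i ∈ T.erase j, s i) * g ^ j := by
      simp only [ev2, F, eval₂_finsetSum, eval₂_mul, eval₂_C, eval₂_X_pow]
      rfl
    rw [h1]
    have h2 : ∀ j ∈ T, aeval f (r j * ∏ i ∈ T.erase j, s i) * g ^ j =
        (∏ i ∈ T, aeval f (s i)) * ((p.coeff j : K) * g ^ j) := by
      intro j hj
      rw [map_mul, map_prod, ← hrs, ← Finset.mul_prod_erase T (fun i => aeval f (s i)) hj]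
      ring
    rw [Finset.sum_congr rfl h2, ← Finset.mul_sum, hpg, mul_zero]

open IntermediateField in
theorem isAlgebraic_of_trdeg (htr : Algebra.trdeg k K = 1) {f : K} (hf : Transcendental k f)
    (x : K) : IsAlgebraic k⟮f⟯ x := by
  have hind : AlgebraicIndependent k ![(f : K)] := algebraicIndependent_iff_transcendental.mpr hf
  have hbasis : IsTranscendenceBasis k ![(f : K)] :=
    hind.isTranscendenceBasis_of_lift_trdeg_le_of_finite (by rw [htr]; simp)
  have hKalg := hbasis.isAlgebraic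
  have hrange : Set.range ![(f : K)] = {(f : K)} := by simp
  have hle : Algebra.adjoin k (Set.range ![(f : K)]) ≤ (k⟮f⟯).toSubalgebra := by
    rw [hrange]
    exact IntermediateField.algebra_adjoin_le_adjoin k _
  obtain ⟨q, hq0, hq⟩ := hKalg.isAlgebraic x
  let φ : Algebra.adjoin k (Set.range ![(f : K)]) →ₐ[k] k⟮f⟯ := Subalgebra.inclusion hle
  have hinj : Function.Injective φ := Subalgebra.inclusion_injective hle
  refine ⟨q.map φ.toRingHom, ?_, ?_⟩
  · rwa [Ne, Polynomial.map_eq_zero_iff hinj]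
  · rw [aeval_def, eval₂_map]
    exact hq

open IntermediateField in
theorem exists_field (htr : Algebra.trdeg k K = 1) {f : K} (hf : Transcendental k f)
    (s : Finset K) : ∃ K₀ : IntermediateField k⟮f⟯ K, FiniteDimensional k⟮f⟯ K₀ ∧
      ∀ x ∈ s, x ∈ K₀ :=
  ⟨IntermediateField.adjoin k⟮f⟯ (s : Set K),
    IntermediateField.finiteDimensional_adjoin fun x _ =>
      (isAlgebraic_of_trdeg htr hf x).isIntegral,
    fun x hx => IntermediateField.subset_adjoin _ _ hx⟩

open WeierstrassCurve WeierstrassCurve.Affine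

section points

variable {W : Affine k} [DecidableEq K]

open IntermediateField in
/-- uniform degree of relations for combinations of three points -/
theorem exists_degree (htr : Algebra.trdeg k K = 1) {f : K} (hf : Transcendental k f)
    (η : Fin 3 → (W⁄K).Point) : ∃ d : ℕ, ∀ (a b c : ℤ) (x y : K) (h : (W⁄K).Nonsingular x y),
      a • η 0 + b • η 1 + c • η 2 = Point.some x y h → (∀ y₀ : k, algebraMap k K y₀ ≠ x) →
      ∃ F : Polynomial (Polynomial k), F.natDegree ≤ d ∧ (∀ y : k, F.eval (C y) ≠ 0) ∧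
        ev2 f x F = 0 := by
  classical
  let cx : (W⁄K).Point → Finset K := fun P => match P with
    | .zero => ∅
    | .some x y _ => {x, y}
  obtain ⟨K₀, hfin, hK₀⟩ := exists_field htr hf ((Finset.univ : Finset (Fin 3)).biUnion fun i => cx (η i))
  refine ⟨Module.finrank k⟮f⟯ K₀, ?_⟩
  intro a b c x y h hxy hx
  apply exists_good hx
  apply exists_rel K₀
  have htower : IsScalarTower k K₀ K := IsScalarTower.of_algebraMap_eq fun _ => rfl
  -- the points are defined over `K₀`
  have hdef : ∀ i, ∃ Q : (W⁄K₀).Point, Point.baseChange K₀ K Q = η i := by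
    intro i
    rcases hi : η i with _ | ⟨x', y', h'⟩
    · exact ⟨0, rfl⟩
    · have hx' : x' ∈ K₀ := hK₀ _ (Finset.mem_biUnion.mpr ⟨i, Finset.mem_univ _, by
        rw [hi]; simp [cx]⟩)
      have hy' : y' ∈ K₀ := hK₀ _ (Finset.mem_biUnion.mpr ⟨i, Finset.mem_univ _, by
        rw [hi]; simp [cx]⟩)
      have hns : (W⁄K₀).Nonsingular (⟨x', hx'⟩ : K₀) (⟨y', hy'⟩ : K₀) :=
        (W.baseChange_nonsingular (Algebra.ofId K₀ K).injective _ _).mp h'
      exact ⟨Point.some _ _ hns, rfl⟩
  choose Q hQ using hdef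
  have hsum : Point.baseChange K₀ K (a • Q 0 + b • Q 1 + c • Q 2) = Point.some x y h := by
    rw [map_add, map_add, map_zsmul, map_zsmul, map_zsmul, hQ, hQ, hQ, hxy]
  rcases hR : a • Q 0 + b • Q 1 + c • Q 2 with _ | ⟨x', y', h'⟩
  · rw [hR] at hsum
    exact absurd hsum.symm (Point.some_ne_zero _)
  · rw [hR] at hsum
    have h1 : Point.some (algebraMap K₀ K x') (algebraMap K₀ K y')
      ((W.baseChange_nonsingular (Algebra.ofId K₀ K).injective _ _).mpr h') =
        Point.some x y h := hsum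
    have h2 := (Point.some.inj h1).1
    rw [← h2]
    exact x'.2

end points

end Pool.Agent.Lib.MP_2f3286_ag.Top
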