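import Pool.Agent.Lib.MP_2f3286_ag.Top.Two

/-!
# All maps to the elliptic curve
-/

open WeierstrassCurve WeierstrassCurve.Affine WeierstrassCurve.Affine.Point
open IsDedekindDomain NumberField

namespace Pool.Agent.Lib.MP_2f3286_ag.Top

open Pool.Agent.Lib.MP_2f3286_ag.E

/-- finitely many points with x-coordinate a root of `h` -/
theorem finite_root_points {F : Type*} [Field F] (W : Affine F) {h : Polynomial F} (h0 : h ≠ 0) :
    {R : W.Point | R = 0 ∨ Polynomial.aeval (xc R) h = 0}.Finite := by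
  classical
  let q : F → Polynomial F := fun x => Polynomial.X ^ 2 +
    Polynomial.C (W.a₁ * x + W.a₃) * Polynomial.X -
      Polynomial.C (x ^ 3 + W.a₂ * x ^ 2 + W.a₄ * x + W.a₆)
  have hq0 : ∀ x, q x ≠ 0 := by
    intro x
    have : (q x).Monic := by
      show (Polynomial.X ^ 2 + _ - _ : Polynomial F).Monic
      monicity!
    exact this.ne_zero
  let B : Finset (F × F) := (h.roots.toFinset.biUnion fun x => (q x).roots.toFinset.image
    fun y => (x, y))
  let g : W.Point → F × F := fun R => match R with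
    | .zero => (0, 0)
    | .some x y _ => (x, y)
  have hfin : {R : W.Point | R ≠ 0 ∧ Polynomial.aeval (xc R) h = 0}.Finite := by
    refine Set.Finite.of_finite_image (f := g) (B.finite_toSet.subset ?_) ?_
    · rintro _ ⟨R, ⟨hR, hx⟩, rfl⟩
      rcases R with _ | ⟨x, y, hxy⟩
      · exact absurd rfl hR
      · have h1 := (W.equation_iff x y).mp hxy.1
        show (x, y) ∈ (B : Set (F × F))
        rw [Finset.mem_coe, Finset.mem_biUnion]
        refine ⟨x, ?_, Finset.mem_image.mpr ⟨y, ?_, rfl⟩⟩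
        · rw [Multiset.mem_toFinset, Polynomial.mem_roots h0]
          have h2 : Polynomial.aeval x h = 0 := hx
          rwa [Polynomial.coe_aeval_eq_eval] at h2
        · rw [Multiset.mem_toFinset, Polynomial.mem_roots (hq0 x)]
          simp only [q, Polynomial.IsRoot, Polynomial.eval_sub, Polynomial.eval_add,
            Polynomial.eval_mul, Polynomial.eval_pow, Polynomial.eval_X, Polynomial.eval_C]
          linear_combination h1
    · rintro R ⟨hR, -⟩ R' ⟨hR', -⟩ heq
      rcases R with _ | ⟨x, y, hxy⟩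
      · exact absurd rfl hR
      · rcases R' with _ | ⟨x', y', hxy'⟩
        · exact absurd rfl hR'
        · have h1 : (x, y) = (x', y') := heq
          have h2 := Prod.mk.inj h1
          exact some_ext _ _ h2.1 h2.2
  refine (hfin.union (Set.finite_singleton 0)).subset ?_
  rintro R (hR | hR)
  · right; exact hR
  · by_cases h : R = 0
    · right; exact h
    · left; exact ⟨h, hR⟩

theorem zsmul_inj {A : Type*} [AddCommGroup A] {P : A} (hP : ∀ n : ℕ, n ≠ 0 → n • P ≠ 0) {a b : ℤ}
    (h : a • P = b • P) : a = b := by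
  by_contra hne
  have h2 : (a - b) • P = 0 := by rw [sub_smul, h, sub_self]
  have h3 : a - b ≠ 0 := sub_ne_zero.mpr hne
  apply hP (a - b).natAbs (Int.natAbs_ne_zero.mpr h3)
  rcases Int.natAbs_eq (a - b) with h4 | h4
  · rw [h4, natCast_zsmul] at h2; exact h2
  · rw [h4, neg_smul, natCast_zsmul, neg_eq_zero] at h2; exact h2

section curve

variable {k : Type*} [Field k] [NumberField k] [DecidableEq k]
  {kb : Type*} [Field kb] [Algebra k kb] [IsGalois k kb] [IsAlgClosed kb]
  {K M : Type*} [Field K] [Field M] [Algebra k K] [Algebra K M] [Algebra k M] [IsScalarTower k K M]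
  [Algebra kb M] [IsScalarTower k kb M]
  [DecidableEq kb] [DecidableEq K] [DecidableEq M]

/-- a further map -/
theorem third_map (W : Affine k) [W.IsShortNF] [W.IsElliptic]
    [∀ v : HeightOneSpectrum (𝓞 k), DecidableEq (v.adicCompletion k)]
    (htr : Algebra.trdeg k K = 1)
    (η₀ : (W⁄K).Point) (hη₀ : ¬ ∃ Q : (W⁄k).Point, η₀ = baseChange k K Q)
    (s : Gal(kb/k) →* Gal(M/K))
    (hsec : ∀ σ a, s σ (algebraMap kb M a) = algebraMap kb M (σ a))
    (S : Finset (HeightOneSpectrum (𝓞 k)))
    (Fb : HeightOneSpectrum (𝓞 k) → Type*) [∀ v, Field (Fb v)] [∀ v, Algebra k (Fb v)]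
    [∀ v, Algebra (v.adicCompletion k) (Fb v)] [∀ v, IsScalarTower k (v.adicCompletion k) (Fb v)]
    [∀ v, IsGalois (v.adicCompletion k) (Fb v)] [∀ v, DecidableEq (Fb v)]
    (ι : ∀ v, v ∉ S → (kb →ₐ[k] Fb v)) (O : ∀ v, v ∉ S → ValuationSubring M)
    (φ : ∀ v (hv : v ∉ S), O v hv →+* Fb v)
    (hpl : ∀ v (hv : v ∉ S), IsPlaceOf (F := v.adicCompletion k) s (ι v hv) (O v hv) (φ v hv))
    (R₀ : (W⁄k).Point)
    (hR₀ : ∀ v (hv : v ∉ S), (hpl v hv).valK s η₀ = baseChange k (v.adicCompletion k) R₀)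
    (P : (W⁄k).Point) (hP : ∀ n : ℕ, n ≠ 0 → n • P ≠ 0)
    (η : (W⁄K).Point) (hη : ¬ ∃ Q : (W⁄k).Point, η = baseChange k K Q) (t : (W⁄k).Point)
    (α : ℕ → ℤ) (hα : ∀ (n m : ℕ), 1 ≤ m → n ∣ m → (n : ℤ) ∣ α m - α n)
    (hcl : ∀ n, 1 ≤ n → IsClass s W n η (α n • P + t)) :
    ∃ m : ℤ, (∀ (n : ℕ), 1 ≤ n → (n : ℤ) ∣ m - α n) ∧
      ∀ v (hv : v ∉ S), (hpl v hv).valK s η = baseChange k (v.adicCompletion k)
        (m • P + t) := by
  classical
  have hk : ∀ c : K, IsAlgebraic k c → ∃ c₀ : k, algebraMap k K c₀ = c :=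
    fun c hc => const_of_algebraic s hsec hc
  obtain ⟨x, y, hxy, hηe, htrans, -⟩ := const_point hk η hη
  -- a shift with non-zero value
  obtain ⟨c, hc⟩ : ∃ c : ℤ, R₀ + c • P ≠ 0 := by
    by_cases h : R₀ = 0
    · refine ⟨1, ?_⟩
      rw [h, zero_add, one_smul]
      have := hP 1 one_ne_zero
      rwa [one_smul] at this
    · exact ⟨0, by rw [zero_smul, add_zero]; exact h⟩
  have hη₁ : ¬ ∃ Q : (W⁄k).Point, η₀ + c • baseChange k K P = baseChange k K Q := by
    rintro ⟨Q, hQ⟩
    apply hη₀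
    refine ⟨Q - c • P, ?_⟩
    rw [map_sub, map_zsmul, ← hQ, add_sub_cancel_right]
  obtain ⟨x', y', hxy', hη₁e, -, hconst⟩ := const_point hk _ hη₁
  obtain ⟨d, hd⟩ := exists_degree htr htrans ![η₀, baseChange k K P, 0]
  obtain ⟨F, -, hF2, hF3⟩ := hd 1 c 0 x' y' hxy' (by
    rw [← hη₁e]
    simp) hconst
  obtain ⟨e', he'⟩ := exists_inner_bound F
  set h : Polynomial k := F.eval (Polynomial.C (xc (R₀ + c • P))) with hh
  have hh0 : h ≠ 0 := hF2 _
  let ξ : Fin 2 → (W⁄K).Point := ![η, η₀ + c • baseChange k K P]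
  have hrel : MvPolynomial.aeval (crds ξ) (biHom F e' F.natDegree (0 : Fin 2) 1) = 0 := by
    rw [aeval_crds_biHom _ _ le_rfl he']
    · show ev2 (xc η) (xc (η₀ + c • baseChange k K P)) F = 0
      rw [hηe, hη₁e]
      exact hF3
    · show η ≠ 0
      rw [hηe]
      exact some_ne_zero _
    · show η₀ + c • baseChange k K P ≠ 0
      rw [hη₁e]
      exact some_ne_zero _
  have hval : ∀ v (hv : v ∉ S), (hpl v hv).valK s η = 0 ∨
      Polynomial.aeval (xc ((hpl v hv).valK s η)) h = 0 := by
    intro v hv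
    by_cases h0 : (hpl v hv).valK s η = 0
    · left; exact h0
    right
    have h1 := (hpl v hv).valK_rel s ξ (multiHom_biHom F e' F.natDegree (by decide)) hrel
    have h2 : (hpl v hv).valK s (η₀ + c • baseChange k K P) =
        baseChange k (v.adicCompletion k) (R₀ + c • P) := by
      rw [map_add, map_zsmul, hR₀, (hpl v hv).valK_const, map_add, map_zsmul]
    have h3 : baseChange k (v.adicCompletion k) (R₀ + c • P) ≠ 0 := by
      intro h4
      apply hc
      apply bc_injective k (v.adicCompletion k)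
      rw [h4, _root_.map_zero]
    rw [aeval_crds_biHom (fun j => (hpl v hv).valK s (ξ j)) F le_rfl he' (i₁ := 0) (i₂ := 1)
      h0 (by
        show (hpl v hv).valK s (η₀ + c • baseChange k K P) ≠ 0
        rw [h2]; exact h3)] at h1
    have h5 : ev2 (xc ((hpl v hv).valK s η)) (xc ((hpl v hv).valK s
      (η₀ + c • baseChange k K P))) F = 0 := h1
    rw [h2] at h5
    have h6 : xc (baseChange k (v.adicCompletion k) (R₀ + c • P)) =
        algebraMap k (v.adicCompletion k) (xc (R₀ + c • P)) := by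
      rcases R₀ + c • P with _ | ⟨x, y, hxy⟩
      · exact (_root_.map_zero (algebraMap k (v.adicCompletion k))).symm
      · rfl
    rw [h6, ev2_algebraMap] at h5
    exact h5
  obtain ⟨-, c2⟩ := core_lin (I := Unit) (J := Unit) (fun _ _ => 1) S P hP (fun _ => t)
    (fun _ => α) (fun _ => hα)
    (fun v _ => if hv : v ∉ S then (hpl v hv).valK s η else 0)
    (by
      intro v hv i n hn
      rw [dif_pos hv]
      obtain ⟨z, hz⟩ := (hpl v hv).valK_class s (hcl n hn)
      refine ⟨z, ?_⟩
      simp only [Finset.univ_unique, Finset.sum_const, Finset.card_singleton, one_smul, one_mul]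
      exact hz)
    {hom1 h ()} (by
      intro G hG
      rw [Set.mem_singleton_iff] at hG
      rw [hG]
      exact ⟨_, multiHom_hom1 h ()⟩) S
    (by
      intro v hv G hG
      rw [Set.mem_singleton_iff] at hG
      simp only [hv, not_false_eq_true, dite_true]
      rw [hG, aeval_hom1]
      exact hval v hv)
  obtain ⟨m, -, hm2, hm3⟩ := c2 (by
    have hinj : Function.Injective (fun (m : Unit → ℤ) => m () • P + t) := by
      intro m m' h
      funext i
      exact zsmul_inj hP (add_right_cancel h)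
    refine ((finite_root_points (W⁄k) hh0).preimage hinj.injOn).subset ?_
    intro m hm
    have h1 := hm _ (Set.mem_singleton _)
    rw [aeval_hom1] at h1
    simpa using h1)
  refine ⟨m (), fun n hn => hm2 () n hn, fun v hv => ?_⟩
  have h4 := hm3 v hv ()
  rw [dif_pos hv] at h4
  simpa using h4

end curve

end Pool.Agent.Lib.MP_2f3286_ag.Top
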