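import Pool.Agent.Lib.MP_2f3286_ag.Top.Main
import Pool.Agent.Lib.MP_2f3286_ag.E.Main

/-!
# The adelic core, from the library `E`
-/

open IsDedekindDomain NumberField WeierstrassCurve

namespace Pool.Agent.Lib.MP_2f3286_ag.Top

open scoped Classical in
theorem coreStatement {k : Type*} [Field k] [NumberField k] (W : WeierstrassCurve k)
    [W.IsShortNF] [W.IsElliptic] (I : Type*) [Fintype I] : CoreStatement W I := by
  intro S P hP t a ha y hy Rel hRel S' hrel
  exact E.core S P hP t a ha y hy Rel hRel S' hrel

end Pool.Agent.Lib.MP_2f3286_ag.Top
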