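import Mathlib
import Pool.Agent.Lib.MP_2f3286_ag.E.Main

/-!
# The adelic Mordell-Lang theorem in rank one, with integer linear forms in the exponents

This is a variant of `E.core_finite` (same proof).
-/

set_option autoImplicit false
set_option linter.all false

open WeierstrassCurve WeierstrassCurve.Affine
open IsDedekindDomain NumberField Height MvPolynomial

namespace Pool.Agent.Lib.MP_2f3286_ag.E

variable {k : Type*} [Field k] [NumberField k] [DecidableEq k] {W : Affine k} [W.IsShortNF]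
  {I : Type*} [Fintype I]

/-- Finitely many forms, places outside a finite set where the equation is integral. -/
theorem core_finite_lin [W.IsElliptic] {J : Type*} [Fintype J] (ℓ : I → J → ℤ)
    [∀ v : HeightOneSpectrum (𝓞 k), DecidableEq (v.adicCompletion k)]
    (S' : Finset (HeightOneSpectrum (𝓞 k)))
    (hS' : ∀ v ∉ S', fv v W.a₄ ≤ 1 ∧ fv v W.a₆ ≤ 1)
    (P : (W⁄k).Point) (hP : ∀ n : ℕ, n ≠ 0 → n • P ≠ 0) (t : I → (W⁄k).Point)
    (α : J → ℕ → ℤ) (hα : ∀ (i : J) (n m : ℕ), 1 ≤ m → n ∣ m → (n : ℤ) ∣ α i m - α i n)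
    (y : ∀ v : HeightOneSpectrum (𝓞 k), I → (W⁄(v.adicCompletion k)).Point)
    (hy : ∀ v ∉ S', ∀ i n, 1 ≤ n → ∃ z, y v i =
      Point.baseChange (W' := W) k (v.adicCompletion k) ((∑ j, ℓ i j * α j n) • P + t i) + n • z)
    (𝒢 : Finset (MvPolynomial (I × Fin 3) k)) (h𝒢 : ∀ G ∈ 𝒢, ∃ d, MultiHom G d)
    (hrel : ∀ v ∉ S', ∀ G ∈ 𝒢, aeval (crds (y v)) G = 0) (N₀ : ℕ) (hN₀ : 1 ≤ N₀) :
    ∃ m : J → ℤ, (∀ i, (N₀ : ℤ) ∣ m i - α i N₀) ∧
      ∀ G ∈ 𝒢, aeval (crds fun i => (∑ j, ℓ i j * m j) • P + t i) G = 0 := by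
  classical
  have hWΔ := Δ_ne_zero_of_isElliptic W
  have hkΔ : (W⁄k).Δ ≠ 0 := by rw [base_Δ]; exact hWΔ
  have : WeierstrassCurve.IsElliptic (W⁄k) := ⟨isUnit_iff_ne_zero.2 hkΔ⟩
  obtain ⟨a, ha, C₀, hC₀⟩ := ht_zsmul P hP
  obtain ⟨C₁, hC₁⟩ := parallelogram (W⁄k)
  choose! d hd using h𝒢
  have hineq : ∀ G ∈ 𝒢, ∃ C : ℝ, ∀ (Q : I → (W⁄k).Point) (R₀ : (W⁄k).Point),
      aeval (crds Q) G ≠ 0 →
      (∀ v ∉ S', 1 < mx (fv v) R₀ → ∃ R : I → (W⁄(v.adicCompletion k)).Point,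
        (∀ i, Near (nv v) (mx (fv v) R₀) (R i)) ∧
        aeval (crds fun i => Point.baseChange (W' := W) k (v.adicCompletion k) (Q i) + R i) G = 0) →
      1 / 2 * (ht R₀ - excSum S' R₀) ≤ C + 2 * ∑ i, (d G i : ℝ) * ht (Q i) :=
    fun G hG => core_ineq (hd G hG) S' hS'
  choose! C hC using hineq
  -- uniform constants
  set D : ℕ := ∑ G ∈ 𝒢, ∑ i, d G i with hD
  have hDG : ∀ G ∈ 𝒢, ∑ i, d G i ≤ D := fun G hG =>
    Finset.single_le_sum (f := fun G => ∑ i, d G i) (fun _ _ => Nat.zero_le _) hG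
  let X : MvPolynomial (I × Fin 3) k → ℝ := fun G =>
    C G + 2 * ∑ i, (d G i : ℝ) * (2 * C₀ + 2 * ht (t i) + C₁) + C₀ / 2
  obtain ⟨B, hB⟩ : ∃ B : ℝ, ∀ G ∈ 𝒢, X G ≤ B := by
    refine ⟨∑ G ∈ 𝒢, |X G|, fun G hG => ?_⟩
    exact (le_abs_self _).trans
      (Finset.single_le_sum (f := fun G => |X G|) (fun _ _ => abs_nonneg _) hG)
  set e : ℝ := (Fintype.card (Exc k S') : ℝ) with he
  have he0 : 0 ≤ e := Nat.cast_nonneg _
  set η := a / (4 * (e + 1)) with hη
  have hη0 : 0 < η := by positivity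
  set Λ : ℕ := ∑ i, ∑ j, (ℓ i j).natAbs with hΛ
  set n : ℕ := 6 * (D + 1) with hn
  set n' : ℕ := n * (Λ + 1) with hn'
  set K : ℕ := n' ^ Fintype.card J with hK
  set L : ℕ := K.factorial * N₀ with hL
  have hL0 : 0 < L := Nat.mul_pos (Nat.factorial_pos _) hN₀
  obtain ⟨X₀, hX₀⟩ : ∃ X₀ : ℕ, 4 * B / a < (X₀ : ℝ) := exists_nat_gt _
  obtain ⟨M, hM₀, hM, hLM, hwin⟩ := exists_window hkΔ (excAbs (k := k) S') (excMu S')
    (excMu_pos S') ht (exc_le_ht S') (P := P) (a := a) (C₀ := C₀) ha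
    (fun m => by
      have := (abs_le.1 (hC₀ m)).2
      rw [natCast_zsmul] at this
      push_cast at this
      linarith) hη0 K L (K * (X₀ + 1)) hL0
    (fun k h1 h2 => (Nat.dvd_factorial h1 h2).mul_right _)
  obtain ⟨k', hk1, hk2, c, hc⟩ := dirichlet (fun i => α i M) M n' hM (by
    rw [hn', hn]; exact Nat.mul_pos (by omega) (by omega))
  obtain ⟨N, hN⟩ : k' ∣ M := ((Nat.dvd_factorial hk1 hk2).mul_right _).trans hLM
  have hNz : (M : ℤ) = k' * N := by exact_mod_cast hN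
  have hNM : M / k' = N := by rw [hN, Nat.mul_div_cancel_left _ hk1]
  have hN0 : 0 < N := by
    rcases Nat.eq_zero_or_pos N with h | h
    · rw [h, mul_zero] at hN; omega
    · exact h
  have hN₀N : N₀ ∣ N := by
    obtain ⟨q, hq⟩ := hLM
    obtain ⟨r, hr⟩ := Nat.dvd_factorial hk1 hk2
    refine ⟨r * q, ?_⟩
    have h1 : k' * N = k' * (N₀ * (r * q)) := by
      rw [← hN, hq, hL, hr]; ring
    exact Nat.eq_of_mul_eq_mul_left hk1 h1
  have hXN : X₀ + 1 ≤ N := by
    have h1 : K * (X₀ + 1) ≤ K * N := hM₀.trans (by rw [hN]; exact Nat.mul_le_mul_right _ hk2)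
    have hn0 : 0 < n' := by rw [hn', hn]; exact Nat.mul_pos (by omega) (by omega)
    have hK0 : 0 < K := by rw [hK]; exact Nat.pow_pos hn0
    exact Nat.le_of_mul_le_mul_left h1 hK0
  -- the approximants
  let b₀ : J → ℤ := fun j => α j M - c j * N
  have hb₀ : ∀ j, |b₀ j| * n' ≤ N := by
    intro i
    have h1 := hc i
    have h2 : (k' : ℤ) * α i M - c i * M = k' * b₀ i := by
      simp only [b₀]; linear_combination (-(c i)) * hNz
    rw [h2, abs_mul, abs_of_nonneg (by positivity : (0 : ℤ) ≤ k')] at h1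
    have h3 : (k' : ℤ) * (|b₀ i| * n') ≤ k' * N := by
      calc (k' : ℤ) * (|b₀ i| * n') = k' * |b₀ i| * n' := by ring
        _ ≤ M := h1
        _ = k' * N := hNz
    exact le_of_mul_le_mul_left h3 (by exact_mod_cast hk1)
  let b : I → ℤ := fun i => ∑ j, ℓ i j * b₀ j
  let c' : I → ℤ := fun i => ∑ j, ℓ i j * c j
  let α' : I → ℕ → ℤ := fun i m => ∑ j, ℓ i j * α j m
  have hbα : ∀ i, b i = α' i M - c' i * N := by
    intro i
    simp only [b, α', c', b₀, Finset.sum_mul, ← Finset.sum_sub_distrib]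
    exact Finset.sum_congr rfl fun j _ => by ring
  have hα' : ∀ (i : I) (n m : ℕ), 1 ≤ m → n ∣ m → (n : ℤ) ∣ α' i m - α' i n := by
    intro i n m hm hnm
    simp only [α', ← Finset.sum_sub_distrib, ← mul_sub]
    exact Finset.dvd_sum fun j _ => (hα j n m hm hnm).mul_left _
  have hb : ∀ i, |b i| * n ≤ N := by
    intro i
    have h1 : |b i| ≤ ∑ j, |ℓ i j| * |b₀ j| := by
      refine (Finset.abs_sum_le_sum_abs _ _).trans (le_of_eq ?_)
      exact Finset.sum_congr rfl fun j _ => abs_mul _ _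
    have h2 : (∑ j, |ℓ i j|) ≤ (Λ : ℤ) := by
      rw [hΛ]
      push_cast
      exact Finset.single_le_sum (f := fun i => ∑ j, |ℓ i j|)
        (fun _ _ => Finset.sum_nonneg fun _ _ => abs_nonneg _) (Finset.mem_univ i)
    have h3 : (|b i| * n) * (Λ + 1) ≤ N * (Λ + 1) := by
      calc (|b i| * n) * (Λ + 1) ≤ (∑ j, |ℓ i j| * |b₀ j|) * n * (Λ + 1) := by gcongr
        _ = ∑ j, |ℓ i j| * (|b₀ j| * n') := by
            rw [Finset.sum_mul, Finset.sum_mul]
            refine Finset.sum_congr rfl fun j _ => ?_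
            rw [hn']; push_cast; ring
        _ ≤ ∑ j, |ℓ i j| * N := by
            refine Finset.sum_le_sum fun j _ => ?_
            exact mul_le_mul_of_nonneg_left (hb₀ j) (abs_nonneg _)
        _ = (∑ j, |ℓ i j|) * N := by rw [Finset.sum_mul]
        _ ≤ Λ * N := by gcongr
        _ ≤ N * (Λ + 1) := by nlinarith [(Nat.cast_nonneg N : (0:ℤ) ≤ N)]
    exact le_of_mul_le_mul_right h3 (by positivity)
  refine ⟨b₀, fun i => ?_, fun G hG => ?_⟩
  · have h1 : (N₀ : ℤ) ∣ α i M - α i N₀ := by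
      apply hα _ _ _ hM
      exact hN₀N.trans ⟨k', by rw [hN]; ring⟩
    have h2 : (N₀ : ℤ) ∣ c i * N := (Int.natCast_dvd_natCast.2 hN₀N).mul_left _
    have h3 : b₀ i - α i N₀ = (α i M - α i N₀) - c i * N := by simp only [b₀]; ring
    rw [h3]
    exact dvd_sub h1 h2
  · by_contra hne
    have hnear : ∀ v ∉ S', 1 < mx (fv v) (N • P) →
        ∃ R : I → (W⁄(v.adicCompletion k)).Point,
        (∀ i, Near (nv v) (mx (fv v) (N • P)) (R i)) ∧
        aeval (crds fun i => Point.baseChange (W' := W) k (v.adicCompletion k)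
          (b i • P + t i) + R i) G = 0 := by
      intro v hv hr
      have hWv : (W⁄(v.adicCompletion k)).Δ ≠ 0 := by
        rw [base_Δ]
        exact fun h => hWΔ ((map_eq_zero _).1 h)
      have e4 : nv v (W⁄(v.adicCompletion k)).a₄ ≤ 1 := by
        have : (W⁄(v.adicCompletion k)).a₄ = algebraMap k (v.adicCompletion k) W.a₄ := rfl
        rw [this, nv_algebraMap]; exact (hS' v hv).1
      have e6 : nv v (W⁄(v.adicCompletion k)).a₆ ≤ 1 := by
        have : (W⁄(v.adicCompletion k)).a₆ = algebraMap k (v.adicCompletion k) W.a₆ := rfl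
        rw [this, nv_algebraMap]; exact (hS' v hv).2
      obtain ⟨nv', hnv0, hnv⟩ := exists_exponent_local v e4 e6 hWv hr
      refine ⟨fun i => y v i - Point.baseChange (W' := W) k (v.adicCompletion k) (b i • P + t i),
        fun i => ?_, ?_⟩
      · obtain ⟨z, hz⟩ := hy v hv i (M * nv') (Nat.mul_pos hM hnv0)
        obtain ⟨u, hu⟩ := hα' i M (M * nv') (Nat.mul_pos hM hnv0) (dvd_mul_right _ _)
        have h1 : y v i - Point.baseChange (W' := W) k (v.adicCompletion k) (b i • P + t i) =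
            (u * k' + c' i) • (Point.baseChange (W' := W) k (v.adicCompletion k) (N • P)) +
            M • (nv' • z) := by
          have h2 : α' i (M * nv') • P + t i = (b i • P + t i) + (u * k' + c' i) • (N • P) := by
            have h3 : α' i (M * nv') = b i + (u * k' + c' i) * N := by
              have : α' i (M * nv') = α' i M + M * u := by linarith
              rw [hbα]; linear_combination this + u * hNz
            rw [h3, add_smul, mul_smul, natCast_zsmul]; abel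
          have h2' : (∑ j, ℓ i j * α j (M * nv')) • P + t i =
            (b i • P + t i) + (u * k' + c' i) • (N • P) := h2
          rw [hz, h2', map_add, map_zsmul, mul_nsmul']
          abel
        simp only []
        rw [h1]
        have hnearN : Near (nv v) (mx (fv v) (N • P))
            (Point.baseChange (W' := W) k (v.adicCompletion k) (N • P)) := by
          rcases hNP : N • P with _ | ⟨x, y', h⟩
          · trivial
          · rw [hNP, mx_some] at hr
            rw [mx_some, Point.baseChange, Point.map_some, near_some]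
            have h2 : nv v (algebraMap k (v.adicCompletion k) x) = fv v x := nv_algebraMap v x
            have h3 : (Algebra.ofId k (v.adicCompletion k)) x =
              algebraMap k (v.adicCompletion k) x := rfl
            rw [h3, h2]
            rcases lt_max_iff.1 hr with h4 | h4
            · exact absurd h4 (lt_irrefl _)
            · exact (max_eq_right h4.le).le
        have hsub := nearSubgroup (nv_nonarch v) e4 e6 hr
        refine Near.add (nv_nonarch v) e4 e6 hr ?_ ?_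
        · exact AddSubgroup.zsmul_mem (nearSubgroup (nv_nonarch v) e4 e6 hr) hnearN _
        · exact AddSubgroup.nsmul_mem (nearSubgroup (nv_nonarch v) e4 e6 hr) (hnv z) _
      · have h1 : (fun i => Point.baseChange (W' := W) k (v.adicCompletion k) (b i • P + t i) +
            (y v i - Point.baseChange (W' := W) k (v.adicCompletion k) (b i • P + t i))) = y v := by
          funext i; abel
        rw [h1]
        exact hrel v hv G hG
    have h1 := hC G hG (fun i => b i • P + t i) (N • P) hne hnear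
    -- estimates
    have hNr : (0 : ℝ) < N := by exact_mod_cast hN0
    have h2 : a * (N : ℝ) ^ 2 - C₀ ≤ ht (N • P) := by
      have := (abs_le.1 (hC₀ N)).1
      rw [natCast_zsmul] at this
      push_cast at this
      linarith
    have h3 : excSum S' (N • P) ≤ a * (N : ℝ) ^ 2 / 4 := by
      rw [excSum_eq]
      have h4 : ∀ s ∈ (Finset.univ : Finset (Exc k S')),
          excMu S' s * Real.log (mx (excAbs S' s) (N • P)) ≤ η * (N : ℝ) ^ 2 := by
        intro s _
        have := hwin k' hk1 hk2 s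
        rwa [hNM] at this
      refine (Finset.sum_le_card_nsmul _ _ _ h4).trans ?_
      rw [nsmul_eq_mul]
      show e * (η * (N : ℝ) ^ 2) ≤ _
      have h5 : e * η ≤ a / 4 := by
        rw [hη, mul_div_assoc', div_le_div_iff₀ (by positivity) (by norm_num)]
        nlinarith
      calc e * (η * (N : ℝ) ^ 2) = (e * η) * (N : ℝ) ^ 2 := by ring
        _ ≤ (a / 4) * (N : ℝ) ^ 2 := by gcongr
        _ = _ := by ring
    have h4 : ∀ i, ht (b i • P + t i) ≤ 2 * a * ((N : ℝ) ^ 2 / (n : ℝ) ^ 2) +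
        (2 * C₀ + 2 * ht (t i) + C₁) := by
      intro i
      have h5 := (abs_le.1 (hC₁ (b i • P) (t i))).2
      have h6 := ht_nonneg (b i • P - t i)
      have h7 := (abs_le.1 (hC₀ (b i))).2
      have h8 : ((b i : ℤ) : ℝ) ^ 2 ≤ (N : ℝ) ^ 2 / (n : ℝ) ^ 2 := by
        rw [le_div_iff₀ (by positivity), ← mul_pow, ← sq_abs]
        apply pow_le_pow_left₀ (abs_nonneg _)
        rw [abs_mul, Nat.abs_cast]
        exact_mod_cast hb i
      have h9 : a * ((b i : ℤ) : ℝ) ^ 2 ≤ a * ((N : ℝ) ^ 2 / (n : ℝ) ^ 2) := by gcongr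
      linarith
    have h5 : ∑ i, (d G i : ℝ) * ht (b i • P + t i) ≤
        a * (N : ℝ) ^ 2 / 18 + ∑ i, (d G i : ℝ) * (2 * C₀ + 2 * ht (t i) + C₁) := by
      have h6 : ∑ i, (d G i : ℝ) * ht (b i • P + t i) ≤
          ∑ i, ((d G i : ℝ) * (2 * a * ((N : ℝ) ^ 2 / (n : ℝ) ^ 2)) +
            (d G i : ℝ) * (2 * C₀ + 2 * ht (t i) + C₁)) := by
        refine Finset.sum_le_sum fun i _ => ?_
        rw [← mul_add]
        exact mul_le_mul_of_nonneg_left (h4 i) (Nat.cast_nonneg _)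
      refine h6.trans ?_
      rw [Finset.sum_add_distrib, ← Finset.sum_mul]
      apply add_le_add_left
      have h7 : (∑ i, (d G i : ℝ)) ≤ D := by exact_mod_cast hDG G hG
      have hn' : (n : ℝ) = 6 * ((D : ℝ) + 1) := by rw [hn]; push_cast; ring
      have hD0 : (0 : ℝ) ≤ D := Nat.cast_nonneg _
      calc (∑ i, (d G i : ℝ)) * (2 * a * ((N : ℝ) ^ 2 / (n : ℝ) ^ 2)) ≤
          D * (2 * a * ((N : ℝ) ^ 2 / (n : ℝ) ^ 2)) := by gcongr
        _ = a * (N : ℝ) ^ 2 * (2 * D / (n : ℝ) ^ 2) := by ring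
        _ ≤ a * (N : ℝ) ^ 2 * (1 / 18) := by
            apply mul_le_mul_of_nonneg_left _ (by positivity)
            rw [hn', div_le_div_iff₀ (by positivity) (by norm_num)]
            nlinarith
        _ = a * (N : ℝ) ^ 2 / 18 := by ring
    have h6 := hB G hG
    have h7 : B < a * (N : ℝ) ^ 2 / 4 := by
      have h8 : (X₀ : ℝ) ≤ (N : ℝ) ^ 2 := by
        have h9 : (X₀ : ℝ) + 1 ≤ N := by exact_mod_cast hXN
        have h10 : (0 : ℝ) ≤ X₀ := Nat.cast_nonneg _
        nlinarith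
      rw [div_lt_iff₀ ha] at hX₀
      have h11 : (X₀ : ℝ) * a ≤ (N : ℝ) ^ 2 * a := by gcongr
      linarith
    have h8 : 0 < a * (N : ℝ) ^ 2 := by positivity
    simp only [X] at h6
    linarith

/-- **Adelic Mordell–Lang theorem in rank one.** -/
theorem core_lin [W.IsElliptic] {J : Type*} [Fintype J] (ℓ : I → J → ℤ)
    [∀ v : HeightOneSpectrum (𝓞 k), DecidableEq (v.adicCompletion k)]
    (S : Finset (HeightOneSpectrum (𝓞 k)))
    (P : (W⁄k).Point) (hP : ∀ n : ℕ, n ≠ 0 → n • P ≠ 0) (t : I → (W⁄k).Point)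
    (α : J → ℕ → ℤ) (hα : ∀ (i : J) (n m : ℕ), 1 ≤ m → n ∣ m → (n : ℤ) ∣ α i m - α i n)
    (y : ∀ v : HeightOneSpectrum (𝓞 k), I → (W⁄(v.adicCompletion k)).Point)
    (hy : ∀ v ∉ S, ∀ i n, 1 ≤ n → ∃ z, y v i =
      Point.baseChange (W' := W) k (v.adicCompletion k) ((∑ j, ℓ i j * α j n) • P + t i) + n • z)
    (Rel : Set (MvPolynomial (I × Fin 3) k)) (hRel : ∀ G ∈ Rel, ∃ d, MultiHom G d)
    (S' : Finset (HeightOneSpectrum (𝓞 k)))
    (hrel : ∀ v ∉ S', ∀ G ∈ Rel, aeval (crds (y v)) G = 0) :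
    (∀ N : ℕ, 1 ≤ N → ∃ m : J → ℤ, (∀ i, (N : ℤ) ∣ m i - α i N) ∧
      ∀ G ∈ Rel, aeval (crds fun i => (∑ j, ℓ i j * m j) • P + t i) G = 0) ∧
    ({m : J → ℤ | ∀ G ∈ Rel, aeval (crds fun i => (∑ j, ℓ i j * m j) • P + t i) G = 0}.Finite →
      ∃ m : J → ℤ, (∀ G ∈ Rel, aeval (crds fun i => (∑ j, ℓ i j * m j) • P + t i) G = 0) ∧
        (∀ i (n : ℕ), 1 ≤ n → (n : ℤ) ∣ m i - α i n) ∧
        ∀ v ∉ S, ∀ i, y v i =
          Point.baseChange (W' := W) k (v.adicCompletion k) ((∑ j, ℓ i j * m j) • P + t i)) := by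
  classical
  have main : ∀ N : ℕ, 1 ≤ N → ∃ m : J → ℤ, (∀ i, (N : ℤ) ∣ m i - α i N) ∧
      ∀ G ∈ Rel, aeval (crds fun i => (∑ j, ℓ i j * m j) • P + t i) G = 0 := by
    intro N hN
    obtain ⟨𝒢, h𝒢, hall⟩ := exists_finite_rel (A := k) Rel
    set T := S ∪ S' ∪ (finite_not_le_one W.a₄).toFinset ∪ (finite_not_le_one W.a₆).toFinset with hT
    have hTS : ∀ v ∉ T, v ∉ S ∧ v ∉ S' ∧ fv v W.a₄ ≤ 1 ∧ fv v W.a₆ ≤ 1 := by
      intro v hv
      simp only [hT, Finset.mem_union, Set.Finite.mem_toFinset, not_or] at hv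
      obtain ⟨⟨⟨h1, h2⟩, h3⟩, h4⟩ := hv
      exact ⟨h1, h2, not_not.1 h3, not_not.1 h4⟩
    obtain ⟨m, h1, h2⟩ := core_finite_lin ℓ T (fun v hv => (hTS v hv).2.2) P hP t α hα y
      (fun v hv => hy v (hTS v hv).1) 𝒢 (fun G hG => hRel G (h𝒢 hG))
      (fun v hv G hG => hrel v (hTS v hv).2.1 G (h𝒢 hG)) N hN
    exact ⟨m, h1, hall _ h2⟩
  refine ⟨main, fun hfin => ?_⟩
  have h1 : ∀ j : ℕ, ∃ m : {m : J → ℤ | ∀ G ∈ Rel, aeval (crds fun i => (∑ j, ℓ i j * m j) • P + t i) G = 0},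
      ∀ i, (j.factorial : ℤ) ∣ m.1 i - α i j.factorial := by
    intro j
    obtain ⟨m, h1, h2⟩ := main _ (Nat.factorial_pos j)
    exact ⟨⟨m, h2⟩, h1⟩
  choose f hf using h1
  have : Finite {m : J → ℤ | ∀ G ∈ Rel, aeval (crds fun i => (∑ j, ℓ i j * m j) • P + t i) G = 0} := hfin
  obtain ⟨m, hm⟩ := Finite.exists_infinite_fiber f
  have hdiv : ∀ i (n : ℕ), 1 ≤ n → (n : ℤ) ∣ m.1 i - α i n := by
    intro i n hn
    obtain ⟨j, hj1, hj2⟩ := (Set.infinite_coe_iff.1 hm).exists_gt n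
    have hj3 : f j = m := hj1
    have h2 := hf j i
    rw [hj3] at h2
    have h3 : n ∣ j.factorial := Nat.dvd_factorial hn hj2.le
    have h4 : (n : ℤ) ∣ (j.factorial : ℤ) := Int.natCast_dvd_natCast.2 h3
    have h5 := dvd_add (h4.trans h2) (hα i n _ (Nat.factorial_pos _) h3)
    rwa [sub_add_sub_cancel] at h5
  refine ⟨m.1, m.2, hdiv, fun v hv i => ?_⟩
  have hWv : (W⁄(v.adicCompletion k)).Δ ≠ 0 := by
    rw [base_Δ]
    exact fun h => Δ_ne_zero_of_isElliptic W ((map_eq_zero _).1 h)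
  rw [← sub_eq_zero]
  apply eq_zero_of_divisible' v hWv
  intro n hn
  obtain ⟨z, hz⟩ := hy v hv i n hn
  have hdiv' : (n : ℤ) ∣ (∑ j, ℓ i j * m.1 j) - ∑ j, ℓ i j * α j n := by
    rw [← Finset.sum_sub_distrib]
    refine Finset.dvd_sum fun j _ => ?_
    rw [← mul_sub]
    exact (hdiv j n hn).mul_left _
  obtain ⟨u, hu⟩ := hdiv'
  refine ⟨z - u • Point.baseChange (W' := W) k (v.adicCompletion k) P, ?_⟩
  have h6 : (∑ j, ℓ i j * m.1 j) = (∑ j, ℓ i j * α j n) + n * u := by linarith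
  rw [hz, h6, map_add, map_add, map_zsmul, map_zsmul, smul_sub, add_smul, mul_smul, natCast_zsmul]
  abel

end Pool.Agent.Lib.MP_2f3286_ag.E
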