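import Pool.Agent.Lib.MP_2f3286_ag.Top.Tors
import Pool.Agent.Lib.MP_2f3286_ag.E.Defs

/-!
# Multihomogeneous relations between points specialise
-/

open WeierstrassCurve WeierstrassCurve.Affine WeierstrassCurve.Affine.Point

namespace Pool.Agent.Lib.MP_2f3286_ag.Top

open Pool.Agent.Lib.MP_2f3286_ag.E

theorem multiHom_aeval_scale {k I M : Type*} [Field k] [Fintype I] [Field M] [Algebra k M]
    {G : MvPolynomial (I × Fin 3) k} {d : I → ℕ} (hG : MultiHom G d) (c : I → M)
    (f : I × Fin 3 → M) : MvPolynomial.aeval (fun p => c p.1 * f p) G =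
      (∏ i, c i ^ d i) * MvPolynomial.aeval f G := by
  classical
  rw [MvPolynomial.aeval_def, MvPolynomial.aeval_def, MvPolynomial.eval₂_eq', MvPolynomial.eval₂_eq',
    Finset.mul_sum]
  refine Finset.sum_congr rfl fun m hm => ?_
  simp only [mul_pow, Finset.prod_mul_distrib]
  have h1 : ∏ p : I × Fin 3, c p.1 ^ m p = ∏ i, c i ^ d i := by
    rw [Fintype.prod_prod_type]
    refine Finset.prod_congr rfl fun i _ => ?_
    rw [Fin.prod_univ_three, ← hG m hm i, pow_add, pow_add]
  rw [h1]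
  ring

theorem Sp.aeval {k M L ι : Type*} [Field k] [Field M] [Field L] [Algebra k M] [Algebra k L]
    {O : ValuationSubring M} {φ : O →+* L}
    (hk : ∀ a : k, Sp O φ (algebraMap k M a) (algebraMap k L a)) {f : ι → M} {f' : ι → L}
    (hf : ∀ i, Sp O φ (f i) (f' i)) (G : MvPolynomial ι k) :
    Sp O φ (MvPolynomial.aeval f G) (MvPolynomial.aeval f' G) := by
  induction G using MvPolynomial.induction_on with
  | C a => simpa using hk a
  | add p q hp hq => rw [map_add, map_add]; exact hp.add hq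
  | mul_X p i hp => rw [map_mul, map_mul, MvPolynomial.aeval_X, MvPolynomial.aeval_X]
                    exact hp.mul (hf i)

variable {M L : Type*} [Field M] [Field L] {O : ValuationSubring M} {φ : O →+* L} [IsLocalHom φ]
  {A : Affine M} {B : Affine L} (hAB : CurveSp O φ A B)

include hAB

/-- near the origin, `x / y` is small -/
theorem sp_div {x y : M} (hx : x ∉ O) (h : A.Equation x y) : y ∉ O ∧ Sp O φ (x / y) 0 := by
  have hx0 : x ≠ 0 := fun h0 => hx (h0 ▸ zero_mem _)
  have hw := sp_inv_of_notMem (φ := φ) hx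
  have h1 := (A.equation_iff x y).mp h
  have hU : Sp O φ (1 + A.a₂ * x⁻¹ + A.a₄ * x⁻¹ ^ 2 + A.a₆ * x⁻¹ ^ 3) 1 := by
    have := ((sp_one.add (hAB.a₂.mul hw)).add (hAB.a₄.mul (hw.pow 2))).add (hAB.a₆.mul (hw.pow 3))
    simpa using this
  have hu : y / x ∉ O := by
    intro hu
    have h2 := sp_of_mem (φ := φ) hu
    have h3 := ((((h2.pow 2).mul hw).add ((hAB.a₁.mul h2).mul hw)).add
      ((hAB.a₃.mul h2).mul (hw.pow 2)))
    have e : (y / x) ^ 2 * x⁻¹ + A.a₁ * (y / x) * x⁻¹ + A.a₃ * (y / x) * x⁻¹ ^ 2 =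
        1 + A.a₂ * x⁻¹ + A.a₄ * x⁻¹ ^ 2 + A.a₆ * x⁻¹ ^ 3 := by
      field_simp
      linear_combination h1
    rw [e] at h3
    have := h3.unique hU
    simp at this
  have h4 : Sp O φ (x / y) 0 := by
    have := sp_inv_of_notMem (φ := φ) hu
    rwa [inv_div] at this
  refine ⟨fun hy => hu ?_, h4⟩
  rw [div_eq_mul_inv]
  exact mul_mem hy hw.mem

variable [B.IsElliptic]

theorem exists_scale3 (P : A.Point) :
    ∃ c : M, c ≠ 0 ∧ ∀ j, Sp O φ (c * crd P j) (crd (red hAB P) j) := by
  rcases P with _ | ⟨x, y, h⟩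
  · refine ⟨1, one_ne_zero, fun i => ?_⟩
    fin_cases i
    · show Sp O φ (1 * 0) 0
      rw [mul_zero]; exact sp_zero
    · show Sp O φ (1 * 1) 1
      rw [mul_one]; exact sp_one
    · show Sp O φ (1 * 0) 0
      rw [mul_zero]; exact sp_zero
  · by_cases hx : x ∈ O
    · have h1 := sp_of_mem (φ := φ) hx
      have h2 := sp_of_mem (φ := φ) (mem_y hAB hx h.1)
      have h3 := equation_iff_nonsingular.mp (h1.equation hAB h2 h.1)
      rw [red_some hAB h h1 h2 h3]
      refine ⟨1, one_ne_zero, fun i => ?_⟩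
      fin_cases i
      · show Sp O φ (1 * x) _
        rw [one_mul]; exact h1
      · show Sp O φ (1 * y) _
        rw [one_mul]; exact h2
      · show Sp O φ (1 * 1) 1
        rw [mul_one]; exact sp_one
    · obtain ⟨hy, h4⟩ := sp_div hAB hx h.1
      have hy0 : y ≠ 0 := fun h0 => hy (h0 ▸ zero_mem _)
      rw [red_some_of_notMem hAB h hx]
      refine ⟨y⁻¹, inv_ne_zero hy0, fun i => ?_⟩
      fin_cases i
      · show Sp O φ (y⁻¹ * x) 0
        rwa [← div_eq_inv_mul]
      · show Sp O φ (y⁻¹ * y) 1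
        rw [inv_mul_cancel₀ hy0]; exact sp_one
      · show Sp O φ (y⁻¹ * 1) 0
        rw [mul_one]; exact sp_inv_of_notMem hy

omit hAB [B.IsElliptic] in
/-- relations specialise -/
theorem rel_red {k I : Type*} [Field k] [Fintype I] [Algebra k M] [Algebra k L] {W : Affine k}
    [W.IsElliptic] (hk : ∀ a : k, Sp O φ (algebraMap k M a) (algebraMap k L a))
    (hAB : CurveSp O φ (W⁄M) (W⁄L)) {G : MvPolynomial (I × Fin 3) k} {d : I → ℕ}
    (hG : MultiHom G d) (P : I → (W⁄M).Point) (h : MvPolynomial.aeval (crds P) G = 0) :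
    MvPolynomial.aeval (crds fun i => red hAB (P i)) G = 0 := by
  choose c hc hs using fun i => exists_scale3 hAB (P i)
  have h1 := Sp.aeval hk (f := fun p : I × Fin 3 => c p.1 * crds P p)
    (f' := crds fun i => red hAB (P i)) (fun p => hs p.1 p.2) G
  rw [multiHom_aeval_scale hG, h, mul_zero] at h1
  exact h1.unique sp_zero

end Pool.Agent.Lib.MP_2f3286_ag.Top
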