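import Pool.Agent.Lib.MP_2f3286_ag.Top.FF
import Pool.Agent.Lib.MP_2f3286_ag.Top.Rel

/-!
# Multihomogeneous forms attached to relations between x-coordinates
-/

open WeierstrassCurve WeierstrassCurve.Affine

namespace Pool.Agent.Lib.MP_2f3286_ag.Top

open Pool.Agent.Lib.MP_2f3286_ag.E

variable {k I : Type*} [Field k]

theorem multiHom_monomial [DecidableEq I] {m : I × Fin 3 →₀ ℕ} {c : k} {d : I → ℕ}
    (h : ∀ i, m (i, 0) + m (i, 1) + m (i, 2) = d i) : MultiHom (MvPolynomial.monomial m c) d := by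
  intro m' hm' i
  have := MvPolynomial.support_monomial_subset hm'
  rw [Finset.mem_singleton] at this
  rw [this, h]

theorem multiHom_sum {ι : Type*} {s : Finset ι} {G : ι → MvPolynomial (I × Fin 3) k} {d : I → ℕ}
    (h : ∀ j ∈ s, MultiHom (G j) d) : MultiHom (∑ j ∈ s, G j) d := by
  classical
  intro m hm i
  have := MvPolynomial.support_sum hm
  rw [Finset.mem_biUnion] at this
  obtain ⟨j, hj, hmj⟩ := this
  exact h j hj m hmj i

/-- the bihomogeneous form of `F ∈ k[X][Y]` in the coordinates `i₁`, `i₂` -/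
noncomputable def biHom (F : Polynomial (Polynomial k)) (e d : ℕ) (i₁ i₂ : I) :
    MvPolynomial (I × Fin 3) k :=
  ∑ b ∈ Finset.range (d + 1), ∑ a ∈ Finset.range (e + 1),
    MvPolynomial.monomial (Finsupp.single (i₁, 0) a + Finsupp.single (i₁, 2) (e - a) +
      (Finsupp.single (i₂, 0) b + Finsupp.single (i₂, 2) (d - b))) ((F.coeff b).coeff a)

theorem multiHom_biHom [DecidableEq I] (F : Polynomial (Polynomial k)) (e d : ℕ) {i₁ i₂ : I}
    (h : i₁ ≠ i₂) :
    MultiHom (biHom F e d i₁ i₂) (fun i => if i = i₁ then e else if i = i₂ then d else 0) := by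
  refine multiHom_sum fun b hb => multiHom_sum fun a ha => multiHom_monomial fun i => ?_
  have ha' := Nat.lt_succ_iff.mp (Finset.mem_range.mp ha)
  have hb' := Nat.lt_succ_iff.mp (Finset.mem_range.mp hb)
  by_cases h1 : i = i₁
  · subst h1
    simp [Finsupp.single_apply, h, h.symm]
    omega
  · by_cases h2 : i = i₂
    · subst h2
      simp [Finsupp.single_apply, h1, Ne.symm h1, h]
      omega
    · simp [Finsupp.single_apply, h1, h2, Ne.symm h1, Ne.symm h2]

theorem aeval_biHom {K : Type*} [Field K] [Algebra k K] (f : I × Fin 3 → K)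
    (F : Polynomial (Polynomial k)) (e d : ℕ) (i₁ i₂ : I) :
    MvPolynomial.aeval f (biHom F e d i₁ i₂) = ∑ b ∈ Finset.range (d + 1),
      ∑ a ∈ Finset.range (e + 1), algebraMap k K ((F.coeff b).coeff a) *
        (f (i₁, 0) ^ a * f (i₁, 2) ^ (e - a) * (f (i₂, 0) ^ b * f (i₂, 2) ^ (d - b))) := by
  classical
  rw [biHom, map_sum]
  refine Finset.sum_congr rfl fun b _ => ?_
  rw [map_sum]
  refine Finset.sum_congr rfl fun a _ => ?_
  rw [MvPolynomial.aeval_monomial]
  congr 1
  rw [Finsupp.prod_add_index' (by simp) (by intro i m n; exact pow_add _ _ _),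
    Finsupp.prod_add_index' (by simp) (by intro i m n; exact pow_add _ _ _),
    Finsupp.prod_add_index' (by simp) (by intro i m n; exact pow_add _ _ _),
    Finsupp.prod_single_index (by simp), Finsupp.prod_single_index (by simp),
    Finsupp.prod_single_index (by simp), Finsupp.prod_single_index (by simp)]

theorem ev2_eq_sum {K : Type*} [Field K] [Algebra k K] (x y : K)
    (F : Polynomial (Polynomial k)) {e d : ℕ} (hd : F.natDegree ≤ d)
    (he : ∀ b, (F.coeff b).natDegree ≤ e) :
    ev2 x y F = ∑ b ∈ Finset.range (d + 1),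
      ∑ a ∈ Finset.range (e + 1), algebraMap k K ((F.coeff b).coeff a) * (x ^ a * y ^ b) := by
  rw [ev2, Polynomial.eval₂_eq_sum_range' _ (Nat.lt_succ_of_le hd)]
  refine Finset.sum_congr rfl fun b _ => ?_
  have h1 : (Polynomial.aeval x : Polynomial k →ₐ[k] K).toRingHom (F.coeff b) =
      ∑ a ∈ Finset.range (e + 1), algebraMap k K ((F.coeff b).coeff a) * x ^ a := by
    show Polynomial.aeval x (F.coeff b) = _
    rw [Polynomial.aeval_eq_sum_range' (Nat.lt_succ_of_le (he b))]
    exact Finset.sum_congr rfl fun a _ => Algebra.smul_def _ _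
  rw [h1, Finset.sum_mul]
  exact Finset.sum_congr rfl fun a _ => by ring

/-- x-coordinate, `0` at the origin -/
def xc {F : Type*} [Field F] {W : Affine F} : W.Point → F
  | .zero => 0
  | .some x _ _ => x

theorem aeval_crds_biHom {K : Type*} [Field K] [Algebra k K] {W : Affine K} (Q : I → W.Point)
    (F : Polynomial (Polynomial k)) {e d : ℕ} (hd : F.natDegree ≤ d)
    (he : ∀ b, (F.coeff b).natDegree ≤ e) {i₁ i₂ : I} (h₁ : Q i₁ ≠ 0) (h₂ : Q i₂ ≠ 0) :
    MvPolynomial.aeval (crds Q) (biHom F e d i₁ i₂) = ev2 (xc (Q i₁)) (xc (Q i₂)) F := by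
  rw [aeval_biHom, ev2_eq_sum _ _ F hd he]
  have e1 : crds Q (i₁, 0) = xc (Q i₁) ∧ crds Q (i₁, 2) = 1 := by
    simp only [crds]
    rcases hQ : Q i₁ with _ | ⟨x, y, hxy⟩
    · exact absurd hQ h₁
    · exact ⟨rfl, rfl⟩
  have e2 : crds Q (i₂, 0) = xc (Q i₂) ∧ crds Q (i₂, 2) = 1 := by
    simp only [crds]
    rcases hQ : Q i₂ with _ | ⟨x, y, hxy⟩
    · exact absurd hQ h₂
    · exact ⟨rfl, rfl⟩
  simp only [e1.1, e1.2, e2.1, e2.2, one_pow, mul_one]

/-- degree bound for the inner coefficients -/
theorem exists_inner_bound (F : Polynomial (Polynomial k)) :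
    ∃ e : ℕ, ∀ b, (F.coeff b).natDegree ≤ e := by
  refine ⟨∑ b ∈ F.support, (F.coeff b).natDegree, fun b => ?_⟩
  by_cases hb : b ∈ F.support
  · exact Finset.single_le_sum (f := fun b => (F.coeff b).natDegree) (fun _ _ => Nat.zero_le _) hb
  · rw [Polynomial.notMem_support_iff.mp hb]
    simp

/-- the form attached to a one-variable polynomial, multiplied by `Z` -/
noncomputable def hom1 (h : Polynomial k) (i : I) : MvPolynomial (I × Fin 3) k :=
  ∑ a ∈ Finset.range (h.natDegree + 1),
    MvPolynomial.monomial (Finsupp.single (i, 0) a + Finsupp.single (i, 2) (h.natDegree + 1 - a))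
      (h.coeff a)

theorem multiHom_hom1 [DecidableEq I] (h : Polynomial k) (i : I) :
    MultiHom (hom1 h i) (fun j => if j = i then h.natDegree + 1 else 0) := by
  refine multiHom_sum fun a ha => multiHom_monomial fun j => ?_
  have ha' := Nat.lt_succ_iff.mp (Finset.mem_range.mp ha)
  by_cases h1 : j = i
  · subst h1
    simp [Finsupp.single_apply]
    omega
  · simp [Finsupp.single_apply, h1, Ne.symm h1]

theorem aeval_hom1 {K : Type*} [Field K] [Algebra k K] {W : Affine K} (Q : I → W.Point)
    (h : Polynomial k) (i : I) : MvPolynomial.aeval (crds Q) (hom1 h i) = 0 ↔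
      Q i = 0 ∨ Polynomial.aeval (xc (Q i)) h = 0 := by
  classical
  have e0 : MvPolynomial.aeval (crds Q) (hom1 h i) = ∑ a ∈ Finset.range (h.natDegree + 1),
      algebraMap k K (h.coeff a) *
        (crds Q (i, 0) ^ a * crds Q (i, 2) ^ (h.natDegree + 1 - a)) := by
    rw [hom1, map_sum]
    refine Finset.sum_congr rfl fun a _ => ?_
    rw [MvPolynomial.aeval_monomial]
    congr 1
    rw [Finsupp.prod_add_index' (by simp) (by intro i m n; exact pow_add _ _ _),
      Finsupp.prod_single_index (by simp), Finsupp.prod_single_index (by simp)]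
  rw [e0]
  rcases hQ : Q i with _ | ⟨x, y, hxy⟩
  · have h2 : crds Q (i, 2) = 0 := by simp only [crds, hQ]; rfl
    constructor
    · intro _; left; rfl
    · intro _
      refine Finset.sum_eq_zero fun a ha => ?_
      have ha' := Nat.lt_succ_iff.mp (Finset.mem_range.mp ha)
      rw [h2, zero_pow (by omega), mul_zero, mul_zero]
  · have h0 : crds Q (i, 0) = x := by simp only [crds, hQ]; rfl
    have h2 : crds Q (i, 2) = 1 := by simp only [crds, hQ]; rfl
    simp only [h0, h2, one_pow, mul_one]
    rw [Polynomial.aeval_eq_sum_range]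
    simp only [Algebra.smul_def, xc]
    constructor
    · intro h; right; exact h
    · rintro (h | h)
      · exact absurd h (Point.some_ne_zero _)
      · exact h

end Pool.Agent.Lib.MP_2f3286_ag.Top
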