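import Mathlib

/-!
# Compactness: compatible exponents
-/

namespace Pool.Agent.Lib.MP_2f3286_ag.Top

theorem exists_compatible_exponents {G : Type*} [AddCommGroup G] (P : G) (T : Set G) (hT : T.Finite)
    (A : ℕ → G) (hA : ∀ n m, 1 ≤ n → 1 ≤ m → ∃ B, A (n * m) - A n = n • B)
    (hAT : ∀ n, 1 ≤ n → ∃ m : ℤ, ∃ t ∈ T, A n = m • P + t) :
    ∃ (t : G) (a : ℕ → ℤ), t ∈ T ∧ (∀ n m : ℕ, 1 ≤ m → n ∣ m → (n : ℤ) ∣ a m - a n) ∧
      ∀ n, 1 ≤ n → ∃ B, A n - (a n • P + t) = n • B := by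
  classical
  choose! mm tt h using hAT
  let U : Ultrafilter ℕ := Filter.hyperfilter ℕ
  have hU : ∀ n, ∀ᶠ N in (U : Filter ℕ), n ≤ N := by
    intro n
    have h1 : (U : Filter ℕ) ≤ Filter.cofinite := Filter.hyperfilter_le_cofinite
    rw [Nat.cofinite_eq_atTop] at h1
    exact h1 (Filter.eventually_ge_atTop n)
  have hf : ∀ N : ℕ, 1 ≤ N.factorial := fun N => Nat.factorial_pos N
  obtain ⟨t, htT, ht⟩ : ∃ t ∈ T, ∀ᶠ N in (U : Filter ℕ), tt N.factorial = t := by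
    have h2 : ∀ᶠ N in (U : Filter ℕ), ∃ t ∈ T, tt N.factorial = t :=
      Filter.Eventually.of_forall fun N => ⟨_, (h _ (hf N)).1, rfl⟩
    rw [Ultrafilter.eventually_exists_mem_iff hT] at h2
    exact h2
  have hr : ∀ n : ℕ, 1 ≤ n → ∃ r : ℤ, ∀ᶠ N in (U : Filter ℕ), (n : ℤ) ∣ r - mm N.factorial := by
    intro n hn
    have h2 : ∀ᶠ N in (U : Filter ℕ), ∃ r ∈ (Finset.Icc (0 : ℤ) n : Set ℤ),
        mm N.factorial % n = r := by
      refine Filter.Eventually.of_forall fun N => ⟨_, ?_, rfl⟩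
      have hn' : (0 : ℤ) < n := by exact_mod_cast hn
      simp only [Finset.coe_Icc, Set.mem_Icc]
      exact ⟨Int.emod_nonneg _ hn'.ne', (Int.emod_lt_of_pos _ hn').le⟩
    rw [Ultrafilter.eventually_exists_mem_iff (Finset.finite_toSet _)] at h2
    obtain ⟨r, -, hr⟩ := h2
    refine ⟨r, ?_⟩
    filter_upwards [hr] with N hN
    rw [← hN]
    have := Int.emod_add_mul_ediv (mm N.factorial) n
    exact ⟨-(mm N.factorial / n), by linarith⟩
  choose! a ha using hr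
  refine ⟨t, a, htT, ?_, ?_⟩
  · intro n m hm hnm
    have hn : 1 ≤ n := Nat.pos_of_dvd_of_pos hnm hm
    obtain ⟨N, hN1, hN2⟩ := ((ha n hn).and (ha m hm)).exists
    have h3 : (n : ℤ) ∣ a m - mm N.factorial := (Int.natCast_dvd_natCast.mpr hnm).trans hN2
    have := dvd_sub h3 hN1
    simpa using this
  · intro n hn
    obtain ⟨N, ⟨hN1, hN2⟩, hN3⟩ := (((ha n hn).and ht).and (hU n)).exists
    obtain ⟨q, hq⟩ := Nat.dvd_factorial hn hN3
    have hq0 : 1 ≤ q := by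
      rcases Nat.eq_zero_or_pos q with rfl | h0
      · have := Nat.factorial_pos N
        omega
      · exact h0
    obtain ⟨B, hB⟩ := hA n q hn hq0
    rw [← hq, (h _ (hf N)).2, hN2] at hB
    obtain ⟨c, hc⟩ := hN1
    refine ⟨-(B + c • P), ?_⟩
    have h5 : a n = mm N.factorial + n * c := by linarith
    have h6 : A n = mm N.factorial • P + t - n • B := by rw [← hB]; abel
    rw [h5, h6, add_smul, mul_smul, natCast_zsmul, smul_neg, smul_add]
    abel

end Pool.Agent.Lib.MP_2f3286_ag.Top
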