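import Pool.Agent.Lib.MP_2f3286_ag.Top.Main
import Pool.Agent.Lib.MP_2f3286_ag.Top.Weak
import Pool.Agent.Lib.MP_2f3286_ag.Top.RelPoly
import Pool.Agent.Lib.MP_2f3286_ag.Top.CoreLin

/-!
# Curves with two independent maps to an elliptic curve of rank one
-/

open WeierstrassCurve WeierstrassCurve.Affine WeierstrassCurve.Affine.Point
open IsDedekindDomain NumberField

namespace Pool.Agent.Lib.MP_2f3286_ag.Top

open Pool.Agent.Lib.MP_2f3286_ag.E

section const

variable {k : Type*} [Field k] {W : Affine k} {kb : Type*} [Field kb] [Algebra k kb]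
  [IsGalois k kb] [IsAlgClosed kb]
  {K M : Type*} [Field K] [Field M] [Algebra k K] [Algebra K M] [Algebra k M] [IsScalarTower k K M]
  [Algebra kb M] [IsScalarTower k kb M]
  (s : Gal(kb/k) →* Gal(M/K))

/-- a section forces `k` to be algebraically closed in `K` -/
theorem const_of_algebraic (hsec : ∀ σ a, s σ (algebraMap kb M a) = algebraMap kb M (σ a))
    {c : K} (hc : IsAlgebraic k c) : ∃ c₀ : k, algebraMap k K c₀ = c := by
  have h1 : IsIntegral kb (algebraMap K M c) := by
    have h2 : IsIntegral k (algebraMap K M c) := hc.isIntegral.algebraMap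
    exact h2.tower_top
  obtain ⟨a, ha⟩ := mem_of_integral h1
  have h3 : ∀ σ : Gal(kb/k), σ a = a := by
    intro σ
    apply (algebraMap kb M).injective
    rw [← hsec, ha, AlgEquiv.commutes]
  have h4 : a ∈ (⊥ : IntermediateField k kb) := by
    rw [InfiniteGalois.mem_bot_iff_fixed]; exact h3
  obtain ⟨c₀, hc₀⟩ := IntermediateField.mem_bot.mp h4
  refine ⟨c₀, ?_⟩
  apply (algebraMap K M).injective
  rw [← ha, ← hc₀, ← IsScalarTower.algebraMap_apply, ← IsScalarTower.algebraMap_apply]

/-- a point with constant x-coordinate is constant -/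
theorem const_point [DecidableEq k] [DecidableEq K]
    (hk : ∀ c : K, IsAlgebraic k c → ∃ c₀ : k, algebraMap k K c₀ = c) (η : (W⁄K).Point)
    (h : ¬ ∃ Q : (W⁄k).Point, η = baseChange k K Q) :
    ∃ x y, ∃ hxy : (W⁄K).Nonsingular x y, η = some x y hxy ∧ Transcendental k x ∧
      ∀ c : k, algebraMap k K c ≠ x := by
  rcases hη : η with _ | ⟨x, y, hxy⟩
  · exact absurd ⟨0, hη⟩ h
  have hx : ∀ c : k, algebraMap k K c ≠ x := by
    intro c hc
    have h1 := ((W⁄K).equation_iff x y).mp hxy.1
    have hy : IsAlgebraic k y := by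
      refine IsIntegral.isAlgebraic ?_
      let q : Polynomial k := Polynomial.X ^ 2 + Polynomial.C (W.a₁ * c + W.a₃) * Polynomial.X -
        Polynomial.C (c ^ 3 + W.a₂ * c ^ 2 + W.a₄ * c + W.a₆)
      refine ⟨q, ?_, ?_⟩
      · show (Polynomial.X ^ 2 + _ - _ : Polynomial k).Monic
        monicity!
      · simp only [q, Polynomial.eval₂_add, Polynomial.eval₂_sub, Polynomial.eval₂_mul,
          Polynomial.eval₂_pow, Polynomial.eval₂_X, Polynomial.eval₂_C, map_add, map_mul, map_pow,
          hc]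
        have h3 : y ^ 2 + algebraMap k K W.a₁ * x * y + algebraMap k K W.a₃ * y = x ^ 3 +
          algebraMap k K W.a₂ * x ^ 2 + algebraMap k K W.a₄ * x + algebraMap k K W.a₆ := h1
        linear_combination h3
    obtain ⟨b, hb⟩ := hk y hy
    subst hc hb
    apply h
    have hns : (W⁄k).Nonsingular c b :=
      (W.baseChange_nonsingular (Algebra.ofId k K).injective c b).mp hxy
    exact ⟨some c b hns, hη⟩
  refine ⟨x, y, hxy, rfl, ?_, hx⟩
  intro halg
  obtain ⟨c, hc⟩ := hk x halg
  exact hx c hc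

end const

section valK

variable {k : Type*} [Field k] [NumberField k] {W : Affine k} {kb : Type*} [Field kb] [Algebra k kb]
  [IsGalois k kb]
  {K M : Type*} [Field K] [Field M] [Algebra k K] [Algebra K M] [Algebra k M] [IsScalarTower k K M]
  [Algebra kb M] [IsScalarTower k kb M]
  [DecidableEq k] [DecidableEq kb] [DecidableEq K] [DecidableEq M]
  (s : Gal(kb/k) →* Gal(M/K))
  {F Fb : Type*} [Field F] [Field Fb] [Algebra k F] [Algebra F Fb] [Algebra k Fb]
  [IsScalarTower k F Fb] {ι : kb →ₐ[k] Fb} {O : ValuationSubring M} {φ : O →+* Fb}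
  (hpl : IsPlaceOf (F := F) s ι O φ) [DecidableEq F] [DecidableEq Fb] [W.IsElliptic]
  [IsGalois F Fb]

include hpl in
theorem IsPlaceOf.exists_valK (η : (W⁄K).Point) : ∃ y : (W⁄F).Point,
    baseChange F Fb y = hpl.val s (baseChange K M η) :=
  hpl.exists_val s (fun σ => act_baseChange (s σ) η)

/-- the values in `F` of points over `K` -/
noncomputable def IsPlaceOf.valK : (W⁄K).Point →+ (W⁄F).Point where
  toFun η := Classical.choose (hpl.exists_valK s η)
  map_zero' := by
    apply bc_injective F Fb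
    rw [Classical.choose_spec (hpl.exists_valK s 0), _root_.map_zero, _root_.map_zero,
      _root_.map_zero]
  map_add' η η' := by
    apply bc_injective F Fb
    rw [Classical.choose_spec (hpl.exists_valK s (η + η')), map_add, map_add, map_add,
      Classical.choose_spec (hpl.exists_valK s η), Classical.choose_spec (hpl.exists_valK s η')]

theorem IsPlaceOf.valK_spec (η : (W⁄K).Point) :
    baseChange F Fb (hpl.valK s η) = hpl.val s (baseChange K M η) :=
  Classical.choose_spec (hpl.exists_valK s η)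

theorem IsPlaceOf.valK_class {n : ℕ} {η : (W⁄K).Point} {R : (W⁄k).Point}
    (h : IsClass s W n η R) : ∃ z : (W⁄F).Point, hpl.valK s η = baseChange k F R + n • z :=
  hpl.class_val s h (hpl.valK_spec s η)

theorem IsPlaceOf.valK_const (R : (W⁄k).Point) :
    hpl.valK s (baseChange k K R) = baseChange k F R := by
  apply bc_injective F Fb
  rw [hpl.valK_spec, bc_bc, bc_bc, hpl.val_bc]

theorem IsPlaceOf.valK_rel {J : Type*} [Fintype J] (ξ : J → (W⁄K).Point)
    {G : MvPolynomial (J × Fin 3) k} {d : J → ℕ} (hd : MultiHom G d)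
    (hG : MvPolynomial.aeval (crds ξ) G = 0) :
    MvPolynomial.aeval (crds fun j => hpl.valK s (ξ j)) G = 0 := by
  have := hpl.isLocal
  have hsp : ∀ a : k, Sp O φ (algebraMap k M a) (algebraMap k Fb a) := by
    intro a
    have := hpl.const (algebraMap k kb a)
    rwa [← IsScalarTower.algebraMap_apply, ι.commutes] at this
  have h1 := rel_red hsp (hpl.curveSp s (W := W)) hd (fun i => baseChange K M (ξ i))
    (by rw [crds_baseChange, hG, _root_.map_zero])
  have h2 : (fun i => red (hpl.curveSp s (W := W)) (baseChange K M (ξ i))) =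
      fun i => baseChange F Fb (hpl.valK s (ξ i)) := by
    funext i
    exact (hpl.valK_spec s (ξ i)).symm
  rw [h2, crds_baseChange] at h1
  exact (algebraMap F Fb).injective (h1.trans (_root_.map_zero (algebraMap F Fb)).symm)

end valK


section classes

variable {k : Type*} [Field k] {W : Affine k} {kb : Type*} [Field kb] [Algebra k kb]
  {K M : Type*} [Field K] [Field M] [Algebra k K] [Algebra K M] [Algebra k M] [IsScalarTower k K M]
  [Algebra kb M] [IsScalarTower k kb M]
  [DecidableEq k] [DecidableEq K] [DecidableEq M]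
  {s : Gal(kb/k) →* Gal(M/K)}

theorem IsClass.add {n : ℕ} {η η' : (W⁄K).Point} {R R' : (W⁄k).Point} (h : IsClass s W n η R)
    (h' : IsClass s W n η' R') : IsClass s W n (η + η') (R + R') := by
  obtain ⟨ζ, h1, h2⟩ := h
  obtain ⟨ζ', h1', h2'⟩ := h'
  refine ⟨ζ + ζ', fun σ => by rw [map_add, h1, h1'], ?_⟩
  rw [smul_add, h2, h2', map_add, map_add]
  abel

theorem IsClass.zsmul {n : ℕ} {η : (W⁄K).Point} {R : (W⁄k).Point} (h : IsClass s W n η R)
    (a : ℤ) : IsClass s W n (a • η) (a • R) := by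
  obtain ⟨ζ, h1, h2⟩ := h
  refine ⟨a • ζ, fun σ => by rw [map_zsmul, h1], ?_⟩
  rw [smul_comm, h2, map_zsmul, map_zsmul, smul_sub]

theorem isClass_const (s : Gal(kb/k) →* Gal(M/K)) (n : ℕ) (R : (W⁄k).Point) :
    IsClass s W n (baseChange k K R) R := by
  refine ⟨0, fun σ => _root_.map_zero _, ?_⟩
  rw [bc_bc, sub_self, smul_zero]

end classes

theorem ev2_algebraMap {k K : Type*} [Field k] [Field K] [Algebra k K] (x : K) (y : k)
    (F : Polynomial (Polynomial k)) :
    ev2 x (algebraMap k K y) F = Polynomial.aeval x (F.eval (Polynomial.C y)) := by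
  rw [ev2, Polynomial.eval₂_eq_sum_range, Polynomial.eval_eq_sum_range, map_sum]
  refine Finset.sum_congr rfl fun i _ => ?_
  rw [map_mul, map_pow, Polynomial.aeval_C]
  rfl

theorem ev2_self {k : Type*} [Field k] (x y : k) (F : Polynomial (Polynomial k)) :
    ev2 x y F = (F.eval (Polynomial.C y)).eval x :=
  ev2_algebraMap (K := k) x y F

/-- finiteness by heights (Demjanenko-Manin in rank one) -/
def DMStatement {k : Type*} [Field k] [DecidableEq k] (W : Affine k) : Prop :=
  ∀ (P : (W⁄k).Point) (_ : ∀ n : ℕ, n ≠ 0 → n • P ≠ 0) (t : Fin 2 → (W⁄k).Point) (d : ℕ),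
    ∃ Q : ℕ, ∀ F : Fin 2 → ℤ → ℤ → ℕ → Polynomial (Polynomial k),
      (∀ e a b c, (F e a b c).natDegree ≤ d ∧ ∀ y : k, (F e a b c).eval (Polynomial.C y) ≠ 0) →
      {m : Fin 2 → ℤ | ∀ (e : Fin 2) (a b : ℤ) (c : ℕ), |a| ≤ Q → |b| ≤ Q → (a ≠ 0 ∨ b ≠ 0) →
        c ≤ 1 → m e • P + t e ≠ 0 →
        (a * m 0 + b * m 1 + (c : ℤ)) • P + (a • t 0 + b • t 1) ≠ 0 →
        ((F e a b c).eval (Polynomial.C (xc ((a * m 0 + b * m 1 + (c : ℤ)) • P +
          (a • t 0 + b • t 1))))).eval (xc (m e • P + t e)) = 0}.Finite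

end Pool.Agent.Lib.MP_2f3286_ag.Top
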