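import Pool.Agent.Lib.MP_2f3286_ag.Top.Hom
import Pool.Agent.Lib.MP_2f3286_ag.E.DM

/-!
# Selmer sections of curves with two independent maps to an elliptic curve of rank one
-/

open WeierstrassCurve WeierstrassCurve.Affine WeierstrassCurve.Affine.Point
open IsDedekindDomain NumberField

namespace Pool.Agent.Lib.MP_2f3286_ag.Top

open Pool.Agent.Lib.MP_2f3286_ag.E

theorem xc_eq {F : Type*} [Field F] {V : Affine F} (R : V.Point) : E.xc R = Top.xc R := by
  rcases R with _ | ⟨x, y, h⟩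
  · rfl
  · rfl

theorem dmStatement {k : Type*} [Field k] [NumberField k] [DecidableEq k] (W : Affine k)
    [W.IsShortNF] [W.IsElliptic] : DMStatement W := by
  intro P hP t d
  obtain ⟨Q, hQ⟩ := E.dm_finite P hP t d
  refine ⟨Q, fun F hF => ?_⟩
  have h := hQ F hF
  simp only [xc_eq] at h
  exact h

variable {k : Type*} [Field k] [NumberField k] {K M : Type*} [Field K] [Field M] [Algebra K M]
  [Algebra (AlgebraicClosure k) M] {s : Gal(AlgebraicClosure k/k) →* Gal(M/K)}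
  [Algebra k K] [Algebra k M] [IsScalarTower k K M] [IsScalarTower k (AlgebraicClosure k) M]

open scoped Classical in
/-- the classes of a Selmer section along a point are those of rational points -/
theorem exists_classes (W : WeierstrassCurve k) [W.IsElliptic] [Algebra.IsAlgebraic K M]
    (hs : Continuous s)
    (hsec : ∀ σ a, s σ (algebraMap (AlgebraicClosure k) M a) =
      algebraMap (AlgebraicClosure k) M (σ a))
    (x : ∀ v : HeightOneSpectrum (𝓞 k), LocalPoint s v)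
    (P : (W⁄k).Point) (hP : ∀ n : ℕ, n ≠ 0 → n • P ≠ 0)
    (hrk : ∀ Q : (W⁄k).Point, ∃ a : ℤ, IsOfFinAddOrder (Q - a • P))
    {m : ℕ} (hm : 1 ≤ m) (hsha : ShaKilledBy W m) (η : (W⁄K).Point) {n : ℕ} (hn : 1 ≤ n)
    (hdiv : ∃ T : (W⁄M).Point, (n * m) • T = baseChange K M η) :
    ∃ a : ℤ, ∃ t ∈ {t : (W⁄k).Point | IsOfFinAddOrder t}, SameClass s n η (a • P + t) := by
  obtain ⟨T, hT⟩ := hdiv
  have hPb : ∀ n : ℕ, n ≠ 0 → n • baseChange k (AlgebraicClosure k) P ≠ 0 := by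
    intro n hn h
    rw [← map_nsmul] at h
    exact hP n hn ((bc_injective k (AlgebraicClosure k)) (by rw [h, _root_.map_zero]))
  obtain ⟨c, hc1, hc2, hc3⟩ := exists_cocycle s hs hsec _ hPb (Nat.mul_pos hn hm).ne' η T hT
  obtain ⟨e, he⟩ := hsha c hc3 hc2 (by
    intro v
    refine ⟨(x v).ι, (x v).isPlaceOf.val s T, fun σ τ h => ?_⟩
    rw [← (x v).isPlaceOf.val_const s, hc1, map_sub, (x v).isPlaceOf.val_act s σ τ h])
  obtain ⟨R, hR⟩ := kummer_class s hsec η T hT c hc1 e he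
  obtain ⟨a, ha⟩ := hrk R
  exact ⟨a, R - a • P, ha, by rw [add_sub_cancel]; exact hR⟩

open scoped Classical in
theorem curve_final (W : WeierstrassCurve k) [W.IsShortNF] [W.IsElliptic]
    [Algebra.IsAlgebraic K M] (htr : Algebra.trdeg k K = 1)
    (η₁ η₂ : (W⁄K).Point)
    (hind : ∀ a b : ℤ, (∃ Q : (W⁄k).Point, a • η₁ + b • η₂ = baseChange k K Q) → a = 0 ∧ b = 0)
    (hs : Continuous s)
    (hsec : ∀ σ a, s σ (algebraMap (AlgebraicClosure k) M a) =
      algebraMap (AlgebraicClosure k) M (σ a))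
    (S : Finset (HeightOneSpectrum (𝓞 k)))
    (x : ∀ v : HeightOneSpectrum (𝓞 k), v ∉ S → LocalPoint s v)
    (P : (W⁄k).Point) (hP : ∀ n : ℕ, n ≠ 0 → n • P ≠ 0)
    (hcl : (S = ∅ ∧ (∀ Q : (W⁄k).Point, ∃ a : ℤ, IsOfFinAddOrder (Q - a • P)) ∧
        (∃ m, 1 ≤ m ∧ ShaKilledBy W m) ∧ ∀ (η : (W⁄K).Point) (n : ℕ), 1 ≤ n →
          ∃ T : (W⁄M).Point, n • T = baseChange K M η) ∨
      (∃ T : Set (W⁄k).Point, T.Finite ∧ ∀ (η : (W⁄K).Point) (n : ℕ), 1 ≤ n →
        ∃ a : ℤ, ∃ t ∈ T, SameClass s n η (a • P + t))) :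
    ∃ Ψ : (W⁄K).Point →+ (W⁄k).Point,
      (∀ v hv η, HasValue (x v hv) η (baseChange k (v.adicCompletion k) (Ψ η))) ∧
      (∀ η (n : ℕ), 1 ≤ n → SameClass s n η (Ψ η)) ∧
      (∀ η R, (∀ n : ℕ, 1 ≤ n → SameClass s n η R) → R = Ψ η) ∧
      ∀ (I : Type) [Fintype I] (ξ : I → (W⁄K).Point), OnClosure ξ (fun i => Ψ (ξ i)) := by
  obtain ⟨T, hT, hcl'⟩ : (∃ T : Set (W⁄k).Point, T.Finite ∧ ∀ (η : (W⁄K).Point) n, 1 ≤ n →
      ∃ a : ℤ, ∃ t ∈ T, SameClass s n η (a • P + t)) := by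
    rcases hcl with ⟨hS, hrk, ⟨m, hm, hsha⟩, hdiv⟩ | h
    · refine ⟨_, torsion_finite (W := (W⁄k)), fun η n hn => ?_⟩
      exact exists_classes W hs hsec (fun v => x v (by rw [hS]; exact Finset.notMem_empty v)) P hP
        hrk hm hsha η hn (hdiv η (n * m) (Nat.mul_pos hn hm))
    · exact h
  have hgal : ∀ v : HeightOneSpectrum (𝓞 k),
      IsGalois (v.adicCompletion k) (AlgebraicClosure (v.adicCompletion k)) := by
    intro v
    have : CharZero (v.adicCompletion k) := charZero_of_injective_algebraMap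
      (algebraMap k (v.adicCompletion k)).injective
    infer_instance
  obtain ⟨Ψ, h1, h2, h3, h4⟩ := all_maps W (dmStatement W) (weakStatement W _)
    (weakStatement W _) htr η₁ η₂ hind s hsec S
    (fun v => AlgebraicClosure (v.adicCompletion k)) (fun v hv => (x v hv).ι)
    (fun v hv => (x v hv).O) (fun v hv => (x v hv).φ) (fun v hv => (x v hv).isPlaceOf) P hP T hT hcl'
  exact ⟨Ψ, fun v hv η => (x v hv).hasValue _ _ (h1 v hv η), h2, h3, h4⟩

end Pool.Agent.Lib.MP_2f3286_ag.Top
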