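import Pool.Agent.Lib.MP_2f3286_ag.Top.Main
import Pool.Agent.Lib.MP_2f3286_ag.Top.Weak

/-!
# Selmer sections along rank one elliptic curves: definitions and final assembly
-/

open WeierstrassCurve WeierstrassCurve.Affine WeierstrassCurve.Affine.Point
open IsDedekindDomain NumberField

namespace Pool.Agent.Lib.MP_2f3286_ag.Top

open scoped Classical in
/-- Every continuous 1-cocycle of the Galois group of `k` with values in the geometric points of
the elliptic curve `W` whose class is trivial at every finite place becomes a coboundary after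
multiplication by `m`. -/
def ShaKilledBy {k : Type*} [Field k] [NumberField k] (W : WeierstrassCurve k) (m : ℕ) : Prop :=
  ∀ c : Gal(AlgebraicClosure k/k) → (W⁄(AlgebraicClosure k)).Point, IsLocallyConstant c →
    (∀ σ τ, c (σ * τ) = c σ + Point.map (σ : AlgebraicClosure k →ₐ[k] AlgebraicClosure k) (c τ)) →
    (∀ v : HeightOneSpectrum (𝓞 k),
      ∃ (ι : AlgebraicClosure k →ₐ[k] AlgebraicClosure (v.adicCompletion k))
        (b : (W⁄(AlgebraicClosure (v.adicCompletion k))).Point),
        ∀ (σ : Gal(AlgebraicClosure k/k))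
          (τ : Gal(AlgebraicClosure (v.adicCompletion k)/(v.adicCompletion k))),
          (∀ a, ι (σ a) = τ (ι a)) → Point.map ι (c σ) =
            Point.map (τ : AlgebraicClosure (v.adicCompletion k) →ₐ[v.adicCompletion k]
              AlgebraicClosure (v.adicCompletion k)) b - b) →
    ∃ e : (W⁄(AlgebraicClosure k)).Point, ∀ σ : Gal(AlgebraicClosure k/k),
      m • c σ = Point.map (σ : AlgebraicClosure k →ₐ[k] AlgebraicClosure k) e - e

section defs

variable {k : Type*} [Field k] [NumberField k] {K M : Type*} [Field K] [Field M] [Algebra K M]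
  [Algebra (AlgebraicClosure k) M]

/-- A place of `M` witnessing that the section `s`, restricted to the decomposition group of the
finite place `v` of `k`, is the section of a `k_v`-rational point: a valuation ring `O` of `M`
with a local homomorphism `φ` to an algebraic closure of `k_v`, extending an embedding `ι` of the
algebraic closure of `k` and equivariant along `s`. -/
structure LocalPoint (s : Gal(AlgebraicClosure k/k) →* Gal(M/K)) (v : HeightOneSpectrum (𝓞 k))
    where
  ι : AlgebraicClosure k →ₐ[k] AlgebraicClosure (v.adicCompletion k)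
  O : ValuationSubring M
  φ : O →+* AlgebraicClosure (v.adicCompletion k)
  isLocal : IsLocalHom φ
  const : ∀ a : AlgebraicClosure k, ∃ h : algebraMap (AlgebraicClosure k) M a ∈ O, φ ⟨_, h⟩ = ι a
  equiv : ∀ (σ : Gal(AlgebraicClosure k/k))
    (τ : Gal(AlgebraicClosure (v.adicCompletion k)/(v.adicCompletion k))),
    (∀ a, ι (σ a) = τ (ι a)) → ∀ (m : M) (h : m ∈ O), ∃ h' : s σ m ∈ O,
      φ ⟨s σ m, h'⟩ = τ (φ ⟨m, h⟩)

variable [Algebra k K]

/-- The point `η` of the elliptic curve `W` over `K` (a morphism from the variety with function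
field `K` to the elliptic curve) takes the value `y` at the local point `x`. -/
def HasValue {s : Gal(AlgebraicClosure k/k) →* Gal(M/K)} {v : HeightOneSpectrum (𝓞 k)}
    (x : LocalPoint s v) {W : WeierstrassCurve k} :
    (W⁄K).Point → (W⁄(v.adicCompletion k)).Point → Prop
  | .zero, y => y = .zero
  | .some a b _, y => (algebraMap K M a ∉ x.O ∧ y = .zero) ∨
      ∃ a' b' h', y = .some a' b' h' ∧
        (∃ h : algebraMap K M a ∈ x.O, x.φ ⟨_, h⟩ = algebraMap _ _ a') ∧
        (∃ h : algebraMap K M b ∈ x.O, x.φ ⟨_, h⟩ = algebraMap _ _ b')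

variable [Algebra k M] [IsScalarTower k K M]

open scoped Classical in
/-- The Kummer class modulo `n` of the section `s` along `η` is that of the rational point `R`:
`η - R` is `n` times a point of `W` over `M` fixed by `s`. -/
def SameClass (s : Gal(AlgebraicClosure k/k) →* Gal(M/K)) {W : WeierstrassCurve k} (n : ℕ)
    (η : (W⁄K).Point) (R : (W⁄k).Point) : Prop :=
  ∃ ζ : (W⁄M).Point, (∀ σ, Point.map (s σ : M →ₐ[K] M) ζ = ζ) ∧
    n • ζ = Point.baseChange K M η - Point.baseChange k M R

end defs

section final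

variable {k : Type*} [Field k] [NumberField k] {K M : Type*} [Field K] [Field M] [Algebra K M]
  [Algebra (AlgebraicClosure k) M] {s : Gal(AlgebraicClosure k/k) →* Gal(M/K)}
  {v : HeightOneSpectrum (𝓞 k)}

theorem some_inj' {F : Type*} [Field F] {W : Affine F} {x y x' y' : F} {h : W.Nonsingular x y}
    {h' : W.Nonsingular x' y'} (e : some x y h = some x' y' h') : x = x' ∧ y = y' :=
  Point.some.inj e

theorem LocalPoint.isPlaceOf (x : LocalPoint s v) :
    IsPlaceOf (F := v.adicCompletion k) s x.ι x.O x.φ where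
  isLocal := x.isLocal
  const := x.const
  equiv := by
    intro σ τ h m a ⟨hm, ha⟩
    obtain ⟨h', e⟩ := x.equiv σ τ h m hm
    exact ⟨h', by rw [e, ha]⟩

variable [Algebra k K] [Algebra k M] [IsScalarTower k K M] [IsScalarTower k (AlgebraicClosure k) M]

open scoped Classical in
theorem LocalPoint.hasValue (x : LocalPoint s v) {W : WeierstrassCurve k} [W.IsElliptic]
    (η : (W⁄K).Point) (y : (W⁄(v.adicCompletion k)).Point)
    (h : x.isPlaceOf.val s (baseChange K M η) =
      baseChange (v.adicCompletion k) (AlgebraicClosure (v.adicCompletion k)) y) :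
    HasValue x η y := by
  have := x.isLocal
  rcases η with _ | ⟨a, b, hab⟩
  · show y = 0
    apply bc_injective (v.adicCompletion k) (AlgebraicClosure (v.adicCompletion k))
    rw [← h]
    rfl
  · have hns : (W⁄M).Nonsingular (algebraMap K M a) (algebraMap K M b) :=
      (Affine.baseChange_nonsingular W (Algebra.ofId K M).injective a b).mpr hab
    by_cases ha : algebraMap K M a ∈ x.O
    · have h1 := sp_of_mem (φ := x.φ) ha
      have h2 := sp_of_mem (φ := x.φ) (mem_y (x.isPlaceOf.curveSp s) ha hns.1)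
      have h3 := equation_iff_nonsingular.mp (h1.equation (x.isPlaceOf.curveSp s) h2 hns.1)
      have e1 : x.isPlaceOf.val s (baseChange K M (some a b hab)) = some _ _ h3 :=
        red_some (x.isPlaceOf.curveSp s) hns h1 h2 h3
      rw [e1] at h
      rcases y with _ | ⟨a', b', h'⟩
      · exact absurd h (some_ne_zero _)
      · right
        have h4 := some_inj' h
        exact ⟨a', b', h', rfl, ⟨ha, h4.1⟩, ⟨mem_y (x.isPlaceOf.curveSp s) ha hns.1, h4.2⟩⟩
    · left
      refine ⟨ha, ?_⟩
      have e1 : x.isPlaceOf.val s (baseChange K M (some a b hab)) = 0 :=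
        red_some_of_notMem (x.isPlaceOf.curveSp s) hns ha
      rw [e1] at h
      show y = 0
      apply bc_injective (v.adicCompletion k) (AlgebraicClosure (v.adicCompletion k))
      rw [← h]
      rfl

open scoped Classical in
theorem weakStatement (W : WeierstrassCurve k) (I : Type*) : WeakStatement W I := by
  intro P T hT A hA hAT
  have h1 := fun i => exists_compatible_exponents P T hT (A i) (hA i) (hAT i)
  choose t a h2 h3 h4 using h1
  exact ⟨t, a, h2, h3, h4⟩

open scoped Classical in
theorem final (W : WeierstrassCurve k) [W.IsElliptic] [Algebra.IsAlgebraic K M]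
    {I : Type*} [Fintype I] (hcore : CoreStatement W I)
    (η : I → (W⁄K).Point) (hs : Continuous s)
    (hsec : ∀ σ a, s σ (algebraMap (AlgebraicClosure k) M a) =
      algebraMap (AlgebraicClosure k) M (σ a))
    (S : Finset (HeightOneSpectrum (𝓞 k)))
    (x : ∀ v : HeightOneSpectrum (𝓞 k), v ∉ S → LocalPoint s v)
    (P : (W⁄k).Point) (hP : ∀ n : ℕ, n ≠ 0 → n • P ≠ 0)
    (hcl : (S = ∅ ∧ (∀ Q : (W⁄k).Point, ∃ a : ℤ, IsOfFinAddOrder (Q - a • P)) ∧
        (∃ m, 1 ≤ m ∧ ShaKilledBy W m) ∧ ∀ i (n : ℕ), 1 ≤ n → ∃ T : (W⁄M).Point,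
          n • T = baseChange K M (η i)) ∨
      (∃ T : Set (W⁄k).Point, T.Finite ∧ ∀ i n, 1 ≤ n → ∃ a : ℤ, ∃ t ∈ T,
        SameClass s n (η i) (a • P + t))) :
    (∀ N : ℕ, 1 ≤ N → ∃ R : I → (W⁄k).Point, OnClosure η R ∧ (∀ i, SameClass s N (η i) (R i)) ∧
      ∀ v hv i, ∃ z, HasValue (x v hv) (η i) (baseChange k (v.adicCompletion k) (R i) + N • z)) ∧
    ({R : I → (W⁄k).Point | OnClosure η R}.Finite → ∃ R : I → (W⁄k).Point, OnClosure η R ∧
      (∀ N : ℕ, 1 ≤ N → ∀ i, SameClass s N (η i) (R i)) ∧
      (∀ v hv i, HasValue (x v hv) (η i) (baseChange k (v.adicCompletion k) (R i))) ∧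
      ∀ R' : I → (W⁄k).Point, (∀ N : ℕ, 1 ≤ N → ∀ i, SameClass s N (η i) (R' i)) → R' = R) := by
  obtain ⟨T, hT, hcl'⟩ : (∃ T : Set (W⁄k).Point, T.Finite ∧ ∀ i n, 1 ≤ n → ∃ a : ℤ, ∃ t ∈ T,
      SameClass s n (η i) (a • P + t)) := by
    rcases hcl with ⟨hS, hrk, ⟨m, hm, hsha⟩, hdiv⟩ | h
    · refine ⟨_, torsion_finite (W := (W⁄k)), fun i n hn => ?_⟩
      obtain ⟨T, hT⟩ := hdiv i (n * m) (Nat.mul_pos hn hm)
      have hPb : ∀ n : ℕ, n ≠ 0 → n • baseChange k (AlgebraicClosure k) P ≠ 0 := by
        intro n hn h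
        rw [← map_nsmul] at h
        exact hP n hn ((bc_injective k (AlgebraicClosure k)) (by rw [h, _root_.map_zero]))
      obtain ⟨c, hc1, hc2, hc3⟩ := exists_cocycle s hs hsec _ hPb (Nat.mul_pos hn hm).ne' (η i) T hT
      obtain ⟨e, he⟩ := hsha c hc3 hc2 (by
        intro v
        have hv : v ∉ S := by rw [hS]; exact Finset.notMem_empty v
        refine ⟨(x v hv).ι, (x v hv).isPlaceOf.val s T, fun σ τ h => ?_⟩
        rw [← (x v hv).isPlaceOf.val_const s, hc1, map_sub, (x v hv).isPlaceOf.val_act s σ τ h])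
      obtain ⟨R, hR⟩ := kummer_class s hsec (η i) T hT c hc1 e he
      obtain ⟨a, ha⟩ := hrk R
      exact ⟨a, R - a • P, ha, by rw [add_sub_cancel]; exact hR⟩
    · exact h
  have hgal : ∀ v : HeightOneSpectrum (𝓞 k),
      IsGalois (v.adicCompletion k) (AlgebraicClosure (v.adicCompletion k)) := by
    intro v
    have : CharZero (v.adicCompletion k) := charZero_of_injective_algebraMap
      (algebraMap k (v.adicCompletion k)).injective
    infer_instance
  obtain ⟨c1, c2⟩ := main W hcore (weakStatement W I) η s hsec S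
    (fun v => AlgebraicClosure (v.adicCompletion k)) (fun v hv => (x v hv).ι)
    (fun v hv => (x v hv).O) (fun v hv => (x v hv).φ) (fun v hv => (x v hv).isPlaceOf) P hP T hT hcl'
  refine ⟨fun N hN => ?_, fun hfin => ?_⟩
  · obtain ⟨R, h1, h2, h3⟩ := c1 N hN
    refine ⟨R, h1, h2, fun v hv i => ?_⟩
    obtain ⟨z, hz⟩ := h3 v hv i
    exact ⟨z, (x v hv).hasValue _ _ hz⟩
  · obtain ⟨R, h1, h2, h3, h4⟩ := c2 hfin
    exact ⟨R, h1, h2, fun v hv i => (x v hv).hasValue _ _ (h3 v hv i), h4⟩

end final

end Pool.Agent.Lib.MP_2f3286_ag.Top
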