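import Pool.Agent.Lib.MP_2f3286_ag.Ell.Height

/-!
# Torsion and divisible points over number fields
-/

open WeierstrassCurve WeierstrassCurve.Affine WeierstrassCurve.Affine.Point

namespace Pool.Agent.Lib.MP_2f3286_ag.Top

open Pool.Agent.Lib.MP_2f3286_ag.Ell

variable {k : Type*} [Field k] [NumberField k] [DecidableEq k] (W : Affine k) [W.IsElliptic]

theorem torsion_finite : {t : W.Point | IsOfFinAddOrder t}.Finite := by
  obtain ⟨q, C, h1, h2, -⟩ := height_cyclic W
  have hq0 : q 0 = 0 := by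
    have := h2 0 0 0 1 one_pos (by simp)
    simpa using this
  refine (finite_height_le W C).subset ?_
  intro t ht
  obtain ⟨m, hm, hmt⟩ := isOfFinAddOrder_iff_nsmul_eq_zero.mp ht
  have h3 := h2 0 0 t m hm hmt
  rw [zero_smul, zero_add, hq0, mul_zero] at h3
  have h4 := h1 t
  rw [h3, sub_zero, abs_le] at h4
  exact h4.2

/-- a point divisible by all integers is zero -/
theorem eq_zero_of_divisible (R : W.Point) (h : ∀ n : ℕ, 1 ≤ n → ∃ D, R = n • D) : R = 0 := by
  obtain ⟨q, C, h1, h2, h3⟩ := height_cyclic W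
  by_cases hR : IsOfFinAddOrder R
  · -- torsion
    have hfin := torsion_finite W
    -- exponent of torsion
    obtain ⟨e, he, hek⟩ : ∃ e : ℕ, 1 ≤ e ∧ ∀ t : W.Point, IsOfFinAddOrder t → e • t = 0 := by
      refine ⟨∏ t ∈ hfin.toFinset, addOrderOf t, ?_, ?_⟩
      · refine Nat.succ_le_of_lt (Finset.prod_pos fun t ht => ?_)
        rw [Set.Finite.mem_toFinset] at ht
        exact IsOfFinAddOrder.addOrderOf_pos ht
      · intro t ht
        rw [← addOrderOf_dvd_iff_nsmul_eq_zero]
        exact Finset.dvd_prod_of_mem _ ((Set.Finite.mem_toFinset hfin).mpr ht)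
    obtain ⟨D, hD⟩ := h e he
    have hDt : IsOfFinAddOrder D := by
      rw [hD] at hR
      obtain ⟨m, hm, hmt⟩ := isOfFinAddOrder_iff_nsmul_eq_zero.mp hR
      rw [isOfFinAddOrder_iff_nsmul_eq_zero]
      exact ⟨m * e, Nat.mul_pos hm he, by rw [mul_smul, hmt]⟩
    rw [hD, hek D hDt]
  · exfalso
    choose! D hD using h
    have hnot : ∀ n, 1 ≤ n → ¬ IsOfFinAddOrder (D n) := by
      intro n hn ht
      apply hR
      obtain ⟨m, hm, hmt⟩ := isOfFinAddOrder_iff_nsmul_eq_zero.mp ht
      rw [isOfFinAddOrder_iff_nsmul_eq_zero]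
      exact ⟨m, hm, by rw [hD n hn, smul_comm, hmt, smul_zero]⟩
    have hqpos : ∀ n, 1 ≤ n → 0 < q (D n) := by
      intro n hn
      apply h3
      intro m hm hmt
      exact hnot n hn (isOfFinAddOrder_iff_nsmul_eq_zero.mpr ⟨m, hm, hmt⟩)
    have hqn : ∀ n : ℕ, 1 ≤ n → q R = (n : ℝ) ^ 2 * q (D n) := by
      intro n hn
      have := h2 n (D n) 0 1 one_pos (by simp)
      rw [add_zero, natCast_zsmul, ← hD n hn] at this
      exact_mod_cast this
    have hqle : ∀ n : ℕ, 1 ≤ n → q (D n) ≤ q R := by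
      intro n hn
      rw [hqn n hn]
      have h5 : (1 : ℝ) ≤ (n : ℝ) ^ 2 := by
        have : (1 : ℝ) ≤ n := by exact_mod_cast hn
        nlinarith
      nlinarith [hqpos n hn]
    have hfin := finite_height_le W (C + q R)
    have hmem : ∀ n : ℕ, D (n + 1) ∈ {Q : W.Point | nht Q ≤ C + q R} := by
      intro n
      have h5 := h1 (D (n + 1))
      rw [abs_le] at h5
      have h6 := hqle (n + 1) (by omega)
      simp only [Set.mem_ofPred_eq]
      linarith [h5.2]
    have hninj : ¬ Function.Injective (fun n : ℕ => D (n + 1)) := by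
      intro hinj
      exact (Set.infinite_range_of_injective hinj) (hfin.subset (by rintro _ ⟨n, rfl⟩; exact hmem n))
    rw [Function.not_injective_iff] at hninj
    obtain ⟨a, b, hab, hne⟩ := hninj
    have h7 := hqn (a + 1) (by omega)
    have h8 := hqn (b + 1) (by omega)
    have hab' : D (a + 1) = D (b + 1) := hab
    rw [hab'] at h7
    rw [h7] at h8
    have h9 := mul_right_cancel₀ (hqpos (b + 1) (by omega)).ne' h8
    have h10 : ((a + 1 : ℕ) : ℝ) = ((b + 1 : ℕ) : ℝ) := by
      have ha0 : (0 : ℝ) ≤ ((a + 1 : ℕ) : ℝ) := by positivity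
      have hb0 : (0 : ℝ) ≤ ((b + 1 : ℕ) : ℝ) := by positivity
      exact (pow_left_inj₀ ha0 hb0 two_ne_zero).mp h9
    have h11 : a + 1 = b + 1 := by exact_mod_cast h10
    omega

end Pool.Agent.Lib.MP_2f3286_ag.Top
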