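import Pool.Agent.Lib.MP_2f3286_ag.Top.All
import Pool.Agent.Lib.MP_2f3286_ag.Top.Final

/-!
# The homomorphism attached to a section
-/

open WeierstrassCurve WeierstrassCurve.Affine WeierstrassCurve.Affine.Point
open IsDedekindDomain NumberField

namespace Pool.Agent.Lib.MP_2f3286_ag.Top

open Pool.Agent.Lib.MP_2f3286_ag.E

theorem exists_place_notMem {k : Type*} [Field k] [NumberField k]
    (S : Finset (HeightOneSpectrum (𝓞 k))) : ∃ v : HeightOneSpectrum (𝓞 k), v ∉ S := by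
  classical
  by_contra hall
  push Not at hall
  obtain ⟨N, hN0, hN⟩ : ∃ N : ℕ, N ≠ 0 ∧ ∀ v : HeightOneSpectrum (𝓞 k),
      Ideal.absNorm v.asIdeal ∣ N := by
    refine ⟨∏ v ∈ S, Ideal.absNorm v.asIdeal, ?_, fun v => ?_⟩
    · rw [Finset.prod_ne_zero_iff]
      intro v _
      rw [Ne, Ideal.absNorm_eq_zero_iff]
      exact v.ne_bot
    · exact Finset.dvd_prod_of_mem (fun v : HeightOneSpectrum (𝓞 k) => Ideal.absNorm v.asIdeal)
        (hall v)
  obtain ⟨p, hpN, hp⟩ := Nat.exists_infinite_primes (N + 1)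
  have hp' : Prime (p : ℤ) := Nat.prime_iff_prime_int.mp hp
  have hprime : (Ideal.span {(p : ℤ)}).IsPrime := by
    rw [Ideal.span_singleton_prime hp'.ne_zero]
    exact hp'
  obtain ⟨Q, hQ, hQo⟩ : Nonempty (Ideal.primesOver (Ideal.span {(p : ℤ)}) (𝓞 k)) :=
    Ideal.nonempty_primesOver _
  have hover := hQo.over
  have hpQ : (p : 𝓞 k) ∈ Q := by
    have h1 : (p : ℤ) ∈ Ideal.span {(p : ℤ)} := Ideal.mem_span_singleton_self _
    rw [hover, Ideal.under_def, Ideal.mem_comap] at h1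
    simpa using h1
  have hQ0 : Q ≠ ⊥ := by
    rintro rfl
    rw [Ideal.mem_bot] at hpQ
    exact hp.ne_zero (by exact_mod_cast hpQ)
  have h3 : Ideal.absNorm Q ∣ N := hN ⟨Q, hQ, hQ0⟩
  have h7 : ((Ideal.absNorm Q : ℕ) : 𝓞 k) ∈ Q := Ideal.absNorm_mem Q
  have h4 : ((N : ℕ) : 𝓞 k) ∈ Q := by
    obtain ⟨c, hc⟩ := h3
    rw [hc, Nat.cast_mul]
    exact Ideal.mul_mem_right _ _ h7
  have h5 : (N : ℤ) ∈ Ideal.span {(p : ℤ)} := by
    rw [hover, Ideal.under_def, Ideal.mem_comap]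
    simpa using h4
  rw [Ideal.mem_span_singleton] at h5
  have h6 : p ∣ N := by exact_mod_cast h5
  have := Nat.le_of_dvd (Nat.pos_of_ne_zero hN0) h6
  omega

section curve

variable {k : Type*} [Field k] [NumberField k] [DecidableEq k]
  {kb : Type*} [Field kb] [Algebra k kb] [IsGalois k kb] [IsAlgClosed kb]
  {K M : Type*} [Field K] [Field M] [Algebra k K] [Algebra K M] [Algebra k M] [IsScalarTower k K M]
  [Algebra kb M] [IsScalarTower k kb M]
  [DecidableEq kb] [DecidableEq K] [DecidableEq M]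

theorem exists_exponents (W : Affine k) [W.IsElliptic] {I : Type*} (hweak : WeakStatement W I)
    (s : Gal(kb/k) →* Gal(M/K))
    (hsec : ∀ σ a, s σ (algebraMap kb M a) = algebraMap kb M (σ a)) (η : I → (W⁄K).Point)
    (P : (W⁄k).Point) (hP : ∀ n : ℕ, n ≠ 0 → n • P ≠ 0) (T : Set (W⁄k).Point) (hT : T.Finite)
    (hcl : ∀ i n, 1 ≤ n → ∃ m : ℤ, ∃ t ∈ T, IsClass s W n (η i) (m • P + t)) :
    ∃ (t : I → (W⁄k).Point) (a : I → ℕ → ℤ), (∀ i, t i ∈ T) ∧
      (∀ (i : I) (n m : ℕ), 1 ≤ m → n ∣ m → (n : ℤ) ∣ a i m - a i n) ∧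
      ∀ i n, 1 ≤ n → IsClass s W n (η i) (a i n • P + t i) := by
  have hinjk : Function.Injective (baseChange k kb (W' := W)) := bc_injective k kb
  have hPb : ∀ n : ℕ, n ≠ 0 → n • baseChange k kb P ≠ 0 := by
    intro n hn h
    rw [← map_nsmul] at h
    exact hP n hn (hinjk (by rw [h, _root_.map_zero]))
  choose! mm tt hcl' using hcl
  have hcompat : ∀ i n m, 1 ≤ n → 1 ≤ m → ∃ B : (W⁄k).Point,
      (mm i (n * m) • P + tt i (n * m)) - (mm i n • P + tt i n) = n • B := by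
    intro i n m hn hm
    exact IsClass.unique s hsec _ hPb (by omega) (hcl' i n hn).2
      (hcl' i (n * m) (Nat.mul_pos hn hm)).2.of_mul
  obtain ⟨t, a, htT, ha, hA⟩ := hweak P T hT (fun i n => mm i n • P + tt i n) hcompat
    (fun i n hn => ⟨mm i n, tt i n, (hcl' i n hn).1, rfl⟩)
  refine ⟨t, a, htT, ha, ?_⟩
  intro i n hn
  obtain ⟨B, hB⟩ := hA i n hn
  refine (hcl' i n hn).2.congr s (D := -B) ?_
  rw [smul_neg, ← hB, neg_sub]

theorem class_of_dvd {W : Affine k} {s : Gal(kb/k) →* Gal(M/K)} {η : (W⁄K).Point}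
    {P t : (W⁄k).Point} {a : ℕ → ℤ} (hcl : ∀ n, 1 ≤ n → IsClass s W n η (a n • P + t)) {n : ℕ}
    {m : ℤ} (hn : 1 ≤ n) (h : (n : ℤ) ∣ m - a n) : IsClass s W n η (m • P + t) := by
  obtain ⟨q, hq⟩ := h
  refine (hcl n hn).congr s (D := q • P) ?_
  rw [add_sub_add_right_eq_sub, ← sub_smul, hq, mul_smul, natCast_zsmul]

theorem all_maps (W : Affine k) [W.IsShortNF] [W.IsElliptic]
    [∀ v : HeightOneSpectrum (𝓞 k), DecidableEq (v.adicCompletion k)]
    (hDM : DMStatement W) (hweak2 : WeakStatement W (Fin 2)) (hweak1 : WeakStatement W Unit)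
    (htr : Algebra.trdeg k K = 1)
    (η₁ η₂ : (W⁄K).Point)
    (hind : ∀ a b : ℤ, (∃ Q : (W⁄k).Point, a • η₁ + b • η₂ = baseChange k K Q) → a = 0 ∧ b = 0)
    (s : Gal(kb/k) →* Gal(M/K))
    (hsec : ∀ σ a, s σ (algebraMap kb M a) = algebraMap kb M (σ a))
    (S : Finset (HeightOneSpectrum (𝓞 k)))
    (Fb : HeightOneSpectrum (𝓞 k) → Type*) [∀ v, Field (Fb v)] [∀ v, Algebra k (Fb v)]
    [∀ v, Algebra (v.adicCompletion k) (Fb v)] [∀ v, IsScalarTower k (v.adicCompletion k) (Fb v)]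
    [∀ v, IsGalois (v.adicCompletion k) (Fb v)] [∀ v, DecidableEq (Fb v)]
    (ι : ∀ v, v ∉ S → (kb →ₐ[k] Fb v)) (O : ∀ v, v ∉ S → ValuationSubring M)
    (φ : ∀ v (hv : v ∉ S), O v hv →+* Fb v)
    (hpl : ∀ v (hv : v ∉ S), IsPlaceOf (F := v.adicCompletion k) s (ι v hv) (O v hv) (φ v hv))
    (P : (W⁄k).Point) (hP : ∀ n : ℕ, n ≠ 0 → n • P ≠ 0) (T : Set (W⁄k).Point) (hT : T.Finite)
    (hcl : ∀ η n, 1 ≤ n → ∃ m : ℤ, ∃ t ∈ T, IsClass s W n η (m • P + t)) :
    ∃ Ψ : (W⁄K).Point →+ (W⁄k).Point,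
      (∀ v (hv : v ∉ S) η, (hpl v hv).val s (baseChange K M η) =
        baseChange (v.adicCompletion k) (Fb v) (baseChange k (v.adicCompletion k) (Ψ η))) ∧
      (∀ η (n : ℕ), 1 ≤ n → IsClass s W n η (Ψ η)) ∧
      (∀ η R, (∀ n : ℕ, 1 ≤ n → IsClass s W n η R) → R = Ψ η) ∧
      ∀ (I : Type) [Fintype I] (ξ : I → (W⁄K).Point), OnClosure ξ (fun i => Ψ (ξ i)) := by
  classical
  have hinjk : Function.Injective (baseChange k kb (W' := W)) := bc_injective k kb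
  have hPb : ∀ n : ℕ, n ≠ 0 → n • baseChange k kb P ≠ 0 := by
    intro n hn h
    rw [← map_nsmul] at h
    exact hP n hn (hinjk (by rw [h, _root_.map_zero]))
  have huniq : ∀ (η : (W⁄K).Point) (R R' : (W⁄k).Point),
      (∀ n : ℕ, 1 ≤ n → IsClass s W n η R) → (∀ n : ℕ, 1 ≤ n → IsClass s W n η R') → R' = R := by
    intro η R R' h h'
    rw [← sub_eq_zero]
    apply eq_zero_of_divisible (W := (W⁄k))
    intro N hN
    exact IsClass.unique s hsec _ hPb (by omega) (h N hN) (h' N hN)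
  -- the two independent maps
  obtain ⟨t, a, -, ha, hcl2⟩ := exists_exponents W hweak2 s hsec ![η₁, η₂] P hP T hT
    (fun i n hn => hcl _ n hn)
  obtain ⟨m, hm, hval⟩ := two_maps W hDM htr ![η₁, η₂] hind s hsec S Fb ι O φ hpl P hP t a ha hcl2
  have hη₁ : ¬ ∃ Q : (W⁄k).Point, η₁ = baseChange k K Q := by
    rintro ⟨Q, hQ⟩
    have := (hind 1 0 ⟨Q, by rw [one_smul, zero_smul, add_zero]; exact hQ⟩).1
    exact one_ne_zero this
  -- all maps
  have hall : ∀ η : (W⁄K).Point, ∃ R : (W⁄k).Point, (∀ n : ℕ, 1 ≤ n → IsClass s W n η R) ∧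
      ∀ v (hv : v ∉ S), (hpl v hv).valK s η = baseChange k (v.adicCompletion k) R := by
    intro η
    by_cases hη : ∃ Q : (W⁄k).Point, η = baseChange k K Q
    · obtain ⟨Q, rfl⟩ := hη
      exact ⟨Q, fun n _ => isClass_const s n Q, fun v hv => (hpl v hv).valK_const s Q⟩
    · obtain ⟨t', a', -, ha', hcl1⟩ := exists_exponents W hweak1 s hsec (fun _ => η) P hP T hT
        (fun i n hn => hcl _ n hn)
      obtain ⟨m', hm', hval'⟩ := third_map W htr η₁ hη₁ s hsec S Fb ι O φ hpl (m 0 • P + t 0)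
        (fun v hv => hval v hv 0) P hP η hη (t' ()) (a' ()) (fun n m => ha' () n m)
        (fun n hn => hcl1 () n hn)
      exact ⟨m' • P + t' (), fun n hn => class_of_dvd (hcl1 ()) hn (hm' n hn), hval'⟩
  choose Ψ hΨ1 hΨ2 using hall
  let Ψ' : (W⁄K).Point →+ (W⁄k).Point := AddMonoidHom.mk' Ψ (by
    intro η η'
    exact huniq (η + η') _ _ (fun n hn => (hΨ1 η n hn).add (hΨ1 η' n hn)) (hΨ1 (η + η')))
  refine ⟨Ψ', ?_, hΨ1, fun η R h => huniq η _ _ (hΨ1 η) h, ?_⟩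
  · intro v hv η
    rw [← (hpl v hv).valK_spec s η, hΨ2 η v hv]
    rfl
  · intro I _ ξ G d hd hG
    obtain ⟨v, hv⟩ := exists_place_notMem S
    have h1 := (hpl v hv).valK_rel s ξ hd hG
    have h2 : (fun j => (hpl v hv).valK s (ξ j)) =
        fun j => baseChange k (v.adicCompletion k) (Ψ (ξ j)) := by
      funext j
      exact hΨ2 (ξ j) v hv
    rw [h2, crds_baseChange] at h1
    exact (algebraMap k (v.adicCompletion k)).injective
      (h1.trans (_root_.map_zero (algebraMap k (v.adicCompletion k))).symm)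

end curve

end Pool.Agent.Lib.MP_2f3286_ag.Top
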