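import Pool.Agent.Lib.MP_2f3286_ag.Top.Sec

/-!
# Kummer classes of sections along points of an elliptic curve
-/

open WeierstrassCurve WeierstrassCurve.Affine WeierstrassCurve.Affine.Point

namespace Pool.Agent.Lib.MP_2f3286_ag.Top

/-- restriction of automorphisms along an embedding -/
theorem exists_restrict' {k kb F Fb : Type*} [Field k] [Field kb] [Algebra k kb] [IsGalois k kb]
    [Field F] [Field Fb] [Algebra k F] [Algebra F Fb]
    [Algebra k Fb] [IsScalarTower k F Fb] (ι : kb →ₐ[k] Fb) (τ : Gal(Fb/F)) :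
    ∃ σ : Gal(kb/k), ∀ a, ι (σ a) = τ (ι a) := by
  let _ : Algebra kb Fb := ι.toRingHom.toAlgebra
  have : IsScalarTower k kb Fb := IsScalarTower.of_algebraMap_eq fun x => (ι.commutes x).symm
  let τ' : Gal(Fb/k) := τ.restrictScalars k
  refine ⟨τ'.restrictNormal kb, fun a => ?_⟩
  exact AlgEquiv.restrictNormal_commutes τ' kb a

variable {k : Type*} [Field k] {W : Affine k}

theorem bc_bc {F L : Type*} [Field F] [Field L] [Algebra k F] [Algebra k L] [Algebra F L]
    [IsScalarTower k F L] [DecidableEq k] [DecidableEq F] [DecidableEq L] (R : (W⁄k).Point) :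
    baseChange F L (baseChange k F R) = baseChange k L R := by
  rcases R with _ | ⟨x, y, h⟩
  · rfl
  · exact some_ext _ _ (IsScalarTower.algebraMap_apply k F L x).symm
      (IsScalarTower.algebraMap_apply k F L y).symm

theorem bc_injective (F L : Type*) [Field F] [Field L] [Algebra k F] [Algebra k L] [Algebra F L]
    [IsScalarTower k F L] [DecidableEq F] [DecidableEq L] :
    Function.Injective (baseChange F L (W' := W)) := map_injective _

variable {kb : Type*} [Field kb] [Algebra k kb]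
  {K M : Type*} [Field K] [Field M] [Algebra k K] [Algebra K M] [Algebra k M] [IsScalarTower k K M]
  [Algebra kb M] [IsScalarTower k kb M]
  [DecidableEq k] [DecidableEq kb] [DecidableEq K] [DecidableEq M]
  (s : Gal(kb/k) →* Gal(M/K))

/-- `ζ` witnesses that the level `n` Kummer class of `s` along `η` is that of `R`. -/
def IsClass (W : Affine k) (n : ℕ) (η : (W⁄K).Point) (R : (W⁄k).Point) : Prop :=
  ∃ ζ : (W⁄M).Point, (∀ σ, act W (s σ) ζ = ζ) ∧ n • ζ = baseChange K M η - baseChange k M R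

theorem kummer_class [IsGalois k kb]
    (hsec : ∀ σ a, s σ (algebraMap kb M a) = algebraMap kb M (σ a)) {m n : ℕ}
    (η : (W⁄K).Point) (T : (W⁄M).Point) (hT : (n * m) • T = baseChange K M η)
    (c : Gal(kb/k) → (W⁄kb).Point) (hc : ∀ σ, baseChange kb M (c σ) = act W (s σ) T - T)
    (e : (W⁄kb).Point) (he : ∀ σ, m • c σ = act W σ e - e) :
    ∃ R : (W⁄k).Point, IsClass s W n η R := by
  have h1 : ∀ σ, act W (s σ) (m • T - baseChange kb M e) = m • T - baseChange kb M e := by
    intro σ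
    have h2 := congrArg (baseChange kb M) (he σ)
    rw [map_nsmul, hc, map_sub, ← act_const s hsec, smul_sub] at h2
    rw [map_sub, map_nsmul]
    rw [sub_eq_sub_iff_add_eq_add] at h2 ⊢
    rw [h2, add_comm]
  have h3 : n • (m • T - baseChange kb M e) = baseChange K M η - baseChange kb M (n • e) := by
    rw [smul_sub, ← mul_smul, hT, map_nsmul]
  obtain ⟨R, hR⟩ := exists_of_fixed_const s hsec (n • e) (by
    intro σ
    have h4 : baseChange kb M (n • e) = baseChange K M η - n • (m • T - baseChange kb M e) := by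
      rw [h3, sub_sub_cancel]
    rw [h4, map_sub, map_nsmul, h1, act_baseChange])
  refine ⟨R, m • T - baseChange kb M e, h1, ?_⟩
  rw [h3, ← hR, bc_bc]

theorem IsClass.unique [IsGalois k kb] [IsAlgClosed kb] [W.IsElliptic]
    (hsec : ∀ σ a, s σ (algebraMap kb M a) = algebraMap kb M (σ a))
    (P : (W⁄kb).Point) (hP : ∀ n : ℕ, n ≠ 0 → n • P ≠ 0) {n : ℕ} (hn : n ≠ 0)
    {η : (W⁄K).Point} {R R' : (W⁄k).Point} (h : IsClass s W n η R) (h' : IsClass s W n η R') :
    ∃ D : (W⁄k).Point, R' - R = n • D := by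
  obtain ⟨ζ, h1, h2⟩ := h
  obtain ⟨ζ', h1', h2'⟩ := h'
  have h3 : n • (ζ - ζ') = baseChange kb M (baseChange k kb (R' - R)) := by
    rw [smul_sub, h2, h2', bc_bc, map_sub]
    abel
  obtain ⟨D', hD'⟩ := descend P hP hn _ _ h3
  obtain ⟨D, hD⟩ := exists_of_fixed_const s hsec D' (by
    intro σ
    rw [hD', map_sub, h1, h1'])
  refine ⟨D, ?_⟩
  apply bc_injective k kb
  apply bc_injective kb M
  rw [← h3, map_nsmul, map_nsmul, hD, hD']

theorem IsClass.of_mul {n m : ℕ} {η : (W⁄K).Point} {R : (W⁄k).Point} (h : IsClass s W (n * m) η R) :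
    IsClass s W n η R := by
  obtain ⟨ζ, h1, h2⟩ := h
  refine ⟨m • ζ, fun σ => by rw [map_nsmul, h1], ?_⟩
  rw [← mul_smul, h2]

theorem IsClass.congr {n : ℕ} {η : (W⁄K).Point} {R R' D : (W⁄k).Point} (h : IsClass s W n η R)
    (hD : R' - R = n • D) : IsClass s W n η R' := by
  obtain ⟨ζ, h1, h2⟩ := h
  refine ⟨ζ - baseChange k M D, fun σ => ?_, ?_⟩
  · rw [map_sub, h1]
    congr 1
    rw [← bc_bc (F := K) (L := M), act_baseChange]
  · rw [smul_sub, h2, ← map_nsmul, ← hD, map_sub]
    abel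

section place

variable {F Fb : Type*} [Field F] [Field Fb] [Algebra k F] [Algebra F Fb] [Algebra k Fb]
  [IsScalarTower k F Fb] {ι : kb →ₐ[k] Fb} {O : ValuationSubring M} {φ : O →+* Fb}
  (hpl : IsPlaceOf (F := F) s ι O φ) [DecidableEq F] [DecidableEq Fb] [W.IsElliptic]
  [IsGalois k kb] [IsGalois F Fb]

include hpl

theorem IsPlaceOf.exists_val {ζ : (W⁄M).Point} (hζ : ∀ σ, act W (s σ) ζ = ζ) :
    ∃ z : (W⁄F).Point, baseChange F Fb z = hpl.val s ζ := by
  apply exists_of_fixed
  intro τ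
  obtain ⟨σ, hσ⟩ := exists_restrict' ι τ
  rw [← hpl.val_act s σ τ hσ, hζ]

theorem IsPlaceOf.val_bc (R : (W⁄k).Point) :
    hpl.val s (baseChange k M R) = baseChange k Fb R := by
  have := hpl.isLocal
  rcases R with _ | ⟨x, y, h⟩
  · rfl
  · have hsp : ∀ a : k, Sp O φ (algebraMap k M a) (algebraMap k Fb a) := by
      intro a
      have := hpl.const (algebraMap k kb a)
      rwa [← IsScalarTower.algebraMap_apply, ι.commutes] at this
    exact red_some (hpl.curveSp s)
      ((W.baseChange_nonsingular (Algebra.ofId k M).injective x y).mpr h)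
      (hsp x) (hsp y) _

/-- the local point attached to a class -/
theorem IsPlaceOf.class_val {n : ℕ} {η : (W⁄K).Point} {R : (W⁄k).Point}
    (h : IsClass s W n η R) {y : (W⁄F).Point}
    (hy : baseChange F Fb y = hpl.val s (baseChange K M η)) :
    ∃ z : (W⁄F).Point, y = baseChange k F R + n • z := by
  obtain ⟨ζ, h1, h2⟩ := h
  obtain ⟨z, hz⟩ := hpl.exists_val s h1
  refine ⟨z, ?_⟩
  apply bc_injective F Fb
  rw [map_add, map_nsmul, hz, hy, bc_bc, ← map_nsmul, h2, map_sub, hpl.val_bc]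
  abel

end place

end Pool.Agent.Lib.MP_2f3286_ag.Top
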