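import Pool.Agent.Lib.MP_2f3286_ag.Top.Kum
import Pool.Agent.Lib.MP_2f3286_ag.Top.Rel
import Pool.Agent.Lib.MP_2f3286_ag.Top.Glob

/-!
# From sections to global points
-/

open WeierstrassCurve WeierstrassCurve.Affine WeierstrassCurve.Affine.Point
open IsDedekindDomain NumberField

namespace Pool.Agent.Lib.MP_2f3286_ag.Top

open Pool.Agent.Lib.MP_2f3286_ag.E

variable {k : Type*} [Field k] [NumberField k] [DecidableEq k]

/-- the adelic core -/
def CoreStatement (W : Affine k) (I : Type*) [Fintype I]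
    [∀ v : HeightOneSpectrum (𝓞 k), DecidableEq (v.adicCompletion k)] : Prop :=
  ∀ (S : Finset (HeightOneSpectrum (𝓞 k))) (P : (W⁄k).Point) (_ : ∀ n : ℕ, n ≠ 0 → n • P ≠ 0)
    (t : I → (W⁄k).Point) (a : I → ℕ → ℤ) (_ : ∀ (i : I) (n m : ℕ), 1 ≤ m → n ∣ m → (n : ℤ) ∣ a i m - a i n)
    (y : ∀ v : HeightOneSpectrum (𝓞 k), I → (W⁄(v.adicCompletion k)).Point)
    (_ : ∀ v ∉ S, ∀ i n, 1 ≤ n → ∃ z, y v i =
      baseChange k (v.adicCompletion k) (a i n • P + t i) + n • z)
    (Rel : Set (MvPolynomial (I × Fin 3) k)) (_ : ∀ G ∈ Rel, ∃ d, MultiHom G d)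
    (S' : Finset (HeightOneSpectrum (𝓞 k)))
    (_ : ∀ v ∉ S', ∀ G ∈ Rel, MvPolynomial.aeval (crds (y v)) G = 0),
    (∀ N : ℕ, 1 ≤ N → ∃ m : I → ℤ, (∀ i, (N : ℤ) ∣ m i - a i N) ∧
      ∀ G ∈ Rel, MvPolynomial.aeval (crds fun i => m i • P + t i) G = 0) ∧
    ({m : I → ℤ | ∀ G ∈ Rel, MvPolynomial.aeval (crds fun i => m i • P + t i) G = 0}.Finite →
      ∃ m : I → ℤ, (∀ G ∈ Rel, MvPolynomial.aeval (crds fun i => m i • P + t i) G = 0) ∧
        (∀ (i : I) (n : ℕ), 1 ≤ n → (n : ℤ) ∣ m i - a i n) ∧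
        ∀ v ∉ S, ∀ i, y v i = baseChange k (v.adicCompletion k) (m i • P + t i))

/-- extracting compatible exponents -/
def WeakStatement (W : Affine k) (I : Type*) : Prop :=
  ∀ (P : (W⁄k).Point) (T : Set (W⁄k).Point) (_ : T.Finite) (A : I → ℕ → (W⁄k).Point)
    (_ : ∀ i n m, 1 ≤ n → 1 ≤ m → ∃ B, A i (n * m) - A i n = n • B)
    (_ : ∀ i n, 1 ≤ n → ∃ m : ℤ, ∃ t ∈ T, A i n = m • P + t),
    ∃ (t : I → (W⁄k).Point) (a : I → ℕ → ℤ), (∀ i, t i ∈ T) ∧
      (∀ (i : I) (n m : ℕ), 1 ≤ m → n ∣ m → (n : ℤ) ∣ a i m - a i n) ∧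
      ∀ i n, 1 ≤ n → ∃ B, A i n - (a i n • P + t i) = n • B

/-- `R` lies on the Zariski closure of `η` -/
def OnClosure {W : Affine k} {K : Type*} [Field K] [Algebra k K] {I : Type*} (η : I → (W⁄K).Point)
    (R : I → (W⁄k).Point) : Prop :=
  ∀ (G : MvPolynomial (I × Fin 3) k) (d : I → ℕ), MultiHom G d →
    MvPolynomial.aeval (crds η) G = 0 → MvPolynomial.aeval (crds R) G = 0

variable {kb : Type*} [Field kb] [Algebra k kb] [IsGalois k kb] [IsAlgClosed kb]
  {K M : Type*} [Field K] [Field M] [Algebra k K] [Algebra K M] [Algebra k M] [IsScalarTower k K M]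
  [Algebra kb M] [IsScalarTower k kb M]
  [DecidableEq kb] [DecidableEq K] [DecidableEq M]

theorem crds_baseChange {W : Affine k} {F L I : Type*} [Field F] [Field L] [Algebra k F]
    [Algebra k L] [Algebra F L] [IsScalarTower k F L] [DecidableEq F] [DecidableEq L]
    (Q : I → (W⁄F).Point) (G : MvPolynomial (I × Fin 3) k) :
    MvPolynomial.aeval (crds fun i => baseChange F L (Q i)) G =
      algebraMap F L (MvPolynomial.aeval (crds Q) G) := by
  have h1 : crds (fun i => baseChange F L (Q i)) = fun p => algebraMap F L (crds Q p) := by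
    funext p
    obtain ⟨i, j⟩ := p
    simp only [crds]
    rcases Q i with _ | ⟨x, y, h⟩
    · fin_cases j
      · exact (_root_.map_zero (algebraMap F L)).symm
      · exact (map_one (algebraMap F L)).symm
      · exact (_root_.map_zero (algebraMap F L)).symm
    · fin_cases j
      · rfl
      · rfl
      · exact (map_one (algebraMap F L)).symm
  rw [h1]
  exact (MvPolynomial.aeval_algebraMap_apply L (crds Q) G)

theorem main (W : Affine k) [W.IsElliptic] {I : Type*} [Fintype I]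
    [∀ v : HeightOneSpectrum (𝓞 k), DecidableEq (v.adicCompletion k)]
    (hcore : CoreStatement W I) (hweak : WeakStatement W I)
    (η : I → (W⁄K).Point)
    (s : Gal(kb/k) →* Gal(M/K))
    (hsec : ∀ σ a, s σ (algebraMap kb M a) = algebraMap kb M (σ a))
    (S : Finset (HeightOneSpectrum (𝓞 k)))
    (Fb : HeightOneSpectrum (𝓞 k) → Type*) [∀ v, Field (Fb v)] [∀ v, Algebra k (Fb v)]
    [∀ v, Algebra (v.adicCompletion k) (Fb v)] [∀ v, IsScalarTower k (v.adicCompletion k) (Fb v)]
    [∀ v, IsGalois (v.adicCompletion k) (Fb v)] [∀ v, DecidableEq (Fb v)]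
    (ι : ∀ v, v ∉ S → (kb →ₐ[k] Fb v)) (O : ∀ v, v ∉ S → ValuationSubring M)
    (φ : ∀ v (hv : v ∉ S), O v hv →+* Fb v)
    (hpl : ∀ v (hv : v ∉ S), IsPlaceOf (F := v.adicCompletion k) s (ι v hv) (O v hv) (φ v hv))
    (P : (W⁄k).Point) (hP : ∀ n : ℕ, n ≠ 0 → n • P ≠ 0) (T : Set (W⁄k).Point) (hT : T.Finite)
    (hcl : ∀ i n, 1 ≤ n → ∃ m : ℤ, ∃ t ∈ T, IsClass s W n (η i) (m • P + t)) :
    (∀ N : ℕ, 1 ≤ N → ∃ R : I → (W⁄k).Point, OnClosure η R ∧ (∀ i, IsClass s W N (η i) (R i)) ∧
      ∀ v (hv : v ∉ S) i, ∃ z : (W⁄(v.adicCompletion k)).Point,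
        (hpl v hv).val s (baseChange K M (η i)) = baseChange (v.adicCompletion k) (Fb v)
          (baseChange k (v.adicCompletion k) (R i) + N • z)) ∧
    ({R : I → (W⁄k).Point | OnClosure η R}.Finite → ∃ R : I → (W⁄k).Point, OnClosure η R ∧
      (∀ N : ℕ, 1 ≤ N → ∀ i, IsClass s W N (η i) (R i)) ∧
      (∀ v (hv : v ∉ S) i, (hpl v hv).val s (baseChange K M (η i)) =
        baseChange (v.adicCompletion k) (Fb v) (baseChange k (v.adicCompletion k) (R i))) ∧
      ∀ R' : I → (W⁄k).Point, (∀ N : ℕ, 1 ≤ N → ∀ i, IsClass s W N (η i) (R' i)) → R' = R) := by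
  classical
  have hinjk : Function.Injective (baseChange k kb (W' := W)) := bc_injective k kb
  have hPb : ∀ n : ℕ, n ≠ 0 → n • baseChange k kb P ≠ 0 := by
    intro n hn h
    rw [← map_nsmul] at h
    exact hP n hn (hinjk (by rw [h, _root_.map_zero]))
  choose! mm tt hcl' using hcl
  have hcompat : ∀ i n m, 1 ≤ n → 1 ≤ m → ∃ B : (W⁄k).Point,
      (mm i (n * m) • P + tt i (n * m)) - (mm i n • P + tt i n) = n • B := by
    intro i n m hn hm
    exact IsClass.unique s hsec _ hPb (by omega) (hcl' i n hn).2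
      (hcl' i (n * m) (Nat.mul_pos hn hm)).2.of_mul
  obtain ⟨t, a, htT, ha, hA⟩ := hweak P T hT (fun i n => mm i n • P + tt i n) hcompat
    (fun i n hn => ⟨mm i n, tt i n, (hcl' i n hn).1, rfl⟩)
  have hcla : ∀ i n, 1 ≤ n → IsClass s W n (η i) (a i n • P + t i) := by
    intro i n hn
    obtain ⟨B, hB⟩ := hA i n hn
    refine (hcl' i n hn).2.congr s (D := -B) ?_
    rw [smul_neg, ← hB, neg_sub]
  have hclm : ∀ (i : I) (n : ℕ) (m : ℤ), 1 ≤ n → (n : ℤ) ∣ m - a i n → IsClass s W n (η i) (m • P + t i) := by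
    intro i n m hn ⟨q, hq⟩
    refine (hcla i n hn).congr s (D := q • P) ?_
    rw [add_sub_add_right_eq_sub, ← sub_smul, hq, mul_smul, natCast_zsmul]
  -- local points
  have hy : ∀ v (hv : v ∉ S) i, ∃ y : (W⁄(v.adicCompletion k)).Point,
      baseChange (v.adicCompletion k) (Fb v) y = (hpl v hv).val s (baseChange K M (η i)) := by
    intro v hv i
    exact (hpl v hv).exists_val s (fun σ => act_baseChange (s σ) (η i))
  choose y hy using hy
  have hlocal : ∀ v (hv : v ∉ S) i n (R : (W⁄k).Point), IsClass s W n (η i) R →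
      ∃ z, y v hv i = baseChange k (v.adicCompletion k) R + n • z := by
    intro v hv i n R hR
    exact (hpl v hv).class_val s hR (hy v hv i)
  obtain ⟨c1, c2⟩ := hcore S P hP t a ha (fun v i => if hv : v ∉ S then y v hv i else 0)
    (by
      intro v hv i n hn
      rw [dif_pos hv]
      exact hlocal v hv i n _ (hcla i n hn))
    {G | (∃ d, MultiHom G d) ∧ MvPolynomial.aeval (crds η) G = 0} (fun G hG => hG.1) S
    (by
      intro v hv G hG
      obtain ⟨⟨d, hd⟩, hG⟩ := hG
      have := (hpl v hv).isLocal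
      have hsp : ∀ a : k, Sp (O v hv) (φ v hv) (algebraMap k M a) (algebraMap k (Fb v) a) := by
        intro a
        have := (hpl v hv).const (algebraMap k kb a)
        rwa [← IsScalarTower.algebraMap_apply, (ι v hv).commutes] at this
      have h1 := rel_red hsp ((hpl v hv).curveSp s (W := W)) hd (fun i => baseChange K M (η i))
        (by rw [crds_baseChange, hG, _root_.map_zero])
      have h2 : (fun i => red ((hpl v hv).curveSp s (W := W)) (baseChange K M (η i))) =
          fun i => baseChange (v.adicCompletion k) (Fb v) (y v hv i) := by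
        funext i
        exact (hy v hv i).symm
      rw [h2, crds_baseChange] at h1
      have h3 := (algebraMap (v.adicCompletion k) (Fb v)).injective
        (h1.trans (_root_.map_zero (algebraMap (v.adicCompletion k) (Fb v))).symm)
      simp only [hv, not_false_eq_true, dite_true]
      exact h3)
  have hOn : ∀ R : I → (W⁄k).Point, (∀ G ∈ {G : MvPolynomial (I × Fin 3) k | (∃ d, MultiHom G d) ∧
      MvPolynomial.aeval (crds η) G = 0}, MvPolynomial.aeval (crds R) G = 0) ↔ OnClosure η R := by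
    intro R
    constructor
    · intro h G d hd hG
      exact h G ⟨⟨d, hd⟩, hG⟩
    · rintro h G ⟨⟨d, hd⟩, hG⟩
      exact h G d hd hG
  refine ⟨fun N hN => ?_, fun hfin => ?_⟩
  · obtain ⟨m, hm1, hm2⟩ := c1 N hN
    refine ⟨fun i => m i • P + t i, (hOn _).mp hm2, fun i => hclm i N (m i) hN (hm1 i), ?_⟩
    intro v hv i
    obtain ⟨z, hz⟩ := hlocal v hv i N _ (hclm i N (m i) hN (hm1 i))
    exact ⟨z, by rw [← hz, hy v hv i]⟩
  · obtain ⟨m, hm1, hm2, hm3⟩ := c2 (by
      have hinj : Function.Injective (fun (m : I → ℤ) (i : I) => m i • P + t i) := by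
        intro m m' h
        funext i
        have h1 := congrFun h i
        simp only [add_left_inj] at h1
        by_contra hne
        have h2 : (m i - m' i) • P = 0 := by rw [sub_smul, h1, sub_self]
        have h3 : m i - m' i ≠ 0 := sub_ne_zero.mpr hne
        apply hP (m i - m' i).natAbs (Int.natAbs_ne_zero.mpr h3)
        rcases Int.natAbs_eq (m i - m' i) with h4 | h4
        · rw [h4, natCast_zsmul] at h2; exact h2
        · rw [h4, neg_smul, natCast_zsmul, neg_eq_zero] at h2; exact h2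
      refine (hfin.preimage hinj.injOn).subset ?_
      intro m hm
      exact (hOn _).mp hm)
    have hcl2 : ∀ N : ℕ, 1 ≤ N → ∀ i, IsClass s W N (η i) (m i • P + t i) :=
      fun N hN i => hclm i N (m i) hN (hm2 i N hN)
    refine ⟨fun i => m i • P + t i, (hOn _).mp hm1, hcl2, ?_, ?_⟩
    · intro v hv i
      rw [← hy v hv i]
      congr 1
      have h1 := hm3 v hv i
      simpa only [hv, not_false_eq_true, dite_true] using h1
    · intro R' hR'
      funext i
      rw [← sub_eq_zero]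
      apply eq_zero_of_divisible (W := (W⁄k))
      intro N hN
      exact IsClass.unique s hsec _ hPb (by omega) (hcl2 N hN i) (hR' N hN i)

end Pool.Agent.Lib.MP_2f3286_ag.Top
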