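import Pool.Agent.Lib.MP_2f3286_ag.Ell.AddSub

/-!
# Specialisation of points of an elliptic curve along a place

`O` is a valuation subring of a field `M` with a local homomorphism `φ : O → L` to a field.
Points of an elliptic curve over `M` whose coefficients lie in `O` specialise to points over `L`,
and specialisation is a homomorphism.
-/

open WeierstrassCurve WeierstrassCurve.Affine WeierstrassCurve.Affine.Point

namespace Pool.Agent.Lib.MP_2f3286_ag.Top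

open Pool.Agent.Lib.MP_2f3286_ag.Ell

variable {M L : Type*} [Field M] [Field L]

/-- `x` specialises to `a`. -/
def Sp (O : ValuationSubring M) (φ : O →+* L) (x : M) (a : L) : Prop :=
  ∃ h : x ∈ O, φ ⟨x, h⟩ = a

section sp

variable {O : ValuationSubring M} {φ : O →+* L} {x y : M} {a b : L}

theorem Sp.mem (h : Sp O φ x a) : x ∈ O := h.1

theorem Sp.unique (h : Sp O φ x a) (h' : Sp O φ x b) : a = b := by
  obtain ⟨h1, rfl⟩ := h
  obtain ⟨h2, rfl⟩ := h'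
  rfl

theorem sp_of_mem (h : x ∈ O) : Sp O φ x (φ ⟨x, h⟩) := ⟨h, rfl⟩

theorem Sp.add (hx : Sp O φ x a) (hy : Sp O φ y b) : Sp O φ (x + y) (a + b) := by
  obtain ⟨h1, rfl⟩ := hx
  obtain ⟨h2, rfl⟩ := hy
  exact ⟨add_mem h1 h2, by rw [← map_add]; rfl⟩

theorem Sp.mul (hx : Sp O φ x a) (hy : Sp O φ y b) : Sp O φ (x * y) (a * b) := by
  obtain ⟨h1, rfl⟩ := hx
  obtain ⟨h2, rfl⟩ := hy
  exact ⟨mul_mem h1 h2, by rw [← map_mul]; rfl⟩

theorem Sp.neg (hx : Sp O φ x a) : Sp O φ (-x) (-a) := by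
  obtain ⟨h1, rfl⟩ := hx
  exact ⟨neg_mem h1, by rw [← map_neg]; rfl⟩

theorem Sp.sub (hx : Sp O φ x a) (hy : Sp O φ y b) : Sp O φ (x - y) (a - b) := by
  rw [sub_eq_add_neg, sub_eq_add_neg]
  exact hx.add hy.neg

theorem Sp.pow (hx : Sp O φ x a) (n : ℕ) : Sp O φ (x ^ n) (a ^ n) := by
  obtain ⟨h1, rfl⟩ := hx
  exact ⟨pow_mem h1 n, by rw [← map_pow]; rfl⟩

theorem sp_one : Sp O φ 1 1 := ⟨one_mem _, map_one φ⟩

theorem sp_zero : Sp O φ 0 0 := ⟨zero_mem _, map_zero φ⟩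

theorem sp_nat (n : ℕ) : Sp O φ (n : M) (n : L) := ⟨natCast_mem _ n, map_natCast φ n⟩

theorem sp_ofNat (n : ℕ) [n.AtLeastTwo] : Sp O φ (OfNat.ofNat n : M) (OfNat.ofNat n : L) := by
  exact_mod_cast sp_nat (O := O) (φ := φ) n

theorem Sp.inv [IsLocalHom φ] (hx : Sp O φ x a) (ha : a ≠ 0) : Sp O φ x⁻¹ a⁻¹ := by
  obtain ⟨h1, rfl⟩ := hx
  have hu : IsUnit (⟨x, h1⟩ : O) := isUnit_of_map_unit φ _ (isUnit_iff_ne_zero.mpr ha)
  obtain ⟨u, hu⟩ := hu
  have h2 : ((u⁻¹ : Oˣ) : O) * ⟨x, h1⟩ = 1 := by rw [← hu]; simp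
  have h3 : (((u⁻¹ : Oˣ) : O) : M) * x = 1 := by
    have := congrArg Subtype.val h2
    exact this
  have h4 : x⁻¹ = (((u⁻¹ : Oˣ) : O) : M) := by
    rw [eq_comm]; exact eq_inv_of_mul_eq_one_left h3
  have h5 : φ ((u⁻¹ : Oˣ) : O) * φ ⟨x, h1⟩ = 1 := by rw [← map_mul, h2, map_one]
  refine ⟨by rw [h4]; exact ((u⁻¹ : Oˣ) : O).2, ?_⟩
  have h6 : (⟨x⁻¹, by rw [h4]; exact ((u⁻¹ : Oˣ) : O).2⟩ : O) = ((u⁻¹ : Oˣ) : O) := Subtype.ext h4
  rw [h6]
  exact eq_inv_of_mul_eq_one_left h5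

theorem Sp.div [IsLocalHom φ] (hx : Sp O φ x a) (hy : Sp O φ y b) (hb : b ≠ 0) :
    Sp O φ (x / y) (a / b) := by
  rw [div_eq_mul_inv, div_eq_mul_inv]
  exact hx.mul (hy.inv hb)

theorem Sp.ne_zero (hx : Sp O φ x a) (ha : a ≠ 0) : x ≠ 0 := by
  rintro rfl
  exact ha (hx.unique sp_zero)

theorem sp_inv_of_notMem [IsLocalHom φ] (hx : x ∉ O) : Sp O φ x⁻¹ 0 := by
  have h1 : x⁻¹ ∈ O := (O.mem_or_inv_mem x).resolve_left hx
  refine ⟨h1, ?_⟩
  by_contra hne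
  have h2 := (sp_of_mem (φ := φ) h1).inv hne
  rw [inv_inv] at h2
  exact hx h2.mem

end sp

/-- the curve `A` over `M` specialises to the curve `B` over `L` -/
structure CurveSp (O : ValuationSubring M) (φ : O →+* L) (A : WeierstrassCurve M)
    (B : WeierstrassCurve L) : Prop where
  a₁ : Sp O φ A.a₁ B.a₁
  a₂ : Sp O φ A.a₂ B.a₂
  a₃ : Sp O φ A.a₃ B.a₃
  a₄ : Sp O φ A.a₄ B.a₄
  a₆ : Sp O φ A.a₆ B.a₆

section red

variable {O : ValuationSubring M} {φ : O →+* L} [IsLocalHom φ] {A : Affine M} {B : Affine L}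
  (hAB : CurveSp O φ A B)

include hAB

omit [IsLocalHom φ] in
theorem Sp.equation {x y : M} {a b : L} (hx : Sp O φ x a) (hy : Sp O φ y b) (h : A.Equation x y) :
    B.Equation a b := by
  rw [Affine.equation_iff'] at h ⊢
  have h1 : Sp O φ (y ^ 2 + A.a₁ * x * y + A.a₃ * y - (x ^ 3 + A.a₂ * x ^ 2 + A.a₄ * x + A.a₆))
      (b ^ 2 + B.a₁ * a * b + B.a₃ * b - (a ^ 3 + B.a₂ * a ^ 2 + B.a₄ * a + B.a₆)) :=
    (((hy.pow 2).add ((hAB.a₁.mul hx).mul hy)).add (hAB.a₃.mul hy)).sub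
      ((((hx.pow 3).add (hAB.a₂.mul (hx.pow 2))).add (hAB.a₄.mul hx)).add hAB.a₆)
  rw [h] at h1
  exact h1.unique sp_zero

omit [IsLocalHom φ] in
theorem Sp.negY {x y : M} {a b : L} (hx : Sp O φ x a) (hy : Sp O φ y b) :
    Sp O φ (A.negY x y) (B.negY a b) := by
  rw [Affine.negY, Affine.negY]
  exact (hy.neg.sub (hAB.a₁.mul hx)).sub hAB.a₃

theorem mem_y {x y : M} (hx : x ∈ O) (h : A.Equation x y) : y ∈ O := by
  by_contra hy
  have hy0 : y ≠ 0 := fun h0 => hy (h0 ▸ zero_mem _)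
  have h1 := (A.equation_iff x y).mp h
  have h2 := sp_inv_of_notMem (φ := φ) hy
  have hX := sp_of_mem (φ := φ) hx
  have h3 : Sp O φ (1 + (A.a₁ * x + A.a₃) * y⁻¹ - (x ^ 3 + A.a₂ * x ^ 2 + A.a₄ * x + A.a₆) * y⁻¹ ^ 2)
      (1 + (B.a₁ * φ ⟨x, hx⟩ + B.a₃) * 0 - ((φ ⟨x, hx⟩) ^ 3 + B.a₂ * (φ ⟨x, hx⟩) ^ 2 +
        B.a₄ * φ ⟨x, hx⟩ + B.a₆) * 0 ^ 2) :=
    (sp_one.add (((hAB.a₁.mul hX).add hAB.a₃).mul h2)).sub
      (((((hX.pow 3).add (hAB.a₂.mul (hX.pow 2))).add (hAB.a₄.mul hX)).add hAB.a₆).mul (h2.pow 2))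
  have h4 : 1 + (A.a₁ * x + A.a₃) * y⁻¹ - (x ^ 3 + A.a₂ * x ^ 2 + A.a₄ * x + A.a₆) * y⁻¹ ^ 2 = 0 := by
    rw [← h1]; field_simp; ring
  rw [h4] at h3
  have h5 := h3.unique sp_zero
  simp at h5

variable [B.IsElliptic]

open Classical in
/-- specialisation of points -/
noncomputable def red : A.Point → B.Point
  | .zero => 0
  | .some x y h => if hx : x ∈ O then
      .some (φ ⟨x, hx⟩) (φ ⟨y, mem_y hAB hx h.1⟩)
        (equation_iff_nonsingular.mp ((sp_of_mem hx).equation hAB (sp_of_mem _) h.1)) else 0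

@[simp] theorem red_zero : red hAB 0 = 0 := rfl

theorem red_some_of_notMem {x y : M} (h : A.Nonsingular x y) (hx : x ∉ O) :
    red hAB (some x y h) = 0 := by
  simp [red, hx]

theorem red_some {x y : M} {a b : L} (h : A.Nonsingular x y) (hx : Sp O φ x a) (hy : Sp O φ y b)
    (h' : B.Nonsingular a b) : red hAB (some x y h) = some a b h' := by
  obtain ⟨h1, rfl⟩ := hx
  obtain ⟨h2, rfl⟩ := hy
  simp [red, h1]

theorem exists_of_red_ne_zero {P : A.Point} (hP : red hAB P ≠ 0) :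
    ∃ x y a b, ∃ h : A.Nonsingular x y, ∃ h' : B.Nonsingular a b, Sp O φ x a ∧ Sp O φ y b ∧
      P = some x y h ∧ red hAB P = some a b h' := by
  rcases P with _ | ⟨x, y, h⟩
  · exact absurd rfl hP
  · by_cases hx : x ∈ O
    · have h1 := sp_of_mem (φ := φ) hx
      have h2 := sp_of_mem (φ := φ) (mem_y hAB hx h.1)
      have h3 := equation_iff_nonsingular.mp (h1.equation hAB h2 h.1)
      exact ⟨x, y, _, _, h, h3, h1, h2, rfl, red_some hAB h h1 h2 h3⟩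
    · exact absurd (red_some_of_notMem hAB h hx) hP

theorem red_neg (P : A.Point) : red hAB (-P) = -red hAB P := by
  by_cases hP : red hAB P = 0
  · rcases P with _ | ⟨x, y, h⟩
    · rfl
    · by_cases hx : x ∈ O
      · have h1 := sp_of_mem (φ := φ) hx
        have h2 := sp_of_mem (φ := φ) (mem_y hAB hx h.1)
        have h3 := equation_iff_nonsingular.mp (h1.equation hAB h2 h.1)
        rw [red_some hAB h h1 h2 h3] at hP
        exact absurd hP (some_ne_zero _)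
      · rw [hP, neg_some, red_some_of_notMem hAB _ hx]; rfl
  · obtain ⟨x, y, a, b, h, h', hx, hy, rfl, h2⟩ := exists_of_red_ne_zero hAB hP
    rw [h2, neg_some, neg_some]
    exact red_some hAB _ hx (hx.negY hAB hy) _

variable [DecidableEq M] [DecidableEq L]

theorem red_add_of_ne {P Q : A.Point} (hP : red hAB P ≠ 0) (hQ : red hAB Q ≠ 0)
    (hPQ : red hAB P + red hAB Q ≠ 0) : red hAB (P + Q) = red hAB P + red hAB Q := by
  obtain ⟨x₁, y₁, a₁, b₁, h₁, h₁', hx₁, hy₁, rfl, e₁⟩ := exists_of_red_ne_zero hAB hP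
  obtain ⟨x₂, y₂, a₂, b₂, h₂, h₂', hx₂, hy₂, rfl, e₂⟩ := exists_of_red_ne_zero hAB hQ
  rw [e₁, e₂] at hPQ ⊢
  have hnn : ¬(a₁ = a₂ ∧ b₁ = B.negY a₂ b₂) := fun h => hPQ (add_of_Y_eq h.1 h.2)
  have hnn' : ¬(x₁ = x₂ ∧ y₁ = A.negY x₂ y₂) := by
    rintro ⟨h, h'⟩
    refine hnn ⟨?_, ?_⟩
    · subst h; exact hx₁.unique hx₂
    · rw [h'] at hy₁; exact hy₁.unique (hx₂.negY hAB hy₂)
  have hs : Sp O φ (A.slope x₁ x₂ y₁ y₂) (B.slope a₁ a₂ b₁ b₂) := by
    by_cases ha : a₁ = a₂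
    · have hb : b₁ ≠ B.negY a₂ b₂ := fun h => hnn ⟨ha, h⟩
      have hD := hy₁.sub (hx₂.negY hAB hy₂)
      have hb' : b₁ - B.negY a₂ b₂ ≠ 0 := sub_ne_zero.mpr hb
      have hbb : b₁ = b₂ := Y_eq_of_Y_ne h₁'.1 h₂'.1 ha hb
      have hD0 := hD.ne_zero hb'
      have hlam : A.slope x₁ x₂ y₁ y₂ = (x₁ ^ 2 + x₁ * x₂ + x₂ ^ 2 + A.a₂ * (x₁ + x₂) + A.a₄ -
          A.a₁ * y₁) / (y₁ - A.negY x₂ y₂) := by
        by_cases hx : x₁ = x₂
        · subst hx
          have hy : y₁ ≠ A.negY x₁ y₂ := fun h => hnn' ⟨rfl, h⟩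
          have hyy : y₁ = y₂ := Y_eq_of_Y_ne h₁.1 h₂.1 rfl hy
          subst hyy
          rw [slope_of_Y_ne rfl hy]
          congr 1; ring
        · rw [slope_of_X_ne hx]
          have e1 := (A.equation_iff x₁ y₁).mp h₁.1
          have e2 := (A.equation_iff x₂ y₂).mp h₂.1
          rw [div_eq_div_iff (sub_ne_zero.mpr hx) hD0, Affine.negY]
          linear_combination e1 - e2
      have hlam' : B.slope a₁ a₂ b₁ b₂ = (a₁ ^ 2 + a₁ * a₂ + a₂ ^ 2 + B.a₂ * (a₁ + a₂) + B.a₄ -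
          B.a₁ * b₁) / (b₁ - B.negY a₂ b₂) := by
        subst ha
        subst hbb
        rw [slope_of_Y_ne rfl hb]
        congr 1; ring
      rw [hlam, hlam']
      refine Sp.div ?_ hD hb'
      exact (((((hx₁.pow 2).add (hx₁.mul hx₂)).add (hx₂.pow 2)).add
        (hAB.a₂.mul (hx₁.add hx₂))).add hAB.a₄).sub (hAB.a₁.mul hy₁)
    · have hx : x₁ ≠ x₂ := by
        rintro rfl
        exact ha (hx₁.unique hx₂)
      rw [slope_of_X_ne hx, slope_of_X_ne ha]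
      exact (hy₁.sub hy₂).div (hx₁.sub hx₂) (sub_ne_zero.mpr ha)
  rw [add_some hnn', add_some hnn]
  have hX : Sp O φ (A.addX x₁ x₂ (A.slope x₁ x₂ y₁ y₂)) (B.addX a₁ a₂ (B.slope a₁ a₂ b₁ b₂)) := by
    rw [addX, addX]
    exact ((((hs.pow 2).add (hAB.a₁.mul hs)).sub hAB.a₂).sub hx₁).sub hx₂
  refine red_some hAB _ hX ?_ _
  rw [addY, addY]
  refine hX.negY hAB ?_
  rw [negAddY, negAddY]
  exact (hs.mul (hX.sub hx₁)).add hy₁

omit hAB [IsLocalHom φ] [B.IsElliptic] [DecidableEq M] [DecidableEq L] in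
/-- a proportionality over `M` specialises -/
theorem prop_sp [IsLocalHom φ] {n : ℕ} {f g : Fin n → M} {f' g' : Fin n → L} {c : M} (hf : ∀ i, Sp O φ (f i) (f' i))
    (hg : ∀ i, Sp O φ (g i) (g' i)) (hf0 : f' ≠ 0) (hg0 : g' ≠ 0) (h : ∀ i, f i = c * g i) :
    ∃ c' : L, c' ≠ 0 ∧ ∀ i, f' i = c' * g' i := by
  obtain ⟨i, hi⟩ := Function.ne_iff.mp hg0
  have hi' : g' i ≠ 0 := hi
  have hgi := (hg i).ne_zero hi'
  have hc : Sp O φ c (f' i / g' i) := by
    have h1 := (hf i).div (hg i) hi'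
    rwa [h i, mul_div_cancel_right₀ _ hgi] at h1
  have h2 : ∀ j, f' j = f' i / g' i * g' j := by
    intro j
    have h3 := hc.mul (hg j)
    rw [← h j] at h3
    exact (hf j).unique h3
  refine ⟨_, ?_, h2⟩
  intro h0
  apply hf0
  funext j
  rw [h2 j, h0, zero_mul]; rfl

omit [DecidableEq M] [DecidableEq L] in
theorem exists_scale (P : A.Point) : ∃ c : M, c ≠ 0 ∧ ∀ i, Sp O φ (c * P.xRep i) ((red hAB P).xRep i) := by
  rcases P with _ | ⟨x, y, h⟩
  · refine ⟨1, one_ne_zero, fun i => ?_⟩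
    fin_cases i
    · show Sp O φ (1 * 1) 1
      rw [mul_one]; exact sp_one
    · show Sp O φ (1 * 0) 0
      rw [mul_zero]; exact sp_zero
  · by_cases hx : x ∈ O
    · have h1 := sp_of_mem (φ := φ) hx
      have h2 := sp_of_mem (φ := φ) (mem_y hAB hx h.1)
      have h3 := equation_iff_nonsingular.mp (h1.equation hAB h2 h.1)
      rw [red_some hAB h h1 h2 h3]
      refine ⟨1, one_ne_zero, fun i => ?_⟩
      fin_cases i
      · show Sp O φ (1 * x) _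
        rw [one_mul]; exact h1
      · show Sp O φ (1 * 1) 1
        rw [mul_one]; exact sp_one
    · have hx0 : x ≠ 0 := fun h0 => hx (h0 ▸ zero_mem _)
      rw [red_some_of_notMem hAB h hx]
      refine ⟨x⁻¹, inv_ne_zero hx0, fun i => ?_⟩
      fin_cases i
      · show Sp O φ (x⁻¹ * x) 1
        rw [inv_mul_cancel₀ hx0]; exact sp_one
      · show Sp O φ (x⁻¹ * 1) 0
        rw [mul_one]; exact sp_inv_of_notMem hx

omit hAB [IsLocalHom φ] [B.IsElliptic] [DecidableEq M] [DecidableEq L] in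
theorem asv_sp (hAB : CurveSp O φ A B) {s t u : M} {s' t' u' : L} (hs : Sp O φ s s')
    (ht : Sp O φ t t') (hu : Sp O φ u u') (i : Fin 3) : Sp O φ (asv A s t u i) (asv B s' t' u' i) := by
  have h2 : Sp O φ (2 : M) (2 : L) := sp_ofNat 2
  have h4 : Sp O φ (4 : M) (4 : L) := sp_ofNat 4
  have hb2 : Sp O φ A.b₂ B.b₂ := by
    rw [b₂, b₂]
    exact (hAB.a₁.pow 2).add (h4.mul hAB.a₂)
  have hb4 : Sp O φ A.b₄ B.b₄ := by
    rw [b₄, b₄]
    exact (h2.mul hAB.a₄).add (hAB.a₁.mul hAB.a₃)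
  have hb6 : Sp O φ A.b₆ B.b₆ := by
    rw [b₆, b₆]
    exact (hAB.a₃.pow 2).add (h4.mul hAB.a₆)
  have hb8 : Sp O φ A.b₈ B.b₈ := by
    rw [b₈, b₈]
    exact (((((hAB.a₁.pow 2).mul hAB.a₆).add ((h4.mul hAB.a₂).mul hAB.a₆)).sub
      ((hAB.a₁.mul hAB.a₃).mul hAB.a₄)).add (hAB.a₂.mul (hAB.a₃.pow 2))).sub (hAB.a₄.pow 2)
  fin_cases i
  · exact (((hs.pow 2).sub ((hb4.mul hs).mul hu)).sub ((hb6.mul ht).mul hu)).sub (hb8.mul (hu.pow 2))
  · exact ((((h2.mul ht).mul hs).add ((hb2.mul hs).mul hu)).add ((hb4.mul ht).mul hu)).add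
      (hb6.mul (hu.pow 2))
  · exact (ht.pow 2).sub ((h4.mul hs).mul hu)

theorem sym2x_red [A.IsElliptic] (P Q : A.Point) : ∃ c : L, c ≠ 0 ∧
    (red hAB P + red hAB Q).sym2x (red hAB P - red hAB Q) =
      c • (red hAB (P + Q)).sym2x (red hAB (P - Q)) := by
  obtain ⟨c₁, hc₁, h₁⟩ := exists_scale hAB P
  obtain ⟨c₂, hc₂, h₂⟩ := exists_scale hAB Q
  obtain ⟨c₃, hc₃, h₃⟩ := exists_scale hAB (P + Q)
  obtain ⟨c₄, hc₄, h₄⟩ := exists_scale hAB (P - Q)
  obtain ⟨c, hc, h⟩ := addSub A P Q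
  obtain ⟨c', hc', h'⟩ := addSub B (red hAB P) (red hAB Q)
  have hg : ∀ i, Sp O φ (c₃ * c₄ * (P + Q).sym2x (P - Q) i)
      ((red hAB (P + Q)).sym2x (red hAB (P - Q)) i) := by
    intro i
    fin_cases i
    · show Sp O φ (c₃ * c₄ * ((P + Q).xRep 0 * (P - Q).xRep 0)) _
      rw [show c₃ * c₄ * ((P + Q).xRep 0 * (P - Q).xRep 0) =
        (c₃ * (P + Q).xRep 0) * (c₄ * (P - Q).xRep 0) by ring]
      exact (h₃ 0).mul (h₄ 0)
    · show Sp O φ (c₃ * c₄ * ((P + Q).xRep 0 * (P - Q).xRep 1 + (P + Q).xRep 1 * (P - Q).xRep 0)) _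
      rw [show c₃ * c₄ * ((P + Q).xRep 0 * (P - Q).xRep 1 + (P + Q).xRep 1 * (P - Q).xRep 0) =
        (c₃ * (P + Q).xRep 0) * (c₄ * (P - Q).xRep 1) +
          (c₃ * (P + Q).xRep 1) * (c₄ * (P - Q).xRep 0) by ring]
      exact ((h₃ 0).mul (h₄ 1)).add ((h₃ 1).mul (h₄ 0))
    · show Sp O φ (c₃ * c₄ * ((P + Q).xRep 1 * (P - Q).xRep 1)) _
      rw [show c₃ * c₄ * ((P + Q).xRep 1 * (P - Q).xRep 1) =
        (c₃ * (P + Q).xRep 1) * (c₄ * (P - Q).xRep 1) by ring]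
      exact (h₃ 1).mul (h₄ 1)
  have hf : ∀ i, Sp O φ (asv A (c₁ * c₂ * P.sym2x Q 0) (c₁ * c₂ * P.sym2x Q 1)
      (c₁ * c₂ * P.sym2x Q 2) i) (asv B ((red hAB P).sym2x (red hAB Q) 0)
      ((red hAB P).sym2x (red hAB Q) 1) ((red hAB P).sym2x (red hAB Q) 2) i) := by
    apply asv_sp hAB
    · show Sp O φ (c₁ * c₂ * (P.xRep 0 * Q.xRep 0)) _
      rw [show c₁ * c₂ * (P.xRep 0 * Q.xRep 0) = (c₁ * P.xRep 0) * (c₂ * Q.xRep 0) by ring]
      exact (h₁ 0).mul (h₂ 0)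
    · show Sp O φ (c₁ * c₂ * (P.xRep 0 * Q.xRep 1 + P.xRep 1 * Q.xRep 0)) _
      rw [show c₁ * c₂ * (P.xRep 0 * Q.xRep 1 + P.xRep 1 * Q.xRep 0) =
        (c₁ * P.xRep 0) * (c₂ * Q.xRep 1) + (c₁ * P.xRep 1) * (c₂ * Q.xRep 0) by ring]
      exact ((h₁ 0).mul (h₂ 1)).add ((h₁ 1).mul (h₂ 0))
    · show Sp O φ (c₁ * c₂ * (P.xRep 1 * Q.xRep 1)) _
      rw [show c₁ * c₂ * (P.xRep 1 * Q.xRep 1) = (c₁ * P.xRep 1) * (c₂ * Q.xRep 1) by ring]
      exact (h₁ 1).mul (h₂ 1)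
  have hne : asv B ((red hAB P).sym2x (red hAB Q) 0) ((red hAB P).sym2x (red hAB Q) 1)
      ((red hAB P).sym2x (red hAB Q) 2) ≠ 0 := asv_ne_zero B (sym2x_ne_zero _ _)
  obtain ⟨c'', hc'', h''⟩ := prop_sp (c := (c₁ * c₂) ^ 2 * c / (c₃ * c₄)) hf hg hne
    (sym2x_ne_zero _ _) (by
      intro i
      rw [asv_smul, h]
      simp only [Pi.smul_apply, smul_eq_mul]
      field_simp)
  refine ⟨c'⁻¹ * c'', mul_ne_zero (inv_ne_zero hc') hc'', ?_⟩
  funext i
  have h5 := congrFun h' i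
  rw [h'' i] at h5
  simp only [Pi.smul_apply, smul_eq_mul] at h5 ⊢
  rw [mul_assoc, h5, inv_mul_cancel_left₀ hc']

/-- if `Q` reduces to `0` and so does `P`, then so does `P + Q` -/
theorem red_add_zero_zero [A.IsElliptic] {P Q : A.Point}
    (hPQ : red hAB P + red hAB Q = 0) (hPQ' : red hAB P - red hAB Q = 0) :
    red hAB (P + Q) = 0 := by
  obtain ⟨c, hc, h⟩ := sym2x_red hAB P Q
  rw [hPQ, hPQ', sym2x_zero_zero] at h
  have h1 := congrFun h 1
  have h2 := congrFun h 2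
  simp only [Matrix.cons_val_one, Matrix.cons_val_zero, Matrix.cons_val, Pi.smul_apply,
    smul_eq_mul] at h1 h2
  rcases hS : red hAB (P + Q) with _ | ⟨x, y, hxy⟩
  · rfl
  · rw [hS] at h1 h2
    rcases hT : red hAB (P - Q) with _ | ⟨x', y', hxy'⟩
    · rw [hT] at h1
      simp [sym2x, xRep] at h1
      exact absurd h1.symm hc
    · rw [hT] at h2
      simp [sym2x, xRep] at h2
      exact absurd h2.symm hc

theorem red_add_right_zero [A.IsElliptic] {P Q : A.Point}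
    (hP : red hAB P ≠ 0) (hQ : red hAB Q = 0) :
    red hAB (P + Q) = red hAB P := by
  obtain ⟨c, hc, h⟩ := sym2x_red hAB P Q
  rw [hQ, add_zero, sub_zero] at h
  have hS : red hAB (P + Q) = red hAB P ∨ red hAB (P + Q) = -red hAB P := by
    obtain ⟨x, y, a, b, h1, h1', hx, hy, hP1, e1⟩ := exists_of_red_ne_zero hAB hP
    rw [e1]
    rw [e1, sym2x_some_some] at h
    rcases hS : red hAB (P + Q) with _ | ⟨x₁, y₁, hxy⟩
    · rw [hS] at h
      have h2 := congrFun h 2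
      simp [sym2x, xRep] at h2
    · rcases hT : red hAB (P - Q) with _ | ⟨x₂, y₂, hxy'⟩
      · rw [hT] at h
        have h2 := congrFun h 2
        simp [sym2x, xRep] at h2
      · rw [hS, hT, sym2x_some_some] at h
        have h2 := congrFun h 2
        have h1 := congrFun h 1
        have h0 := congrFun h 0
        simp only [Matrix.cons_val_one, Matrix.cons_val_zero, Matrix.cons_val, Pi.smul_apply,
          smul_eq_mul, mul_one] at h0 h1 h2
        rw [← h2, one_mul] at h0 h1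
        rw [← X_eq_iff]
        have h3 : (x₁ - a) ^ 2 = 0 := by linear_combination -x₁ * h1 + h0
        exact sub_eq_zero.mp (pow_eq_zero_iff (two_ne_zero) |>.mp h3)
  rcases hS with hS | hS
  · exact hS
  · by_contra hne
    have h3 : red hAB (P + Q) ≠ 0 := by
      rw [hS]; exact neg_ne_zero.mpr hP
    have h4 : red hAB (P + Q) + red hAB (-P) ≠ 0 := by
      rw [red_neg, hS]
      intro h5
      apply hne
      rw [hS]
      have h6 := eq_neg_of_add_eq_zero_left h5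
      rwa [_root_.neg_neg] at h6
    have h5 := red_add_of_ne hAB h3 (by rw [red_neg]; exact neg_ne_zero.mpr hP) h4
    rw [add_neg_cancel_comm, hQ] at h5
    exact h4 h5.symm

theorem red_add [A.IsElliptic] (P Q : A.Point) :
    red hAB (P + Q) = red hAB P + red hAB Q := by
  by_cases hP : red hAB P = 0
  · by_cases hQ : red hAB Q = 0
    · rw [red_add_zero_zero hAB (by rw [hP, hQ, add_zero]) (by rw [hP, hQ, sub_zero]), hP, hQ,
        add_zero]
    · rw [add_comm, red_add_right_zero hAB hQ hP, hP, zero_add]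
  by_cases hQ : red hAB Q = 0
  · rw [red_add_right_zero hAB hP hQ, hQ, add_zero]
  by_cases hPQ : red hAB P + red hAB Q = 0
  · by_cases hPP : red hAB P - red hAB Q = 0
    · rw [red_add_zero_zero hAB hPQ hPP, hPQ]
    · rw [hPQ]
      by_contra hne
      have h1 : red hAB (P + Q) = red hAB Q := by
        rw [← sub_eq_zero, sub_eq_add_neg, ← red_neg]
        by_contra h2
        have h3 := red_add_of_ne hAB hne (by rw [red_neg]; exact neg_ne_zero.mpr hQ) h2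
        rw [add_neg_cancel_right, red_neg, ← sub_eq_add_neg, eq_sub_iff_add_eq, hPQ] at h3
        exact hne h3.symm
      have h1' : red hAB (P + Q) = red hAB P := by
        rw [← sub_eq_zero, sub_eq_add_neg, ← red_neg]
        by_contra h2
        have h3 := red_add_of_ne hAB hne (by rw [red_neg]; exact neg_ne_zero.mpr hP) h2
        rw [add_neg_cancel_comm, red_neg, ← sub_eq_add_neg, eq_sub_iff_add_eq, add_comm, hPQ] at h3
        exact hne h3.symm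
      exact hPP (by rw [← h1', h1, sub_self])
  · exact red_add_of_ne hAB hP hQ hPQ

/-- specialisation as a homomorphism -/
noncomputable def redHom (hAB : CurveSp O φ A B) [A.IsElliptic] : A.Point →+ B.Point where
  toFun := red hAB
  map_zero' := red_zero hAB
  map_add' := red_add hAB

end red

end Pool.Agent.Lib.MP_2f3286_ag.Top
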