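import Pool.Agent.Lib.MP_2f3286_ag.Top.Red

/-!
# Division points of constant points are constant
-/

open WeierstrassCurve WeierstrassCurve.Affine WeierstrassCurve.Affine.Point

namespace Pool.Agent.Lib.MP_2f3286_ag.Top

variable {k : Type*} [Field k] {W : Affine k}

/-- the curves obtained by base change specialise to each other -/
theorem curveSp {M L : Type*} [Field M] [Field L] [Algebra k M] [Algebra k L]
    {O : ValuationSubring M} {φ : O →+* L}
    (h : ∀ a : k, Sp O φ (algebraMap k M a) (algebraMap k L a)) : CurveSp O φ (W⁄M) (W⁄L) :=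
  ⟨h _, h _, h _, h _, h _⟩

instance isElliptic_baseChange {L : Type*} [Field L] [Algebra k L] [W.IsElliptic] :
    (W⁄L).IsElliptic :=
  inferInstanceAs (WeierstrassCurve.IsElliptic (W.map (algebraMap k L)))

/-- specialisation is the identity on constant points -/
theorem redHom_baseChange {F M L : Type*} [Field F] [Field M] [Field L] [Algebra k F] [Algebra k M]
    [Algebra k L] [Algebra F M] [Algebra F L] [IsScalarTower k F M] [IsScalarTower k F L]
    [DecidableEq F] [DecidableEq M] [DecidableEq L] [W.IsElliptic]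
    {O : ValuationSubring M} {φ : O →+* L} [IsLocalHom φ]
    (hAB : CurveSp O φ (W⁄M) (W⁄L))
    (h : ∀ a : F, Sp O φ (algebraMap F M a) (algebraMap F L a)) (T : (W⁄F).Point) :
    redHom hAB (baseChange F M T) = baseChange F L T := by
  rcases T with _ | ⟨a', b', h'⟩
  · rfl
  · exact red_some hAB ((W.baseChange_nonsingular (Algebra.ofId F M).injective a' b').mpr h')
      (h a') (h b') _

variable {kb : Type*} [Field kb] [IsAlgClosed kb]

theorem mem_of_integral {M : Type*} [Field M] [Algebra kb M] {y : M} (h1 : IsIntegral kb y) :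
    ∃ a, algebraMap kb M a = y := by
  have h2 := IsAlgClosed.degree_eq_one_of_irreducible kb (minpoly.irreducible h1)
  exact minpoly.mem_range_of_degree_eq_one kb y h2

/-- an element not in an algebraically closed subfield can be specialised to any constant -/
theorem exists_place {M : Type*} [Field M] [Algebra kb M] {x : M}
    (hx : ∀ a, algebraMap kb M a ≠ x) (a : kb) :
    ∃ V : ValuationSubring M, (∀ c, algebraMap kb M c ∈ V) ∧ (x - algebraMap kb M a)⁻¹ ∉ V := by
  have hne : x - algebraMap kb M a ≠ 0 := fun h => hx a (sub_eq_zero.mp h).symm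
  have hR : (x - algebraMap kb M a)⁻¹ ∉ (algebraMap kb M).range := by
    rintro ⟨c, hc⟩
    have hc0 : c ≠ 0 := by
      rintro rfl
      rw [_root_.map_zero (algebraMap kb M)] at hc
      exact inv_ne_zero hne hc.symm
    apply hx (c⁻¹ + a)
    rw [map_add, map_inv₀, hc, inv_inv, sub_add_cancel]
  have : IsIntegrallyClosedIn (algebraMap kb M).range M := by
    rw [Subring.isIntegrallyClosedIn_iff]
    intro y hy
    have h1 : IsIntegral kb y := by
      obtain ⟨p, hp, hp0⟩ := hy
      have hsurj : Function.Surjective ((algebraMap kb M).rangeRestrict) :=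
        (algebraMap kb M).rangeRestrict_surjective
      obtain ⟨q, hq, hqd, hqm⟩ := Polynomial.lifts_and_natDegree_eq_and_monic
        (f := (algebraMap kb M).rangeRestrict) (p := p)
        ((Polynomial.mem_lifts _).mpr (Polynomial.map_surjective _ hsurj p)) hp
      refine ⟨q, hqm, ?_⟩
      rw [← hq, Polynomial.eval₂_map] at hp0
      exact hp0
    obtain ⟨z, hz⟩ := mem_of_integral h1
    exact ⟨z, hz⟩
  obtain ⟨V, hV, hV'⟩ := Subring.exists_le_valuationSubring_of_isIntegrallyClosedIn hR
  exact ⟨V, fun c => hV ⟨c, rfl⟩, hV'⟩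

variable [Algebra k kb] {M : Type*} [Field M] [Algebra kb M] [Algebra k M] [IsScalarTower k kb M]
  [W.IsElliptic] [DecidableEq kb] [DecidableEq M]

omit [W.IsElliptic] in
theorem exists_of_x {x y : M} (h : (W⁄M).Nonsingular x y) {a : kb} (ha : algebraMap kb M a = x) :
    ∃ Q : (W⁄kb).Point, map (Algebra.ofId kb M) Q = some x y h := by
  have h1 : IsIntegral kb y := by
    have h2 := ((W⁄M).equation_iff x y).mp h.1
    let q : Polynomial kb := Polynomial.X ^ 2 + Polynomial.C (algebraMap k kb W.a₁ * a +
      algebraMap k kb W.a₃) * Polynomial.X - Polynomial.C (a ^ 3 + algebraMap k kb W.a₂ * a ^ 2 +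
        algebraMap k kb W.a₄ * a + algebraMap k kb W.a₆)
    refine ⟨q, ?_, ?_⟩
    · show (Polynomial.X ^ 2 + _ - _ : Polynomial kb).Monic
      monicity!
    · have e : ∀ c : k, algebraMap kb M (algebraMap k kb c) = algebraMap k M c := fun c =>
        (IsScalarTower.algebraMap_apply k kb M c).symm
      simp only [q, Polynomial.eval₂_add, Polynomial.eval₂_sub, Polynomial.eval₂_mul,
        Polynomial.eval₂_pow, Polynomial.eval₂_X, Polynomial.eval₂_C, map_add, map_mul, map_pow,
        ha, e]
      have h3 : y ^ 2 + algebraMap k M W.a₁ * x * y + algebraMap k M W.a₃ * y = x ^ 3 +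
        algebraMap k M W.a₂ * x ^ 2 + algebraMap k M W.a₄ * x + algebraMap k M W.a₆ := h2
      linear_combination h3
  obtain ⟨b, hb⟩ := mem_of_integral h1
  subst ha hb
  have h4 : (W⁄kb).Nonsingular a b := (W.baseChange_nonsingular (Algebra.ofId kb M).injective a b).mp h
  exact ⟨some a b h4, rfl⟩

/-- Division points of constant points are constant. -/
theorem descend (P : (W⁄kb).Point) (hP : ∀ n : ℕ, n ≠ 0 → n • P ≠ 0) {n : ℕ} (hn : n ≠ 0)
    (ξ : (W⁄M).Point) (R : (W⁄kb).Point) (h : n • ξ = baseChange kb M R) :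
    ∃ ξ', baseChange kb M ξ' = ξ := by
  rcases hξ : ξ with _ | ⟨x, y, hxy⟩
  · exact ⟨0, rfl⟩
  by_contra hcon
  have hx : ∀ a, algebraMap kb M a ≠ x := by
    intro a ha
    obtain ⟨Q, hQ⟩ := exists_of_x hxy ha
    exact hcon ⟨Q, hQ⟩
  have key : ∀ Q : (W⁄kb).Point, Q ≠ 0 → n • Q = R ∨ n • Q = -R := by
    intro Q hQ
    rcases Q with _ | ⟨a, b, hab⟩
    · exact absurd rfl hQ
    obtain ⟨V, hV, hV'⟩ := exists_place hx a
    let L := IsLocalRing.ResidueField V
    let φ : V →+* L := IsLocalRing.residue V
    let ι : kb →+* V := (algebraMap kb M).codRestrict V.toSubring hV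
    let _ : Algebra kb L := (φ.comp ι).toAlgebra
    let _ : Algebra k L := ((φ.comp ι).comp (algebraMap k kb)).toAlgebra
    have : IsScalarTower k kb L := IsScalarTower.of_algebraMap_eq fun _ => rfl
    let _ : DecidableEq L := Classical.decEq L
    have hsp : ∀ c : kb, Sp V φ (algebraMap kb M c) (algebraMap kb L c) := fun c => ⟨hV c, rfl⟩
    have hsp' : ∀ c : k, Sp V φ (algebraMap k M c) (algebraMap k L c) := by
      intro c
      rw [IsScalarTower.algebraMap_apply k kb M]
      exact hsp _
    have hAB : CurveSp V φ (W⁄M) (W⁄L) := curveSp hsp'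
    have : IsLocalHom φ := inferInstanceAs (IsLocalHom (IsLocalRing.residue V))
    have hconst : ∀ T : (W⁄kb).Point, redHom hAB (baseChange kb M T) = baseChange kb L T :=
      redHom_baseChange hAB hsp
    have h1 := congrArg (redHom hAB) h
    rw [map_nsmul, hconst] at h1
    have hxa : Sp V φ x (algebraMap kb L a) := by
      have h2 := sp_inv_of_notMem (φ := φ) hV'
      rw [inv_inv] at h2
      have h3 := h2.add (hsp a)
      rwa [sub_add_cancel, zero_add] at h3
    have hy : y ∈ V := mem_y hAB hxa.mem hxy.1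
    have h3 := equation_iff_nonsingular.mp (hxa.equation hAB (sp_of_mem hy) hxy.1)
    have h4 : redHom hAB ξ = some _ _ h3 := by
      rw [hξ]
      exact red_some hAB hxy hxa (sp_of_mem hy) h3
    have h5 : redHom hAB ξ = baseChange kb L (some a b hab) ∨
        redHom hAB ξ = -baseChange kb L (some a b hab) := by
      rw [h4]
      exact X_eq_iff.mp rfl
    rcases h5 with h5 | h5
    · left
      apply map_injective (Algebra.ofId kb L)
      rw [map_nsmul, ← h1, h5]
    · right
      apply map_injective (Algebra.ofId kb L)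
      rw [map_nsmul, _root_.map_neg, ← h1, h5, smul_neg, _root_.neg_neg]
  have hP1 : P ≠ 0 := by simpa using hP 1 one_ne_zero
  have hP2 := hP 2 two_ne_zero
  have h3 := hP (3 * n) (by omega)
  have h4 := hP n hn
  have e3 : (3 * n) • P = (2 : ℕ) • (n • P) + n • P := by
    rw [mul_smul, show (3 : ℕ) = 2 + 1 from rfl, add_smul, one_smul]
  have e2 : n • (2 • P) = (2 : ℕ) • (n • P) := by rw [smul_comm]
  rcases key P hP1 with h5 | h5 <;> rcases key (2 • P) hP2 with h6 | h6
  · apply h4
    rw [e2, ← h5, two_smul] at h6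
    simpa using h6
  · apply h3
    rw [e3, ← e2, h6, h5, neg_add_cancel]
  · apply h3
    rw [e3, ← e2, h6, h5, add_neg_cancel]
  · apply h4
    rw [e2, ← h5, two_smul] at h6
    simpa using h6

end Pool.Agent.Lib.MP_2f3286_ag.Top
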