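import Pool.Agent.Lib.MP_2f3286_ag.Top.Curve

/-!
# Sections along two independent maps to an elliptic curve of rank one
-/

open WeierstrassCurve WeierstrassCurve.Affine WeierstrassCurve.Affine.Point
open IsDedekindDomain NumberField

namespace Pool.Agent.Lib.MP_2f3286_ag.Top

open Pool.Agent.Lib.MP_2f3286_ag.E

/-- coefficients of combinations -/
abbrev Box (Q : ℕ) : Type := {p : ℤ × ℤ × ℕ // p ∈ Finset.Icc (-(Q : ℤ)) Q ×ˢ
    Finset.Icc (-(Q : ℤ)) Q ×ˢ Finset.range 2}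

/-- exponents of combinations -/
def boxForm (Q : ℕ) : (Fin 2 ⊕ Box Q) → Fin 2 → ℤ
  | .inl e => fun j => if e = j then 1 else 0
  | .inr p => fun j => if j = 0 then p.1.1 else p.1.2.1

/-- combinations -/
def boxPt {A : Type*} [AddCommGroup A] (Q : ℕ) (t : Fin 2 → A) (P : A) : (Fin 2 ⊕ Box Q) → A
  | .inl e => t e
  | .inr p => p.1.1 • t 0 + p.1.2.1 • t 1 + (p.1.2.2 : ℤ) • P

theorem boxForm_inl {A : Type*} [AddCommGroup A] (Q : ℕ) (m : Fin 2 → ℤ) (t : Fin 2 → A) (P : A)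
    (e : Fin 2) : (∑ j, boxForm Q (.inl e) j * m j) • P + boxPt Q t P (.inl e) =
      m e • P + t e := by
  simp only [boxForm, boxPt, ite_mul, one_mul, zero_mul, Finset.sum_ite_eq, Finset.mem_univ,
    if_true]

theorem boxForm_inr {A : Type*} [AddCommGroup A] (Q : ℕ) (m : Fin 2 → ℤ) (t : Fin 2 → A) (P : A)
    (p : Box Q) : (∑ j, boxForm Q (.inr p) j * m j) • P + boxPt Q t P (.inr p) =
      (p.1.1 * m 0 + p.1.2.1 * m 1 + (p.1.2.2 : ℤ)) • P + (p.1.1 • t 0 + p.1.2.1 • t 1) := by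
  simp only [boxForm, boxPt, Fin.sum_univ_two, if_true, Fin.one_eq_zero_iff, OfNat.ofNat_ne_one,
    if_false]
  module

section curve

variable {k : Type*} [Field k] [NumberField k] [DecidableEq k]
  {kb : Type*} [Field kb] [Algebra k kb] [IsGalois k kb] [IsAlgClosed kb]
  {K M : Type*} [Field K] [Field M] [Algebra k K] [Algebra K M] [Algebra k M] [IsScalarTower k K M]
  [Algebra kb M] [IsScalarTower k kb M]
  [DecidableEq kb] [DecidableEq K] [DecidableEq M]

theorem isClass_box {W : Affine k} {s : Gal(kb/k) →* Gal(M/K)} {n : ℕ} {η : Fin 2 → (W⁄K).Point}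
    {P : (W⁄k).Point} {t : Fin 2 → (W⁄k).Point} {m : Fin 2 → ℤ}
    (h : ∀ e, IsClass s W n (η e) (m e • P + t e)) (Q : ℕ) (i : Fin 2 ⊕ Box Q) :
    IsClass s W n (boxPt Q η (baseChange k K P) i)
      ((∑ j, boxForm Q i j * m j) • P + boxPt Q t P i) := by
  rcases i with e | p
  · rw [boxForm_inl]
    exact h e
  · rw [boxForm_inr]
    have h1 := (((h 0).zsmul p.1.1).add ((h 1).zsmul p.1.2.1)).add
      ((isClass_const s n P).zsmul (p.1.2.2 : ℤ))
    have h2 : p.1.1 • (m 0 • P + t 0) + p.1.2.1 • (m 1 • P + t 1) + (p.1.2.2 : ℤ) • P =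
        (p.1.1 * m 0 + p.1.2.1 * m 1 + (p.1.2.2 : ℤ)) • P + (p.1.1 • t 0 + p.1.2.1 • t 1) := by
      module
    rw [h2] at h1
    exact h1

theorem two_maps (W : Affine k) [W.IsShortNF] [W.IsElliptic]
    [∀ v : HeightOneSpectrum (𝓞 k), DecidableEq (v.adicCompletion k)]
    (hDM : DMStatement W) (htr : Algebra.trdeg k K = 1)
    (η : Fin 2 → (W⁄K).Point)
    (hind : ∀ a b : ℤ, (∃ Q : (W⁄k).Point, a • η 0 + b • η 1 = baseChange k K Q) → a = 0 ∧ b = 0)
    (s : Gal(kb/k) →* Gal(M/K))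
    (hsec : ∀ σ a, s σ (algebraMap kb M a) = algebraMap kb M (σ a))
    (S : Finset (HeightOneSpectrum (𝓞 k)))
    (Fb : HeightOneSpectrum (𝓞 k) → Type*) [∀ v, Field (Fb v)] [∀ v, Algebra k (Fb v)]
    [∀ v, Algebra (v.adicCompletion k) (Fb v)] [∀ v, IsScalarTower k (v.adicCompletion k) (Fb v)]
    [∀ v, IsGalois (v.adicCompletion k) (Fb v)] [∀ v, DecidableEq (Fb v)]
    (ι : ∀ v, v ∉ S → (kb →ₐ[k] Fb v)) (O : ∀ v, v ∉ S → ValuationSubring M)
    (φ : ∀ v (hv : v ∉ S), O v hv →+* Fb v)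
    (hpl : ∀ v (hv : v ∉ S), IsPlaceOf (F := v.adicCompletion k) s (ι v hv) (O v hv) (φ v hv))
    (P : (W⁄k).Point) (hP : ∀ n : ℕ, n ≠ 0 → n • P ≠ 0) (t : Fin 2 → (W⁄k).Point)
    (α : Fin 2 → ℕ → ℤ) (hα : ∀ (i : Fin 2) (n m : ℕ), 1 ≤ m → n ∣ m → (n : ℤ) ∣ α i m - α i n)
    (hcl : ∀ e n, 1 ≤ n → IsClass s W n (η e) (α e n • P + t e)) :
    ∃ m : Fin 2 → ℤ, (∀ e (n : ℕ), 1 ≤ n → (n : ℤ) ∣ m e - α e n) ∧
      ∀ v (hv : v ∉ S) e, (hpl v hv).valK s (η e) = baseChange k (v.adicCompletion k)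
        (m e • P + t e) := by
  classical
  have hk : ∀ c : K, IsAlgebraic k c → ∃ c₀ : k, algebraMap k K c₀ = c :=
    fun c hc => const_of_algebraic s hsec hc
  have hη : ∀ e, ∃ x y, ∃ hxy : (W⁄K).Nonsingular x y, η e = some x y hxy ∧
      Transcendental k x ∧ ∀ c : k, algebraMap k K c ≠ x := by
    intro e
    apply const_point hk
    rintro ⟨Q, hQ⟩
    fin_cases e
    · have := (hind 1 0 ⟨Q, by rw [one_smul, zero_smul, add_zero]; exact hQ⟩).1
      exact one_ne_zero this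
    · have := (hind 0 1 ⟨Q, by rw [one_smul, zero_smul, zero_add]; exact hQ⟩).2
      exact one_ne_zero this
  choose x y hxy hηe htrans hconst using hη
  -- degrees
  let ηP : Fin 3 → (W⁄K).Point := ![η 0, η 1, baseChange k K P]
  have hdeg := fun e => exists_degree htr (htrans e) ηP
  choose d hd using hdeg
  obtain ⟨Q, hQ⟩ := hDM P hP t (max (d 0) (d 1))
  have hdle : ∀ e, d e ≤ max (d 0) (d 1) := by
    intro e
    fin_cases e
    · exact le_max_left _ _
    · exact le_max_right _ _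
  -- relations
  have hcomb : ∀ (a b : ℤ) (c : ℕ), (a ≠ 0 ∨ b ≠ 0) → ∃ x' y', ∃ h' : (W⁄K).Nonsingular x' y',
      a • η 0 + b • η 1 + (c : ℤ) • baseChange k K P = some x' y' h' ∧
        ∀ c : k, algebraMap k K c ≠ x' := by
    intro a b c hab
    obtain ⟨x', y', h', e1, -, e3⟩ := const_point hk
      (a • η 0 + b • η 1 + (c : ℤ) • baseChange k K P) (by
        rintro ⟨R, hR⟩
        have := hind a b ⟨R - (c : ℤ) • P, by
          rw [map_sub, ← hR, map_zsmul, add_sub_cancel_right]⟩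
        rcases hab with h | h
        · exact h this.1
        · exact h this.2)
    exact ⟨x', y', h', e1, e3⟩
  have hF : ∀ (e : Fin 2) (a b : ℤ) (c : ℕ), ∃ F : Polynomial (Polynomial k),
      F.natDegree ≤ max (d 0) (d 1) ∧ (∀ y : k, F.eval (Polynomial.C y) ≠ 0) ∧
      ((a ≠ 0 ∨ b ≠ 0) → ev2 (xc (η e)) (xc (a • η 0 + b • η 1 + (c : ℤ) • baseChange k K P)) F
        = 0) := by
    intro e a b c
    by_cases hab : a ≠ 0 ∨ b ≠ 0
    · obtain ⟨x', y', h', e1, e2⟩ := hcomb a b c hab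
      obtain ⟨F, hF1, hF2, hF3⟩ := hd e a b (c : ℤ) x' y' h' e1 e2
      refine ⟨F, hF1.trans (hdle e), hF2, fun _ => ?_⟩
      rw [e1, hηe e]
      exact hF3
    · refine ⟨1, by simp, fun y => by simp, fun h => absurd h hab⟩
  choose F hF1 hF2 hF3 using hF
  have hfin := hQ F (fun e a b c => ⟨hF1 e a b c, hF2 e a b c⟩)
  let η' : (Fin 2 ⊕ Box Q) → (W⁄K).Point := boxPt Q η (baseChange k K P)
  let t' : (Fin 2 ⊕ Box Q) → (W⁄k).Point := boxPt Q t P
  let Rel : Set (MvPolynomial ((Fin 2 ⊕ Box Q) × Fin 3) k) :=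
    {G | (∃ d, MultiHom G d) ∧ MvPolynomial.aeval (crds η') G = 0}
  obtain ⟨-, c2⟩ := core_lin (boxForm Q) S P hP t' α hα
    (fun v i => if hv : v ∉ S then (hpl v hv).valK s (η' i) else 0)
    (by
      intro v hv i n hn
      rw [dif_pos hv]
      exact (hpl v hv).valK_class s (isClass_box (fun e => hcl e n hn) Q i))
    Rel (fun G hG => hG.1) S
    (by
      rintro v hv G ⟨⟨d, hd⟩, hG⟩
      simp only [hv, not_false_eq_true, dite_true]
      exact (hpl v hv).valK_rel s η' hd hG)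
  obtain ⟨m, -, hm2, hm3⟩ := c2 (by
    refine hfin.subset fun m hm => ?_
    intro e a b c ha hb hab hc h1 h2
    have hmem : (a, b, c) ∈ Finset.Icc (-(Q : ℤ)) Q ×ˢ
        Finset.Icc (-(Q : ℤ)) Q ×ˢ Finset.range 2 := by
      rw [Finset.mem_product, Finset.mem_product, Finset.mem_Icc, Finset.mem_Icc,
        Finset.mem_range]
      exact ⟨abs_le.mp ha, abs_le.mp hb, by show c < 2; omega⟩
    let p : Box Q := ⟨(a, b, c), hmem⟩
    obtain ⟨e', he'⟩ := exists_inner_bound (F e a b c)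
    have h3 := hm (biHom (F e a b c) e' (F e a b c).natDegree (Sum.inl e) (Sum.inr p)) ⟨⟨_,
      multiHom_biHom _ _ _ (by simp)⟩, by
        have hz1 : η' (Sum.inl e) ≠ 0 := by
          show η e ≠ 0
          rw [hηe e]
          exact some_ne_zero _
        have hz2 : η' (Sum.inr p) ≠ 0 := by
          show a • η 0 + b • η 1 + (c : ℤ) • baseChange k K P ≠ 0
          obtain ⟨x', y', h', e1, -⟩ := hcomb a b c hab
          rw [e1]
          exact some_ne_zero _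
        rw [aeval_crds_biHom _ _ le_rfl he' hz1 hz2]
        exact hF3 e a b c hab⟩
    have e1 : (∑ j, boxForm Q (Sum.inl e) j * m j) • P + t' (Sum.inl e) = m e • P + t e :=
      boxForm_inl Q m t P e
    have e2 : (∑ j, boxForm Q (Sum.inr p) j * m j) • P + t' (Sum.inr p) =
      (a * m 0 + b * m 1 + (c : ℤ)) • P + (a • t 0 + b • t 1) := boxForm_inr Q m t P p
    rw [aeval_crds_biHom _ _ le_rfl he' (by rw [e1]; exact h1) (by rw [e2]; exact h2), e1, e2,
      ev2_self] at h3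
    exact h3)
  refine ⟨m, hm2, fun v hv e => ?_⟩
  have h4 := hm3 v hv (Sum.inl e)
  rw [dif_pos hv, boxForm_inl] at h4
  exact h4

end curve

end Pool.Agent.Lib.MP_2f3286_ag.Top
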